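import Pool.Agent.U497.AW.Dense
import Pool.Agent.U497.SF.Quad

/-!
# The prime values of almost all members of the thin families in all short intervals (helper497)
-/

set_option autoImplicit false

namespace Pool.Agent.U497.AW

open Finset Polynomial Filter Topology

open Pool.Agent.Y677.RSZ (rt V)
open Pool.Agent.K3h89.SZ (SysP CF)
open Pool.Agent.H300R2.BH (rho)
open Pool.Agent.U497.SP (fn sysP InP few)
open Pool.Agent.U497.SF (Qp fn_Qp Adm Qp_sys per_Q mean_Q PQ quad small_values famV)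

open Classical in
/-- **thin families**: dense sets of arguments of prime values in all short intervals -/
theorem quadA (a b : ℤ) (ha : a ≠ 0) (K : ℕ) (hK : 1 ≤ K) (δ ε : ℝ) (hδ : 0 < δ) (hε : 0 < ε) :
    ∃ c₀ : ℝ, 0 < c₀ ∧ ∀ k : ℕ, 2 ≤ k → ∃ B H₀ : ℕ, ∀ H : ℕ, H₀ ≤ H → ∀ c : ℤ, Adm a b c → c.natAbs ≤ K * H ^ 2 →
      ∃ Bad ⊆ Icc 1 H, (Bad.card : ℝ) ≤ ε * H ∧ ∀ h ∈ Icc 1 H, h ∉ Bad → ∀ S ⊆ PQ a b c h (K * H),
        δ * (H / Real.log H) ≤ S.card →
        c₀ * H ≤ (((Ioc 0 (K * H)).filter (fun n : ℕ => ∀ M : ℕ, (H : ℝ) ≤ c₀ * (S.card * M) → M ≤ K * H →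
          c₀ * (S.card * M) / H ≤
            ((S.filter (fun x => InP S k (Real.log H ^ B) x ∧ x ∈ Ioc n (n + M))).card : ℝ))).card : ℝ) := by
  have hKr : (1 : ℝ) ≤ K := by exact_mod_cast hK
  have hK0 : (0 : ℝ) < K := by linarith
  obtain ⟨C, hC, x1, hV⟩ := famV 3 (2 * a).natAbs (ε / (2 * K)) (by positivity)
    (Int.natAbs_pos.2 (mul_ne_zero two_ne_zero ha))
  obtain ⟨c₁, hc₁, x2, hdense⟩ := dense 3 (1 / 2) (2 * K * C / δ) (by norm_num) (by positivity)
  obtain ⟨c₀, hc₀⟩ : ∃ c₀ : ℝ, c₀ = c₁ / (2 * K) := ⟨_, rfl⟩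
  have hc₀0 : 0 < c₀ := by rw [hc₀]; positivity
  have hc₀1 : c₁ = 2 * K * c₀ := by rw [hc₀]; field_simp
  refine ⟨c₀, hc₀0, fun k hk => ?_⟩
  obtain ⟨B, x3, hquad⟩ := quad a b ha k hk K (δ / 2) (ε / 2) (by positivity) (by positivity)
  have tc : Tendsto (fun H : ℕ => (H : ℝ)) atTop atTop := tendsto_natCast_atTop_atTop
  have hlo : ∀ᶠ H : ℕ in atTop, 8 * √(K : ℝ) * Real.log H ≤ δ * √(H : ℝ) := by
    have h1 : (fun x : ℝ => Real.log x) =o[atTop] fun x : ℝ => x ^ (1 / 2 : ℝ) := isLittleO_log_rpow_atTop (by norm_num)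
    have h2 := h1.bound (show (0 : ℝ) < δ / (8 * √(K : ℝ)) by positivity)
    filter_upwards [tc.eventually h2, tc.eventually_ge_atTop 1] with H h3 h4
    rw [Real.norm_of_nonneg (Real.log_nonneg h4), Real.norm_of_nonneg (by positivity), ← Real.sqrt_eq_rpow,
      div_mul_eq_mul_div, le_div_iff₀ (by positivity)] at h3
    linarith
  obtain ⟨x4, hx4⟩ := eventually_atTop.1 (hlo.and (eventually_ge_atTop 3))
  refine ⟨B, max (max x1 x2) (max x3 x4), fun H hH c hadm hc => ?_⟩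
  have y1 : x1 ≤ H := (le_max_left _ _).trans ((le_max_left _ _).trans hH)
  have y2 : x2 ≤ H := (le_max_right _ _).trans ((le_max_left _ _).trans hH)
  have y3 : x3 ≤ H := (le_max_left _ _).trans ((le_max_right _ _).trans hH)
  obtain ⟨k1, k2⟩ := hx4 H ((le_max_right _ _).trans ((le_max_right _ _).trans hH) : x4 ≤ H)
  have hH0 : (0 : ℝ) < H := by exact_mod_cast (by omega : 0 < H)
  have hlogH : 0 < Real.log (H : ℝ) := Real.log_pos (by exact_mod_cast (by omega : 1 < H))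
  have hHKH : H ≤ K * H := Nat.le_mul_of_pos_left H hK
  have hKH1 : 1 ≤ K * H := by omega
  have hcast : ((K * H : ℕ) : ℝ) = (K : ℝ) * H := by push_cast; ring
  have hsqK : √(((K * H : ℕ) : ℝ)) ≤ ((K * H : ℕ) : ℝ) := by
    have h1 : (1 : ℝ) ≤ ((K * H : ℕ) : ℝ) := by exact_mod_cast hKH1
    rw [Real.sqrt_le_left (by linarith)]
    nlinarith
  obtain ⟨Bad1, b1, b2, b3⟩ := hquad H y3 c hadm hc
  have hV1 := hV (K * H) (K * H) (y1.trans hHKH) hsqK (fun h => fn (Qp a b c h))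
    (fun h p hp _ => ((Qp_sys hadm h).root p hp).1) (fun h p _ _ => per_Q a b c h p) (fun p hp hd => mean_Q a b c hp hd)
  set Bad2 := (Icc 1 (K * H)).filter (fun h => C / Real.log ((K * H : ℕ) : ℝ) < V (fn (Qp a b c h)) 1 (K * H)) with hBad2
  refine ⟨Bad1 ∪ (Bad2 ∩ Icc 1 H), union_subset b1 inter_subset_right, ?_, ?_⟩
  · have h1 : ((Bad1 ∪ (Bad2 ∩ Icc 1 H)).card : ℝ) ≤ Bad1.card + Bad2.card := by
      exact_mod_cast (card_union_le _ _).trans (Nat.add_le_add_left (card_le_card inter_subset_left) _)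
    have h2 : ε / (2 * K) * (((K * H : ℕ)) : ℝ) = ε / 2 * H := by
      rw [hcast]
      field_simp
    rw [h2] at hV1
    linarith
  intro h hh hbad S hS hSc
  rw [mem_union, not_or] at hbad
  have hb2 : h ∉ Bad2 := fun h1 => hbad.2 (mem_inter.2 ⟨h1, hh⟩)
  have hVh : V (fn (Qp a b c h)) 1 (K * H) ≤ C / Real.log H := by
    have h1 : V (fn (Qp a b c h)) 1 (K * H) ≤ C / Real.log ((K * H : ℕ) : ℝ) := by
      by_contra hcon
      apply hb2
      rw [hBad2, mem_filter, mem_Icc]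
      rw [mem_Icc] at hh
      exact ⟨⟨hh.1, hh.2.trans hHKH⟩, not_le.1 hcon⟩
    refine h1.trans ?_
    apply div_le_div_of_nonneg_left hC.le hlogH
    apply Real.log_le_log hH0
    exact_mod_cast hHKH
  have g6 := b3 h hh hbad.1 S hS
  obtain ⟨S', hS'⟩ : ∃ S' : Finset ℕ, S' = S.filter (fun x => InP S k (Real.log H ^ B) x) := ⟨_, rfl⟩
  have hS'S : S' ⊆ S := by rw [hS']; exact filter_subset _ _
  have hS'c : (S.card : ℝ) / 2 ≤ S'.card := by
    have h7 : ((S.filter (fun x => ¬ InP S k (Real.log H ^ B) x)).card : ℝ) ≤ δ / 2 * (H / Real.log H) := by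
      refine le_trans (le_of_eq ?_) g6
      rw [← Set.ncard_coe_finset]
      congr 2
      ext n
      rw [mem_coe, mem_filter]
      rfl
    have h8 : (S'.card : ℝ) + (S.filter (fun x => ¬ InP S k (Real.log H ^ B) x)).card = S.card := by
      rw [hS']
      exact_mod_cast card_filter_add_card_filter_not (s := S) (fun x => InP S k (Real.log H ^ B) x)
    linarith
  have hSc' : ∀ n ∈ S, 1 ≤ n ∧ n ≤ K * H ∧
      (a * (n : ℤ) ^ 2 + b * n + (c - (a * (h : ℤ) ^ 2 + b * h))).toNat.Prime := by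
    intro n hn
    have := hS hn
    rw [PQ, mem_filter, mem_Icc] at this
    exact ⟨this.1.1, this.1.2, this.2⟩
  -- the arguments with small values
  set Y : ℕ := ⌊√(((K * H : ℕ) : ℝ))⌋₊ with hY
  have hYu : (Y : ℝ) ≤ √(K : ℝ) * √(H : ℝ) := by
    rw [← Real.sqrt_mul hK0.le, ← hcast]
    exact Nat.floor_le (Real.sqrt_nonneg _)
  set e : ℤ := c - (a * (h : ℤ) ^ 2 + b * h) with he
  set T := (Icc 1 (K * H)).filter (fun n : ℕ => 0 < a * (n : ℤ) ^ 2 + b * n + e ∧
    a * (n : ℤ) ^ 2 + b * n + e ≤ Y) with hT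
  have hTc : T.card ≤ 2 * Y := small_values ha _ _
  have hTr : (T.card : ℝ) ≤ S'.card / 2 := by
    have h1 : (T.card : ℝ) ≤ 2 * Y := by exact_mod_cast hTc
    have h2 : √(H : ℝ) * √(H : ℝ) = H := Real.mul_self_sqrt hH0.le
    have h3 : (2 * (√(K : ℝ) * √(H : ℝ))) * Real.log H ≤ δ / 4 * H := by
      calc (2 * (√(K : ℝ) * √(H : ℝ))) * Real.log H =
            (8 * √(K : ℝ) * Real.log H) * √(H : ℝ) / 4 := by ring
        _ ≤ (δ * √(H : ℝ)) * √(H : ℝ) / 4 := by
          apply div_le_div_of_nonneg_right _ (by norm_num)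
          exact mul_le_mul_of_nonneg_right k1 (Real.sqrt_nonneg _)
        _ = δ / 4 * (√(H : ℝ) * √(H : ℝ)) := by ring
        _ = δ / 4 * H := by rw [h2]
    have h4 : (T.card : ℝ) ≤ δ / 4 * (H / Real.log H) := by
      rw [mul_div_assoc', le_div_iff₀ hlogH]
      refine le_trans ?_ h3
      apply mul_le_mul_of_nonneg_right _ hlogH.le
      linarith
    linarith
  have h9 := hdense (fn (Qp a b c h)) 0 (K * H) S' T (Qp_sys hadm h) (y2.trans hHKH) (by
      intro n hn
      have h1 := hSc' n (hS'S hn)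
      rw [mem_Ioc]
      omega) (by
      intro n hn hnT p hp hpY hpd
      obtain ⟨h1, h2, h3⟩ := hSc' n (hS'S hn)
      rw [fn_Qp] at hpd
      have hpos : 0 < a * (n : ℤ) ^ 2 + b * n + e := by
        by_contra hcon
        rw [Int.toNat_of_nonpos (not_lt.1 hcon)] at h3
        exact Nat.not_prime_zero h3
      have h4 : p ∣ (a * (n : ℤ) ^ 2 + b * n + e).toNat := by
        rw [← Int.natCast_dvd_natCast, Int.toNat_of_nonneg hpos.le]
        exact hpd
      have h5 := (Nat.prime_dvd_prime_iff_eq hp h3).1 h4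
      apply hnT
      rw [hT, mem_filter, mem_Icc]
      refine ⟨⟨h1, h2⟩, hpos, ?_⟩
      have h6 : p ≤ Y := by
        apply Nat.le_floor
        rw [Real.sqrt_eq_rpow]
        exact hpY
      have h7 : ((p : ℕ) : ℤ) ≤ Y := by exact_mod_cast h6
      rw [h5, Int.toNat_of_nonneg hpos.le] at h7
      exact h7) hTr (by
      rw [hcast]
      calc (K : ℝ) * H * V (fn (Qp a b c h)) 1 (K * H) ≤ K * H * (C / Real.log H) := by gcongr
        _ = 2 * K * C / δ * (δ * (H / Real.log H) / 2) := by field_simp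
        _ ≤ 2 * K * C / δ * S'.card := by
            have : δ * (H / Real.log H) / 2 ≤ S'.card := by linarith
            gcongr)
  have hKc : c₀ * (H : ℝ) ≤ c₁ * ((K * H : ℕ) : ℝ) := by
    rw [hcast, hc₀1]
    have h10 : 0 ≤ c₀ * (H : ℝ) := by positivity
    have h11 : (1 : ℝ) ≤ 2 * K * K := by nlinarith
    calc c₀ * (H : ℝ) ≤ (2 * K * K) * (c₀ * H) := by nlinarith
      _ = _ := by ring
  calc c₀ * (H : ℝ) ≤ c₁ * ((K * H : ℕ) : ℝ) := hKc
    _ ≤ _ := h9
    _ ≤ _ := by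
        rw [zero_add]
        have h20 : (Ioc 0 (K * H)).filter (fun n : ℕ => ∀ M : ℕ, (((K * H : ℕ)) : ℝ) ≤ c₁ * (S'.card * M) → M ≤ K * H →
            c₁ * (S'.card * M) / ((K * H : ℕ) : ℝ) ≤ ((S'.filter (fun x => x ∈ Ioc n (n + M))).card : ℝ)) ⊆
            (Ioc 0 (K * H)).filter (fun n : ℕ => ∀ M : ℕ, (H : ℝ) ≤ c₀ * (S.card * M) → M ≤ K * H →
            c₀ * (S.card * M) / H ≤
              ((S.filter (fun x => InP S k (Real.log H ^ B) x ∧ x ∈ Ioc n (n + M))).card : ℝ)) := by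
          intro n hn
          rw [mem_filter] at hn ⊢
          refine ⟨hn.1, fun M hM1 hM2 => ?_⟩
          have hM0 : (0 : ℝ) ≤ M := Nat.cast_nonneg _
          have h21 : K * (c₀ * (S.card * (M : ℝ))) ≤ c₁ * (S'.card * M) := by
            rw [hc₀1]
            calc K * (c₀ * (S.card * (M : ℝ))) = 2 * K * c₀ * ((S.card : ℝ) / 2 * M) := by ring
              _ ≤ _ := by gcongr
          have h22 := hn.2 M (by
            rw [hcast]
            refine le_trans ?_ h21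
            gcongr) hM2
          have h23 : (S'.filter (fun x => x ∈ Ioc n (n + M))) =
              S.filter (fun x => InP S k (Real.log H ^ B) x ∧ x ∈ Ioc n (n + M)) := by
            rw [hS', filter_filter]
          rw [← h23]
          refine le_trans ?_ h22
          rw [hcast, div_le_div_iff₀ hH0 (by positivity)]
          calc c₀ * (S.card * (M : ℝ)) * (K * H) = K * (c₀ * (S.card * (M : ℝ))) * H := by ring
            _ ≤ _ := by gcongr
        exact_mod_cast card_le_card h20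

end Pool.Agent.U497.AW
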