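import Pool.Agent.U497.AW.Fin

/-!
# Sifted numbers in almost all short intervals: the theorem for functions with periodic divisibility (helper497)
-/

set_option autoImplicit false

open Finset

namespace Pool.Agent.U497.AW

open Pool.Agent.TH423.SH (PS)
open Pool.Agent.Y677.RSZ (rt rhoT V rs fac_nonneg fac_le exJ ev_log V_le_one V_split)
open Pool.Agent.K3h89.SZ (SysP CF V_lowerP V_posP card_shiftP perP_mod)

open Classical in
/-- **sifted numbers in almost all short intervals** -/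
theorem aasys (g : ℕ) (ε θ : ℝ) (hε : 0 < ε) (hε1 : ε ≤ 1) (hθ : 0 < θ) : ∃ δ K : ℝ, 0 < δ ∧ 0 < K ∧
    ∃ H₀ : ℕ, ∀ H : ℕ, H₀ ≤ H → ∃ z : ℕ, (H : ℝ) ^ δ ≤ z ∧ (z : ℝ) ≤ (H : ℝ) ^ θ ∧
    ∀ (F : ℤ → ℤ) (Y : ℕ), SysP g F →
      (((Ioc Y (Y + H)).filter (fun n => ∃ L : ℕ, L ≤ H ∧ K ≤ V F 1 z * L ∧
        ε * (V F 1 z * L) < |(((Ioc n (n + L)).filter (fun m : ℕ => ∀ p ∈ PS 1 z, ¬ (p : ℤ) ∣ F (m : ℤ))).card : ℝ) -
          V F 1 z * L|)).card : ℝ) ≤ ε * H := by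
  obtain ⟨κ, hκ⟩ : ∃ κ : ℝ, κ = ε ^ 2 / 100 := ⟨_, rfl⟩
  have hκ0 : 0 < κ := by rw [hκ]; positivity
  have hκ1 : κ ≤ 1 / 100 := by
    rw [hκ]
    have : ε ^ 2 ≤ 1 := pow_le_one₀ hε.le hε1
    linarith
  have hκ2 : κ ^ 2 ≤ 1 := by nlinarith
  have hκ3 : 0 < κ ^ 2 := by positivity
  obtain ⟨W, E, N₀, hW0, hE1, hp⟩ := pairs g (κ ^ 2) (θ / 2) hκ3 hκ2 (by positivity)
  obtain ⟨N₁, hN₁⟩ := V1_low g
  obtain ⟨c, hc⟩ : ∃ c : ℝ, c = W * (g + 1) := ⟨_, rfl⟩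
  have hc0 : 0 ≤ c := by rw [hc]; positivity
  obtain ⟨K₁, hK₁⟩ : ∃ K₁ : ℝ, K₁ = 2 * (2 * c + 1) / κ ^ 2 := ⟨_, rfl⟩
  have hK₁0 : 0 < K₁ := by rw [hK₁]; positivity
  have hEr : (1 : ℝ) ≤ E := by exact_mod_cast hE1
  obtain ⟨R, hR⟩ : ∃ R : ℝ, R = 2 * (K₁ + 1) / κ ^ 2 := ⟨_, rfl⟩
  have hR0 : 0 < R := by rw [hR]; positivity
  refine ⟨1 / (8 * E), 4 * (K₁ + 1) / ε, by positivity, by positivity, N₀ + N₁ + 2 + ⌈R ^ 2⌉₊ + ⌈1 / κ ^ 2⌉₊, fun H hH => ?_⟩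
  obtain ⟨z, hz1, hz2, hz3, hz4⟩ := hp (2 * H) (by omega)
  have hH2 : (2 : ℝ) ≤ H := by exact_mod_cast (by omega : 2 ≤ H)
  have hH0 : (0 : ℝ) < H := by linarith
  refine ⟨z, ?_, ?_, fun F Y hF => ?_⟩
  · have h1 : (H : ℝ) ≤ (z : ℝ) ^ (8 * E) := by exact_mod_cast (by omega : H ≤ z ^ (8 * E))
    calc (H : ℝ) ^ (1 / (8 * (E : ℝ))) ≤ ((z : ℝ) ^ (8 * E)) ^ (1 / (8 * (E : ℝ))) :=
          Real.rpow_le_rpow hH0.le h1 (by positivity)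
      _ = z := by
          rw [← Real.rpow_natCast, ← Real.rpow_mul (Nat.cast_nonneg _)]
          push_cast
          rw [mul_one_div_cancel (by positivity), Real.rpow_one]
  · refine hz1.trans ?_
    push_cast
    calc (2 * (H : ℝ)) ^ (θ / 2) ≤ ((H : ℝ) ^ (2 : ℝ)) ^ (θ / 2) := by
          apply Real.rpow_le_rpow (by positivity) _ (by positivity)
          rw [Real.rpow_two]
          nlinarith
      _ = (H : ℝ) ^ θ := by
          rw [← Real.rpow_mul hH0.le]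
          congr 1
          ring
  · obtain ⟨h1, h2, h3⟩ := hz4 F Y hF
    obtain ⟨v, hv⟩ : ∃ v : ℝ, v = V F 1 z := ⟨_, rfl⟩
    have hv0 : 0 < v := by rw [hv]; exact V_posP hF 1 z
    have hv1 : v ≤ 1 := by rw [hv]; exact V_le_one 1 z
    have hvl : ((2 * H : ℕ) : ℝ) ^ (-(1 / 4 : ℝ)) ≤ v := by rw [hv]; exact hN₁ (2 * H) (by omega) F z hF hz2
    rw [← hv] at h1 h2 h3 ⊢
    rw [← hc] at h3
    obtain ⟨N, hN⟩ : ∃ N : ℝ, N = ((2 * H : ℕ) : ℝ) := ⟨_, rfl⟩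
    have hN2 : N = 2 * H := by rw [hN]; push_cast; ring
    have hN0 : 0 < N := by rw [hN2]; linarith
    have hRN : R ≤ Real.sqrt N := by
      apply Real.le_sqrt_of_sq_le
      have h4 : R ^ 2 ≤ (⌈R ^ 2⌉₊ : ℝ) := Nat.le_ceil _
      have h5 : (⌈R ^ 2⌉₊ : ℝ) ≤ H := by exact_mod_cast (by omega : ⌈R ^ 2⌉₊ ≤ H)
      linarith
    have hvv : 1 / Real.sqrt N ≤ v ^ 2 := by
      rw [← hN] at hvl
      have h4 : (N ^ (-(1 / 4 : ℝ))) ^ 2 ≤ v ^ 2 := pow_le_pow_left₀ (by positivity) hvl 2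
      refine le_trans (le_of_eq ?_) h4
      rw [Real.sqrt_eq_rpow, one_div, ← Real.rpow_neg hN0.le, ← Real.rpow_natCast, ← Real.rpow_mul hN0.le]
      norm_num
    obtain ⟨D, hD⟩ : ∃ D : ℕ, D = ⌈K₁ / v⌉₊ := ⟨_, rfl⟩
    have hDl : K₁ / v ≤ D := by rw [hD]; exact Nat.le_ceil _
    have hDu : (D : ℝ) ≤ (K₁ + 1) / v := by
      have h4 : (D : ℝ) < K₁ / v + 1 := by rw [hD]; exact Nat.ceil_lt_add_one (by positivity)
      have h5 : (1 : ℝ) ≤ 1 / v := by rw [le_div_iff₀ hv0]; linarith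
      rw [add_div]
      linarith
    have hD1 : 1 ≤ D := by
      rw [hD]
      exact Nat.ceil_pos.2 (by positivity)
    have hM : 2 * (2 * c + 1) ≤ κ ^ 2 * (v * D) := by
      rw [div_le_iff₀ hv0] at hDl
      rw [hK₁, div_le_iff₀ hκ3] at hDl
      linarith
    have hD2 : 2 * (D : ℝ) ≤ κ ^ 2 * (((2 * H : ℕ) : ℝ) * v) := by
      rw [← hN]
      have hs0 : 0 < Real.sqrt N := Real.sqrt_pos.2 hN0
      have h4 : 2 * (K₁ + 1) ≤ κ ^ 2 * (N * v ^ 2) := by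
        have h5 : Real.sqrt N ≤ N * v ^ 2 := by
          calc Real.sqrt N = N * (1 / Real.sqrt N) := by
                rw [mul_one_div, Real.div_sqrt]
            _ ≤ _ := by gcongr
        have h6 : 2 * (K₁ + 1) ≤ κ ^ 2 * Real.sqrt N := by
          rw [hR, div_le_iff₀ hκ3] at hRN
          linarith
        exact h6.trans (by gcongr)
      calc 2 * (D : ℝ) ≤ 2 * ((K₁ + 1) / v) := by gcongr
        _ = 2 * (K₁ + 1) / v := by ring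
        _ ≤ κ ^ 2 * (N * v ^ 2) / v := by gcongr
        _ = _ := by field_simp
    have hH1 : 1 ≤ κ ^ 2 * ((2 * H : ℕ) : ℝ) := by
      rw [← hN, hN2]
      have h4 : 1 / κ ^ 2 ≤ (⌈1 / κ ^ 2⌉₊ : ℝ) := Nat.le_ceil _
      have h5 : (⌈1 / κ ^ 2⌉₊ : ℝ) ≤ H := by exact_mod_cast (by omega : ⌈1 / κ ^ 2⌉₊ ≤ H)
      have h6 := h4.trans h5
      rw [div_le_iff₀ hκ3] at h6
      nlinarith
    have hmain := aas (Sf F z Y (2 * H)) Y H D v c ε κ hε hε1 hκ hv0 hc0 (filter_subset _ _) h1 h2 h3 hD1 hM hD2 hH1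
    refine le_trans ?_ hmain
    have hsub : (Ioc Y (Y + H)).filter (fun n => ∃ L : ℕ, L ≤ H ∧ 4 * (K₁ + 1) / ε ≤ v * L ∧
        ε * (v * L) < |(((Ioc n (n + L)).filter (fun m : ℕ => ∀ p ∈ PS 1 z, ¬ (p : ℤ) ∣ F (m : ℤ))).card : ℝ) - v * L|) ⊆
        (Ioc Y (Y + H)).filter (fun n => ∃ L : ℕ, L ≤ H ∧ (D : ℝ) ≤ ε / 4 * L ∧
        ε * (v * L) < |(Xc (Sf F z Y (2 * H)) L n : ℝ) - v * L|) := by
      intro n hn
      rw [mem_filter] at hn ⊢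
      obtain ⟨hn1, L, hL1, hL2, hL3⟩ := hn
      refine ⟨hn1, L, hL1, ?_, ?_⟩
      · refine hDu.trans ?_
        rw [div_le_iff₀ hv0]
        rw [div_le_iff₀ hε] at hL2
        linarith
      · have e1 : Xc (Sf F z Y (2 * H)) L n = ((Ioc n (n + L)).filter (fun m : ℕ => ∀ p ∈ PS 1 z, ¬ (p : ℤ) ∣ F (m : ℤ))).card := by
          unfold Xc Sf
          congr 1
          ext m
          rw [mem_filter, mem_filter, mem_filter, mem_Ioc, mem_Ioc]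
          rw [mem_Ioc] at hn1
          constructor
          · rintro ⟨⟨_, h5⟩, h6⟩
            exact ⟨h6, h5⟩
          · rintro ⟨h6, h5⟩
            exact ⟨⟨⟨by omega, by omega⟩, h5⟩, h6⟩
        rw [e1]
        exact hL3
    exact_mod_cast card_le_card hsub

end Pool.Agent.U497.AW
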