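import Pool.Agent.U497.AW.Pair
import Pool.Agent.H374R2.CofD

/-!
# The average of the singular series for pairs, over short intervals of differences (helper497)
-/

set_option autoImplicit false

open Finset

namespace Pool.Agent.U497.AW

open Pool.Agent.TH423.SH (PS)
open Pool.Agent.Y677.RSZ (rt rhoT V rs fac_nonneg fac_le exJ ev_log V_le_one)
open Pool.Agent.K3h89.SZ (SysP CF V_lowerP V_posP card_shiftP perP_mod)

/-- Jensen's inequality for the exponential function and weights with sum at most 1 -/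
lemma jens {ι : Type*} (s : Finset ι) (w y : ι → ℝ) (hw : ∀ i ∈ s, 0 ≤ w i) (hs : ∑ i ∈ s, w i ≤ 1) :
    Real.exp (∑ i ∈ s, w i * y i) ≤ ∑ i ∈ s, w i * Real.exp (y i) + (1 - ∑ i ∈ s, w i) := by
  obtain ⟨T, hT⟩ : ∃ T : ℝ, T = ∑ i ∈ s, w i * y i := ⟨_, rfl⟩
  have h1 : ∀ u : ℝ, Real.exp T * (1 + u - T) ≤ Real.exp u := by
    intro u
    have h2 := Real.add_one_le_exp (u - T)
    have h3 : Real.exp u = Real.exp T * Real.exp (u - T) := by
      rw [← Real.exp_add]
      congr 1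
      ring
    rw [h3]
    apply mul_le_mul_of_nonneg_left _ (Real.exp_pos _).le
    linarith
  have h2 : ∑ i ∈ s, w i * (Real.exp T * (1 + y i - T)) ≤ ∑ i ∈ s, w i * Real.exp (y i) :=
    sum_le_sum fun i hi => mul_le_mul_of_nonneg_left (h1 _) (hw i hi)
  have h3 : ∑ i ∈ s, w i * (Real.exp T * (1 + y i - T)) = Real.exp T * ((1 - T) * ∑ i ∈ s, w i + T) := by
    conv_rhs => rw [hT]
    rw [mul_sum, ← sum_add_distrib, mul_sum]
    apply sum_congr rfl
    intro i _
    rw [← hT]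
    ring
  have h4 := h1 0
  rw [Real.exp_zero] at h4
  have h5 : (1 - ∑ i ∈ s, w i) * (Real.exp T * (1 + 0 - T)) ≤ 1 - ∑ i ∈ s, w i := by
    have := mul_le_mul_of_nonneg_left h4 (sub_nonneg.2 hs)
    linarith
  rw [h3] at h2
  rw [← hT]
  have h6 : Real.exp T * ((1 - T) * ∑ i ∈ s, w i + T) + (1 - ∑ i ∈ s, w i) * (Real.exp T * (1 + 0 - T)) = Real.exp T := by
    ring
  linarith

/-- the exponential function on `[0, B]` -/
lemma exp_chord {b B : ℝ} (hb : 0 ≤ b) (hbB : b ≤ B) : B * (Real.exp b - 1) ≤ b * (Real.exp B - 1) := by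
  rcases hb.eq_or_lt with h0 | h0
  · rw [← h0, Real.exp_zero]
    simp
  · have hB : 0 < B := lt_of_lt_of_le h0 hbB
    have h1 := convexOn_exp.2 (Set.mem_univ (0 : ℝ)) (Set.mem_univ B) (sub_nonneg.2 ((div_le_one hB).2 hbB))
      (div_nonneg hb hB.le) (by ring)
    simp only [smul_eq_mul, mul_zero, zero_add, Real.exp_zero, mul_one] at h1
    rw [div_mul_cancel₀ _ hB.ne'] at h1
    have h2 := mul_le_mul_of_nonneg_left h1 hB.le
    have h3 : B * (1 - b / B + b / B * Real.exp B) = B - b + b * Real.exp B := by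
      field_simp
    rw [h3] at h2
    linarith

/-- the total number of coincidences, large primes -/
lemma sum_cc_large {g : ℕ} {F : ℤ → ℤ} (hF : SysP g F) {p : ℕ} (hp : p.Prime) {D : ℕ} (hD : D < p) :
    ∑ h ∈ Icc 1 D, cc F h p ≤ g * rt F p := by
  have h1 : ∀ h : ℕ, cc F h p = ∑ r ∈ (range p).filter (fun r : ℕ => (p : ℤ) ∣ F r),
      if (p : ℤ) ∣ F ((r + h : ℕ) : ℤ) then 1 else 0 := by
    intro h
    unfold cc
    rw [← card_filter, filter_filter]
  calc ∑ h ∈ Icc 1 D, cc F h p = ∑ h ∈ Icc 1 D, ∑ r ∈ (range p).filter (fun r : ℕ => (p : ℤ) ∣ F r),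
        (if (p : ℤ) ∣ F ((r + h : ℕ) : ℤ) then 1 else 0) := sum_congr rfl fun h _ => h1 h
    _ = ∑ r ∈ (range p).filter (fun r : ℕ => (p : ℤ) ∣ F r), ∑ h ∈ Icc 1 D,
        (if (p : ℤ) ∣ F ((r + h : ℕ) : ℤ) then 1 else 0) := sum_comm
    _ ≤ ∑ _r ∈ (range p).filter (fun r : ℕ => (p : ℤ) ∣ F r), g := by
        apply sum_le_sum
        intro r _
        rw [← card_filter]
        calc ((Icc 1 D).filter (fun h : ℕ => (p : ℤ) ∣ F ((r + h : ℕ) : ℤ))).card ≤
              ((range p).filter (fun h : ℕ => (p : ℤ) ∣ F ((h + r : ℕ) : ℤ))).card := by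
              apply card_le_card
              intro h hh
              rw [mem_filter, mem_Icc] at hh
              rw [mem_filter, mem_range, Nat.add_comm]
              exact ⟨by omega, hh.2⟩
          _ = rt F p := rt_shift hF hp r
          _ ≤ g := (hF.root p hp).1
    _ = g * rt F p := by
        rw [sum_const, smul_eq_mul, Nat.mul_comm]
        rfl

/-- the number of differences with coincidences, small primes -/
lemma card_cc_small {g : ℕ} {F : ℤ → ℤ} (hF : SysP g F) {p : ℕ} (hp : p.Prime) (D : ℕ) :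
    ((Icc 1 D).filter (fun h : ℕ => cc F h p ≠ 0)).card ≤ g ^ 2 * (D / p + 1) := by
  classical
  have hsub : (Icc 1 D).filter (fun h : ℕ => cc F h p ≠ 0) ⊆
      (Pool.Agent.U497.UT.Kc F 1 p).biUnion (fun c => (range (D / p + 1)).image (fun q => p * q + c)) := by
    intro h hh
    rw [mem_filter, mem_Icc] at hh
    rw [mem_biUnion]
    refine ⟨h % p, ?_, mem_image.2 ⟨h / p, ?_, Nat.div_add_mod h p⟩⟩
    · rw [← Pool.Agent.U497.UT.cf_mod hF hp]
      have h1 : 0 < cc F h p := Nat.pos_of_ne_zero hh.2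
      unfold cc at h1
      rw [card_pos] at h1
      obtain ⟨r, hr⟩ := h1
      rw [mem_filter] at hr
      refine ⟨r, hr.2.1, ?_⟩
      rw [one_mul]
      exact_mod_cast hr.2.2
    · rw [mem_range]
      exact Nat.lt_succ_of_le (Nat.div_le_div_right hh.1.2)
  refine (card_le_card hsub).trans (card_biUnion_le.trans ?_)
  calc ∑ c ∈ Pool.Agent.U497.UT.Kc F 1 p, ((range (D / p + 1)).image (fun q => p * q + c)).card ≤
        ∑ _c ∈ Pool.Agent.U497.UT.Kc F 1 p, (D / p + 1) := by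
        apply sum_le_sum
        intro c _
        refine card_image_le.trans ?_
        rw [card_range]
    _ = (Pool.Agent.U497.UT.Kc F 1 p).card * (D / p + 1) := by rw [sum_const, smul_eq_mul]
    _ ≤ g ^ 2 * (D / p + 1) := Nat.mul_le_mul_right _
        (Pool.Agent.U497.UT.card_Kc hF hp (fun h => hp.one_lt.ne' (Nat.dvd_one.1 h)))

/-- **the average of the singular series** -/
theorem avg (g : ℕ) : ∃ s : ℕ, ∀ (F : ℤ → ℤ) (W z D : ℕ), SysP g F → (∀ p : ℕ, p.Prime → p ≤ s → p ∣ W) →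
    ∑ h ∈ Icc 1 D, Real.exp (∑ p ∈ PS W z, (cc F h p : ℝ) / p) ≤ (1 + 2 * (g : ℝ) ^ 2) * D + g / V F W z := by
  classical
  obtain ⟨K, hK0, hK⟩ := Pool.Agent.H374R2.Cof.tail_bound
  obtain ⟨s, hs⟩ : ∃ s : ℕ, s = ⌈Real.exp ((g + 1) * K)⌉₊ + 2 := ⟨_, rfl⟩
  have hsl : (g + 1) * K ≤ Real.log s := by
    have h1 : Real.exp ((g + 1) * K) ≤ s := by
      rw [hs]
      push_cast
      have := Nat.le_ceil (Real.exp ((g + 1) * K))
      linarith
    rw [Real.le_log_iff_exp_le (lt_of_lt_of_le (Real.exp_pos _) h1)]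
    exact h1
  have hs2 : 2 ≤ s := by omega
  have hls : 0 < Real.log s := Real.log_pos (by exact_mod_cast (by omega : 1 < s))
  refine ⟨s, fun F W z D hF hW => ?_⟩
  obtain ⟨P₁, hP₁⟩ : ∃ P₁ : Finset ℕ, P₁ = (PS W z).filter (fun p => p ≤ D) := ⟨_, rfl⟩
  obtain ⟨P₂, hP₂⟩ : ∃ P₂ : Finset ℕ, P₂ = (PS W z).filter (fun p => ¬ p ≤ D) := ⟨_, rfl⟩
  have hm1 : ∀ p ∈ P₁, p ∈ PS W z ∧ p ≤ D := fun p hp => by rw [hP₁] at hp; exact mem_filter.1 hp
  have hm2 : ∀ p ∈ P₂, p ∈ PS W z ∧ D < p := fun p hp => by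
    rw [hP₂] at hp
    have := mem_filter.1 hp
    exact ⟨this.1, not_le.1 this.2⟩
  have hgp : ∀ p ∈ PS W z, s < p := by
    intro p hp
    by_contra hcon
    exact ps_ndvd p hp (hW p (ps_prime p hp) (by omega))
  set a : ℕ → ℝ := fun h => ∑ p ∈ P₁, (cc F h p : ℝ) / p with ha
  set b : ℕ → ℝ := fun h => ∑ p ∈ P₂, (cc F h p : ℝ) / p with hb
  obtain ⟨A, hA⟩ : ∃ A : ℝ, A = ∑ p ∈ P₁, (rt F p : ℝ) / p := ⟨_, rfl⟩
  obtain ⟨B, hB⟩ : ∃ B : ℝ, B = ∑ p ∈ P₂, (rt F p : ℝ) / p := ⟨_, rfl⟩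
  have hsplit : ∀ h, ∑ p ∈ PS W z, (cc F h p : ℝ) / p = a h + b h := by
    intro h
    rw [ha, hb, hP₁, hP₂]
    exact (sum_filter_add_sum_filter_not _ _ _).symm
  have hAB : A + B = ∑ p ∈ PS W z, (rt F p : ℝ) / p := by
    rw [hA, hB, hP₁, hP₂]
    exact sum_filter_add_sum_filter_not _ _ _
  have haA : ∀ h, a h ≤ A := by
    intro h
    rw [hA]
    apply sum_le_sum
    intro p _
    have : (cc F h p : ℝ) ≤ rt F p := by exact_mod_cast cc_le (g := g) h p
    gcongr
  have hb0 : ∀ h, 0 ≤ b h := fun h => sum_nonneg fun p _ => by positivity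
  have hbB : ∀ h, b h ≤ B := by
    intro h
    rw [hB]
    apply sum_le_sum
    intro p _
    have : (cc F h p : ℝ) ≤ rt F p := by exact_mod_cast cc_le (g := g) h p
    gcongr
  have hB0 : 0 ≤ B := by rw [hB]; exact sum_nonneg fun p _ => by positivity
  have hVpos : 0 < V F W z := V_posP hF W z
  -- the bound for `exp (A + B)`
  have hexp : Real.exp (A + B) ≤ 1 / V F W z := by
    rw [le_div_iff₀ hVpos, hAB]
    have h1 : V F W z ≤ Real.exp (-∑ p ∈ PS W z, (rt F p : ℝ) / p) := by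
      rw [← sum_neg_distrib, Real.exp_sum]
      unfold V
      apply prod_le_prod (fun p _ => fac_nonneg p)
      intro p _
      have := Real.add_one_le_exp (-((rt F p : ℝ) / p))
      linarith
    calc Real.exp (∑ p ∈ PS W z, (rt F p : ℝ) / p) * V F W z ≤
          Real.exp (∑ p ∈ PS W z, (rt F p : ℝ) / p) * Real.exp (-∑ p ∈ PS W z, (rt F p : ℝ) / p) :=
          mul_le_mul_of_nonneg_left h1 (Real.exp_pos _).le
      _ = 1 := by rw [← Real.exp_add, add_neg_cancel, Real.exp_zero]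
  -- the large primes
  have hbsum : ∑ h ∈ Icc 1 D, b h ≤ g * B := by
    calc ∑ h ∈ Icc 1 D, b h = ∑ p ∈ P₂, (∑ h ∈ Icc 1 D, (cc F h p : ℝ)) / p := by
          simp only [hb]
          rw [sum_comm]
          apply sum_congr rfl
          intro p _
          rw [sum_div]
      _ ≤ ∑ p ∈ P₂, (g * rt F p : ℝ) / p := by
          apply sum_le_sum
          intro p hp
          have h1 := sum_cc_large hF (ps_prime p (hm2 p hp).1) (hm2 p hp).2
          have h2 : ∑ h ∈ Icc 1 D, (cc F h p : ℝ) ≤ g * rt F p := by exact_mod_cast h1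
          gcongr
      _ = g * B := by
          rw [hB, mul_sum]
          apply sum_congr rfl
          intro p _
          ring
  have hlarge : ∑ h ∈ Icc 1 D, (Real.exp (b h) - 1) ≤ g * (Real.exp B - 1) := by
    rcases hB0.eq_or_lt with h0 | h0
    · have h1 : ∀ h, b h = 0 := fun h => le_antisymm ((hbB h).trans h0.symm.le) (hb0 h)
      rw [sum_eq_zero fun h _ => by rw [h1 h, Real.exp_zero, sub_self], ← h0, Real.exp_zero]
      simp
    · have h1 : B * ∑ h ∈ Icc 1 D, (Real.exp (b h) - 1) ≤ B * (g * (Real.exp B - 1)) := by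
        rw [mul_sum]
        calc ∑ h ∈ Icc 1 D, B * (Real.exp (b h) - 1) ≤ ∑ h ∈ Icc 1 D, b h * (Real.exp B - 1) :=
              sum_le_sum fun h _ => exp_chord (hb0 h) (hbB h)
          _ = (∑ h ∈ Icc 1 D, b h) * (Real.exp B - 1) := by rw [sum_mul]
          _ ≤ (g * B) * (Real.exp B - 1) := by
              apply mul_le_mul_of_nonneg_right hbsum
              have := Real.add_one_le_exp B
              linarith
          _ = _ := by ring
      exact le_of_mul_le_mul_left h1 h0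
  -- the small primes
  set w : ℕ → ℝ := fun p => (g + 1) / (p * Real.log p) with hw
  have hwpos : ∀ p ∈ P₁, 0 < w p ∧ 0 < Real.log p ∧ (0 : ℝ) < p := by
    intro p hp
    have hp1 := hgp p (hm1 p hp).1
    have h1 : (1 : ℝ) < p := by exact_mod_cast (by omega : 1 < p)
    have h2 := Real.log_pos h1
    have h3 : (0 : ℝ) < p := by linarith
    refine ⟨?_, h2, h3⟩
    rw [hw]
    positivity
  have hwsum : ∑ p ∈ P₁, w p ≤ 1 := by
    have h1 := hK (s + z) s z (by omega) hs2
    calc ∑ p ∈ P₁, w p = (g + 1) * ∑ p ∈ P₁, (1 : ℝ) / (p * Real.log p) := by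
          rw [mul_sum]
          apply sum_congr rfl
          intro p _
          rw [hw, mul_one_div]
      _ ≤ (g + 1) * ∑ p ∈ (Ioc s z).filter Nat.Prime, (1 : ℝ) / (p * Real.log p) := by
          apply mul_le_mul_of_nonneg_left _ (by positivity)
          apply sum_le_sum_of_subset_of_nonneg
          · intro p hp
            have h2 := (hm1 p hp).1
            rw [mem_filter, mem_Ioc]
            exact ⟨⟨hgp p h2, ps_le p h2⟩, ps_prime p h2⟩
          · intro p hp _
            rw [mem_filter, mem_Ioc] at hp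
            have : 0 ≤ Real.log (p : ℝ) := Real.log_natCast_nonneg p
            positivity
      _ ≤ (g + 1) * (K / Real.log s) := by gcongr
      _ ≤ 1 := by
          rw [mul_div_assoc', div_le_one hls]
          exact hsl
  have hsmall1 : ∀ p ∈ P₁, ∑ h ∈ Icc 1 D, Real.exp ((cc F h p : ℝ) / p / w p) ≤ (1 + 2 * (g : ℝ) ^ 2) * D := by
    intro p hp
    obtain ⟨hw0, hl0, hp0⟩ := hwpos p hp
    have hpp := ps_prime p (hm1 p hp).1
    have hterm : ∀ h, Real.exp ((cc F h p : ℝ) / p / w p) ≤ 1 + (if cc F h p ≠ 0 then (p : ℝ) else 0) := by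
      intro h
      by_cases hc : cc F h p = 0
      · rw [hc]
        simp
      · rw [if_pos hc]
        have h1 : (cc F h p : ℝ) / p / w p ≤ Real.log p := by
          have h2 : (cc F h p : ℝ) ≤ g := by
            have h3 := (cc_le (g := g) h p).trans (hF.root p hpp).1
            exact_mod_cast h3
          have h4 : (cc F h p : ℝ) / p / w p = cc F h p * Real.log p / (g + 1) := by
            rw [hw]
            field_simp
          rw [h4, div_le_iff₀ (by positivity)]
          nlinarith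
        have h2 : Real.exp ((cc F h p : ℝ) / p / w p) ≤ p := by
          calc _ ≤ Real.exp (Real.log p) := Real.exp_le_exp.2 h1
            _ = p := Real.exp_log hp0
        linarith
    calc ∑ h ∈ Icc 1 D, Real.exp ((cc F h p : ℝ) / p / w p) ≤
          ∑ h ∈ Icc 1 D, (1 + (if cc F h p ≠ 0 then (p : ℝ) else 0)) := sum_le_sum fun h _ => hterm h
      _ = D + ((Icc 1 D).filter (fun h : ℕ => cc F h p ≠ 0)).card * p := by
          rw [sum_add_distrib, sum_const, Nat.card_Icc, Nat.add_sub_cancel, nsmul_eq_mul, mul_one, ← sum_filter,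
            sum_const, nsmul_eq_mul]
      _ ≤ D + (g ^ 2 * ((D : ℝ) / p + 1)) * p := by
          have h1 := card_cc_small hF hpp D
          have h2 : (((Icc 1 D).filter (fun h : ℕ => cc F h p ≠ 0)).card : ℝ) ≤ (g : ℝ) ^ 2 * (((D / p : ℕ) : ℝ) + 1) := by
            exact_mod_cast h1
          have h3 : ((D / p : ℕ) : ℝ) ≤ (D : ℝ) / p := Nat.cast_div_le
          gcongr
          exact h2.trans (by gcongr)
      _ ≤ (1 + 2 * (g : ℝ) ^ 2) * D := by
          have h1 : (p : ℝ) ≤ D := by exact_mod_cast (hm1 p hp).2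
          have h2 : ((g : ℝ) ^ 2 * ((D : ℝ) / p + 1)) * p = (g : ℝ) ^ 2 * (D + p) := by
            field_simp
          rw [h2]
          nlinarith [sq_nonneg (g : ℝ)]
  have hsmall : ∑ h ∈ Icc 1 D, Real.exp (a h) ≤ (1 + 2 * (g : ℝ) ^ 2) * D := by
    have h1 : ∀ h, Real.exp (a h) ≤ ∑ p ∈ P₁, w p * Real.exp ((cc F h p : ℝ) / p / w p) + (1 - ∑ p ∈ P₁, w p) := by
      intro h
      have h2 := jens P₁ w (fun p => (cc F h p : ℝ) / p / w p) (fun p hp => (hwpos p hp).1.le) hwsum
      refine le_trans (le_of_eq ?_) h2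
      congr 1
      apply sum_congr rfl
      intro p hp
      have := (hwpos p hp).1.ne'
      field_simp
    calc ∑ h ∈ Icc 1 D, Real.exp (a h) ≤
          ∑ h ∈ Icc 1 D, (∑ p ∈ P₁, w p * Real.exp ((cc F h p : ℝ) / p / w p) + (1 - ∑ p ∈ P₁, w p)) :=
          sum_le_sum fun h _ => h1 h
      _ = ∑ p ∈ P₁, w p * ∑ h ∈ Icc 1 D, Real.exp ((cc F h p : ℝ) / p / w p) + D * (1 - ∑ p ∈ P₁, w p) := by
          rw [sum_add_distrib, sum_comm, sum_const, Nat.card_Icc, Nat.add_sub_cancel, nsmul_eq_mul]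
          congr 1
          apply sum_congr rfl
          intro p _
          rw [mul_sum]
      _ ≤ ∑ p ∈ P₁, w p * ((1 + 2 * (g : ℝ) ^ 2) * D) + D * (1 - ∑ p ∈ P₁, w p) := by
          have : ∑ p ∈ P₁, w p * ∑ h ∈ Icc 1 D, Real.exp ((cc F h p : ℝ) / p / w p) ≤
              ∑ p ∈ P₁, w p * ((1 + 2 * (g : ℝ) ^ 2) * D) :=
            sum_le_sum fun p hp => mul_le_mul_of_nonneg_left (hsmall1 p hp) (hwpos p hp).1.le
          linarith
      _ ≤ (1 + 2 * (g : ℝ) ^ 2) * D := by
          rw [← sum_mul]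
          have h3 : 0 ≤ (D : ℝ) * (2 * (g : ℝ) ^ 2) := by positivity
          nlinarith
  -- the end
  have hfin : ∀ h, Real.exp (a h + b h) ≤ Real.exp (a h) + Real.exp A * (Real.exp (b h) - 1) := by
    intro h
    rw [Real.exp_add]
    have h1 : Real.exp (a h) ≤ Real.exp A := Real.exp_le_exp.2 (haA h)
    have h2 : 0 ≤ Real.exp (b h) - 1 := by
      have := Real.add_one_le_exp (b h)
      linarith [hb0 h]
    nlinarith
  calc ∑ h ∈ Icc 1 D, Real.exp (∑ p ∈ PS W z, (cc F h p : ℝ) / p) = ∑ h ∈ Icc 1 D, Real.exp (a h + b h) :=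
        sum_congr rfl fun h _ => by rw [hsplit h]
    _ ≤ ∑ h ∈ Icc 1 D, (Real.exp (a h) + Real.exp A * (Real.exp (b h) - 1)) := sum_le_sum fun h _ => hfin h
    _ = ∑ h ∈ Icc 1 D, Real.exp (a h) + Real.exp A * ∑ h ∈ Icc 1 D, (Real.exp (b h) - 1) := by
        rw [sum_add_distrib, mul_sum]
    _ ≤ (1 + 2 * (g : ℝ) ^ 2) * D + Real.exp A * (g * (Real.exp B - 1)) := by gcongr
    _ ≤ (1 + 2 * (g : ℝ) ^ 2) * D + g / V F W z := by
        have h1 : Real.exp A * (g * (Real.exp B - 1)) ≤ g * Real.exp (A + B) := by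
          rw [Real.exp_add]
          have h2 : 0 ≤ (g : ℝ) * Real.exp A := by positivity
          nlinarith
        have h2 : (g : ℝ) * Real.exp (A + B) ≤ g * (1 / V F W z) := by gcongr
        have h3 : (g : ℝ) * (1 / V F W z) = g / V F W z := by ring
        linarith

end Pool.Agent.U497.AW
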