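import Pool.Agent.U497.AW.Avg

/-!
# The average of the singular series for pairs in residue classes, with the exact constant (helper497)
-/

set_option autoImplicit false

open Finset

namespace Pool.Agent.U497.AW

open Pool.Agent.TH423.SH (PS)
open Pool.Agent.Y677.RSZ (rt rhoT V rs fac_nonneg fac_le exJ ev_log V_le_one)
open Pool.Agent.K3h89.SZ (SysP CF V_lowerP V_posP card_shiftP perP_mod)

/-- the total number of coincidences, large primes -/
lemma sum_cc_large' {g : ℕ} {F : ℤ → ℤ} (hF : SysP g F) {p : ℕ} (hp : p.Prime) {L W : ℕ} (hL : L < p * W) :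
    ∑ h ∈ Icc 1 L, cc F h p ≤ W * (g * rt F p) := by
  classical
  have h1 : ∀ h : ℕ, cc F h p = ∑ r ∈ (range p).filter (fun r : ℕ => (p : ℤ) ∣ F r),
      if (p : ℤ) ∣ F ((r + h : ℕ) : ℤ) then 1 else 0 := by
    intro h
    unfold cc
    rw [← card_filter, filter_filter]
  calc ∑ h ∈ Icc 1 L, cc F h p = ∑ h ∈ Icc 1 L, ∑ r ∈ (range p).filter (fun r : ℕ => (p : ℤ) ∣ F r),
        (if (p : ℤ) ∣ F ((r + h : ℕ) : ℤ) then 1 else 0) := sum_congr rfl fun h _ => h1 h
    _ = ∑ r ∈ (range p).filter (fun r : ℕ => (p : ℤ) ∣ F r), ∑ h ∈ Icc 1 L,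
        (if (p : ℤ) ∣ F ((r + h : ℕ) : ℤ) then 1 else 0) := sum_comm
    _ ≤ ∑ _r ∈ (range p).filter (fun r : ℕ => (p : ℤ) ∣ F r), g * W := by
        apply sum_le_sum
        intro r _
        rw [← card_filter]
        calc ((Icc 1 L).filter (fun h : ℕ => (p : ℤ) ∣ F ((r + h : ℕ) : ℤ))).card ≤
              (((range p).filter (fun h : ℕ => (p : ℤ) ∣ F ((h + r : ℕ) : ℤ))) ×ˢ (range W)).card := by
              apply card_le_card_of_injOn (fun h => (h % p, h / p))
              · intro h hh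
                rw [mem_coe, mem_filter, mem_Icc] at hh
                rw [mem_coe, mem_product, mem_filter, mem_range, mem_range]
                refine ⟨⟨Nat.mod_lt _ hp.pos, ?_⟩, ?_⟩
                · have h2 := hh.2
                  refine (perP_mod (hF.per p hp) (h % p + r) (r + h) ?_).2 h2
                  rw [Nat.add_comm r h]
                  exact (Nat.mod_modEq h p).add_right r
                · exact (Nat.div_lt_iff_lt_mul hp.pos).2 (by rw [Nat.mul_comm W p]; omega)
              · intro h _ h' _ he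
                rw [Prod.mk.injEq] at he
                rw [← Nat.div_add_mod h p, ← Nat.div_add_mod h' p, he.1, he.2]
          _ = rt F p * W := by rw [card_product, rt_shift hF hp r, card_range]
          _ ≤ g * W := Nat.mul_le_mul_right _ (hF.root p hp).1
    _ = W * (g * rt F p) := by
        rw [sum_const, smul_eq_mul]
        unfold rt
        ring

/-- the number of the differences of a class with coincidences, small primes -/
lemma card_cc_small' {g : ℕ} {F : ℤ → ℤ} (hF : SysP g F) {p : ℕ} (hp : p.Prime) (L W r : ℕ) (hW : ¬ p ∣ W) :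
    ((Icc 1 L).filter (fun h : ℕ => h % W = r ∧ cc F h p ≠ 0)).card ≤ g ^ 2 * (L / (W * p) + 1) := by
  classical
  have hsub : (Icc 1 L).filter (fun h : ℕ => h % W = r ∧ cc F h p ≠ 0) ⊆
      (Pool.Agent.U497.UT.Kc F 1 p).biUnion (fun c => (Icc 1 L).filter (fun h : ℕ => h % W = r ∧ h % p = c)) := by
    intro h hh
    rw [mem_filter] at hh
    rw [mem_biUnion]
    refine ⟨h % p, ?_, mem_filter.2 ⟨hh.1, hh.2.1, rfl⟩⟩
    rw [← Pool.Agent.U497.UT.cf_mod hF hp]
    have h1 : 0 < cc F h p := Nat.pos_of_ne_zero hh.2.2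
    unfold cc at h1
    rw [card_pos] at h1
    obtain ⟨r, hr⟩ := h1
    rw [mem_filter] at hr
    refine ⟨r, hr.2.1, ?_⟩
    rw [one_mul]
    exact_mod_cast hr.2.2
  refine (card_le_card hsub).trans (card_biUnion_le.trans ?_)
  calc ∑ c ∈ Pool.Agent.U497.UT.Kc F 1 p, ((Icc 1 L).filter (fun h : ℕ => h % W = r ∧ h % p = c)).card ≤
        ∑ _c ∈ Pool.Agent.U497.UT.Kc F 1 p, (L / (W * p) + 1) := by
        apply sum_le_sum
        intro c _
        rw [← card_range (L / (W * p) + 1)]
        apply card_le_card_of_injOn (fun h => h / (W * p))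
        · intro h hh
          rw [mem_coe, mem_filter, mem_Icc] at hh
          rw [mem_coe, mem_range]
          exact Nat.lt_succ_of_le (Nat.div_le_div_right hh.1.2)
        · intro h hh h' hh' he
          rw [mem_coe, mem_filter] at hh hh'
          have h1 : h ≡ h' [MOD W] := by
            unfold Nat.ModEq
            rw [hh.2.1, hh'.2.1]
          have h2 : h ≡ h' [MOD p] := by
            unfold Nat.ModEq
            rw [hh.2.2, hh'.2.2]
          have h3 : h ≡ h' [MOD W * p] :=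
            (Nat.modEq_and_modEq_iff_modEq_mul ((Nat.Prime.coprime_iff_not_dvd hp).2 hW).symm).1 ⟨h1, h2⟩
          have he2 : h / (W * p) = h' / (W * p) := he
          rw [← Nat.div_add_mod h (W * p), ← Nat.div_add_mod h' (W * p), he2, h3]
    _ = (Pool.Agent.U497.UT.Kc F 1 p).card * (L / (W * p) + 1) := by rw [sum_const, smul_eq_mul]
    _ ≤ g ^ 2 * (L / (W * p) + 1) := Nat.mul_le_mul_right _
        (Pool.Agent.U497.UT.card_Kc hF hp (fun h => hp.one_lt.ne' (Nat.dvd_one.1 h)))

/-- the number of the elements of a class -/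
lemma card_cls {L W r : ℕ} (hW : 0 < W) : (((Icc 1 L).filter (fun h : ℕ => h % W = r)).card : ℝ) ≤ (L : ℝ) / W + 1 := by
  have h1 : ((Icc 1 L).filter (fun h : ℕ => h % W = r)).card ≤ L / W + 1 := by
    rw [← card_range (L / W + 1)]
    apply card_le_card_of_injOn (fun h => h / W)
    · intro h hh
      rw [mem_coe, mem_filter, mem_Icc] at hh
      rw [mem_coe, mem_range]
      exact Nat.lt_succ_of_le (Nat.div_le_div_right hh.1.2)
    · intro h hh h' hh' he
      rw [mem_coe, mem_filter] at hh hh'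
      have he2 : h / W = h' / W := he
      rw [← Nat.div_add_mod h W, ← Nat.div_add_mod h' W, he2, hh.2, hh'.2]
  have h2 : (((L / W : ℕ) : ℝ)) ≤ (L : ℝ) / W := Nat.cast_div_le
  have h3 : (((Icc 1 L).filter (fun h : ℕ => h % W = r)).card : ℝ) ≤ ((L / W : ℕ) : ℝ) + 1 := by exact_mod_cast h1
  linarith

/-- **the average of the singular series in residue classes** -/
theorem avgc (g : ℕ) (η : ℝ) (hη : 0 < η) : ∃ s : ℕ, ∀ (F : ℤ → ℤ) (W z L : ℕ) (R : Finset ℕ), SysP g F → 0 < W →
    (∀ p : ℕ, p.Prime → p ≤ s → p ∣ W) →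
    ∑ h ∈ (Icc 1 L).filter (fun h : ℕ => h % W ∈ R), Real.exp (∑ p ∈ PS W z, (cc F h p : ℝ) / p) ≤
      (1 + η) * (R.card * ((L : ℝ) / W + 1)) + W * g / V F W z := by
  classical
  obtain ⟨K, hK0, hK⟩ := Pool.Agent.H374R2.Cof.tail_bound
  obtain ⟨θ, hθ⟩ : ∃ θ : ℝ, θ = min 1 (η / (2 * (g : ℝ) ^ 2 + 1)) := ⟨_, rfl⟩
  have hθ0 : 0 < θ := by rw [hθ]; exact lt_min one_pos (by positivity)
  have hθ1 : θ ≤ 1 := by rw [hθ]; exact min_le_left _ _
  have hθ2 : 2 * (g : ℝ) ^ 2 * θ ≤ η := by
    have h1 : θ ≤ η / (2 * (g : ℝ) ^ 2 + 1) := by rw [hθ]; exact min_le_right _ _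
    rw [le_div_iff₀ (by positivity)] at h1
    nlinarith
  obtain ⟨s, hs⟩ : ∃ s : ℕ, s = ⌈Real.exp ((g + 1) * K / θ)⌉₊ + 2 := ⟨_, rfl⟩
  have hsl : (g + 1) * K / θ ≤ Real.log s := by
    have h1 : Real.exp ((g + 1) * K / θ) ≤ s := by
      rw [hs]
      push_cast
      have := Nat.le_ceil (Real.exp ((g + 1) * K / θ))
      linarith
    rw [Real.le_log_iff_exp_le (lt_of_lt_of_le (Real.exp_pos _) h1)]
    exact h1
  have hs2 : 2 ≤ s := by omega
  have hls : 0 < Real.log s := Real.log_pos (by exact_mod_cast (by omega : 1 < s))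
  refine ⟨s, fun F W z L R hF hW0 hW => ?_⟩
  have hWr : (0 : ℝ) < W := by exact_mod_cast hW0
  obtain ⟨P₁, hP₁⟩ : ∃ P₁ : Finset ℕ, P₁ = (PS W z).filter (fun p => p * W ≤ L) := ⟨_, rfl⟩
  obtain ⟨P₂, hP₂⟩ : ∃ P₂ : Finset ℕ, P₂ = (PS W z).filter (fun p => ¬ p * W ≤ L) := ⟨_, rfl⟩
  have hm1 : ∀ p ∈ P₁, p ∈ PS W z ∧ p * W ≤ L := fun p hp => by rw [hP₁] at hp; exact mem_filter.1 hp
  have hm2 : ∀ p ∈ P₂, p ∈ PS W z ∧ L < p * W := fun p hp => by
    rw [hP₂] at hp
    have := mem_filter.1 hp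
    exact ⟨this.1, not_le.1 this.2⟩
  have hgp : ∀ p ∈ PS W z, s < p := by
    intro p hp
    by_contra hcon
    exact ps_ndvd p hp (hW p (ps_prime p hp) (by omega))
  set a : ℕ → ℝ := fun h => ∑ p ∈ P₁, (cc F h p : ℝ) / p with ha
  set b : ℕ → ℝ := fun h => ∑ p ∈ P₂, (cc F h p : ℝ) / p with hb
  obtain ⟨A, hA⟩ : ∃ A : ℝ, A = ∑ p ∈ P₁, (rt F p : ℝ) / p := ⟨_, rfl⟩
  obtain ⟨B, hB⟩ : ∃ B : ℝ, B = ∑ p ∈ P₂, (rt F p : ℝ) / p := ⟨_, rfl⟩
  have hsplit : ∀ h, ∑ p ∈ PS W z, (cc F h p : ℝ) / p = a h + b h := by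
    intro h
    rw [ha, hb, hP₁, hP₂]
    exact (sum_filter_add_sum_filter_not _ _ _).symm
  have hAB : A + B = ∑ p ∈ PS W z, (rt F p : ℝ) / p := by
    rw [hA, hB, hP₁, hP₂]
    exact sum_filter_add_sum_filter_not _ _ _
  have haA : ∀ h, a h ≤ A := by
    intro h
    rw [hA]
    apply sum_le_sum
    intro p _
    have : (cc F h p : ℝ) ≤ rt F p := by exact_mod_cast cc_le (g := g) h p
    gcongr
  have hb0 : ∀ h, 0 ≤ b h := fun h => sum_nonneg fun p _ => by positivity
  have hbB : ∀ h, b h ≤ B := by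
    intro h
    rw [hB]
    apply sum_le_sum
    intro p _
    have : (cc F h p : ℝ) ≤ rt F p := by exact_mod_cast cc_le (g := g) h p
    gcongr
  have hB0 : 0 ≤ B := by rw [hB]; exact sum_nonneg fun p _ => by positivity
  have hVpos : 0 < V F W z := V_posP hF W z
  have hexp : Real.exp (A + B) ≤ 1 / V F W z := by
    rw [le_div_iff₀ hVpos, hAB]
    have h1 : V F W z ≤ Real.exp (-∑ p ∈ PS W z, (rt F p : ℝ) / p) := by
      rw [← sum_neg_distrib, Real.exp_sum]
      unfold V
      apply prod_le_prod (fun p _ => fac_nonneg p)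
      intro p _
      have := Real.add_one_le_exp (-((rt F p : ℝ) / p))
      linarith
    calc Real.exp (∑ p ∈ PS W z, (rt F p : ℝ) / p) * V F W z ≤
          Real.exp (∑ p ∈ PS W z, (rt F p : ℝ) / p) * Real.exp (-∑ p ∈ PS W z, (rt F p : ℝ) / p) :=
          mul_le_mul_of_nonneg_left h1 (Real.exp_pos _).le
      _ = 1 := by rw [← Real.exp_add, add_neg_cancel, Real.exp_zero]
  have hbsum : ∑ h ∈ Icc 1 L, b h ≤ W * g * B := by
    calc ∑ h ∈ Icc 1 L, b h = ∑ p ∈ P₂, (∑ h ∈ Icc 1 L, (cc F h p : ℝ)) / p := by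
          simp only [hb]
          rw [sum_comm]
          apply sum_congr rfl
          intro p _
          rw [sum_div]
      _ ≤ ∑ p ∈ P₂, (W * (g * rt F p) : ℝ) / p := by
          apply sum_le_sum
          intro p hp
          have h1 := sum_cc_large' hF (ps_prime p (hm2 p hp).1) (hm2 p hp).2
          have h2 : ∑ h ∈ Icc 1 L, (cc F h p : ℝ) ≤ W * (g * rt F p) := by exact_mod_cast h1
          gcongr
      _ = W * g * B := by
          rw [hB, mul_sum]
          apply sum_congr rfl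
          intro p _
          ring
  have hlarge : ∑ h ∈ Icc 1 L, (Real.exp (b h) - 1) ≤ W * g * (Real.exp B - 1) := by
    rcases hB0.eq_or_lt with h0 | h0
    · have h1 : ∀ h, b h = 0 := fun h => le_antisymm ((hbB h).trans h0.symm.le) (hb0 h)
      rw [sum_eq_zero fun h _ => by rw [h1 h, Real.exp_zero, sub_self], ← h0, Real.exp_zero]
      simp
    · have h1 : B * ∑ h ∈ Icc 1 L, (Real.exp (b h) - 1) ≤ B * (W * g * (Real.exp B - 1)) := by
        rw [mul_sum]
        calc ∑ h ∈ Icc 1 L, B * (Real.exp (b h) - 1) ≤ ∑ h ∈ Icc 1 L, b h * (Real.exp B - 1) :=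
              sum_le_sum fun h _ => exp_chord (hb0 h) (hbB h)
          _ = (∑ h ∈ Icc 1 L, b h) * (Real.exp B - 1) := by rw [sum_mul]
          _ ≤ (W * g * B) * (Real.exp B - 1) := by
              apply mul_le_mul_of_nonneg_right hbsum
              have := Real.add_one_le_exp B
              linarith
          _ = _ := by ring
      exact le_of_mul_le_mul_left h1 h0
  -- the small primes
  set w : ℕ → ℝ := fun p => (g + 1) / (p * Real.log p) with hw
  have hwpos : ∀ p ∈ P₁, 0 < w p ∧ 0 < Real.log p ∧ (0 : ℝ) < p := by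
    intro p hp
    have hp1 := hgp p (hm1 p hp).1
    have h1 : (1 : ℝ) < p := by exact_mod_cast (by omega : 1 < p)
    have h2 := Real.log_pos h1
    have h3 : (0 : ℝ) < p := by linarith
    refine ⟨?_, h2, h3⟩
    rw [hw]
    positivity
  have hwsum : ∑ p ∈ P₁, w p ≤ θ := by
    have h1 := hK (s + z) s z (by omega) hs2
    calc ∑ p ∈ P₁, w p = (g + 1) * ∑ p ∈ P₁, (1 : ℝ) / (p * Real.log p) := by
          rw [mul_sum]
          apply sum_congr rfl
          intro p _
          rw [hw, mul_one_div]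
      _ ≤ (g + 1) * ∑ p ∈ (Ioc s z).filter Nat.Prime, (1 : ℝ) / (p * Real.log p) := by
          apply mul_le_mul_of_nonneg_left _ (by positivity)
          apply sum_le_sum_of_subset_of_nonneg
          · intro p hp
            have h2 := (hm1 p hp).1
            rw [mem_filter, mem_Ioc]
            exact ⟨⟨hgp p h2, ps_le p h2⟩, ps_prime p h2⟩
          · intro p hp _
            rw [mem_filter, mem_Ioc] at hp
            have : 0 ≤ Real.log (p : ℝ) := Real.log_natCast_nonneg p
            positivity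
      _ ≤ (g + 1) * (K / Real.log s) := by gcongr
      _ ≤ θ := by
          rw [mul_div_assoc', div_le_iff₀ hls]
          rw [div_le_iff₀ hθ0] at hsl
          linarith
  have hwsum0 : 0 ≤ ∑ p ∈ P₁, w p := sum_nonneg fun p hp => (hwpos p hp).1.le
  have hsmall : ∀ r, ∑ h ∈ (Icc 1 L).filter (fun h : ℕ => h % W = r), Real.exp (a h) ≤ (1 + η) * ((L : ℝ) / W + 1) := by
    intro r
    obtain ⟨C, hC⟩ : ∃ C : Finset ℕ, C = (Icc 1 L).filter (fun h : ℕ => h % W = r) := ⟨_, rfl⟩
    have hCc : (C.card : ℝ) ≤ (L : ℝ) / W + 1 := by rw [hC]; exact card_cls hW0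
    rw [← hC]
    have hsmall1 : ∀ p ∈ P₁, ∑ h ∈ C, Real.exp ((cc F h p : ℝ) / p / w p) ≤ C.card + 2 * (g : ℝ) ^ 2 * (L / W) := by
      intro p hp
      obtain ⟨hw0, hl0, hp0⟩ := hwpos p hp
      have hpp := ps_prime p (hm1 p hp).1
      have hterm : ∀ h, Real.exp ((cc F h p : ℝ) / p / w p) ≤ 1 + (if cc F h p ≠ 0 then (p : ℝ) else 0) := by
        intro h
        by_cases hc : cc F h p = 0
        · rw [hc]
          simp
        · rw [if_pos hc]
          have h1 : (cc F h p : ℝ) / p / w p ≤ Real.log p := by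
            have h2 : (cc F h p : ℝ) ≤ g := by
              have h3 := (cc_le (g := g) h p).trans (hF.root p hpp).1
              exact_mod_cast h3
            have h4 : (cc F h p : ℝ) / p / w p = cc F h p * Real.log p / (g + 1) := by
              rw [hw]
              field_simp
            rw [h4, div_le_iff₀ (by positivity)]
            nlinarith
          have h2 : Real.exp ((cc F h p : ℝ) / p / w p) ≤ p := by
            calc _ ≤ Real.exp (Real.log p) := Real.exp_le_exp.2 h1
              _ = p := Real.exp_log hp0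
          linarith
      have hcnt : ((C.filter (fun h : ℕ => cc F h p ≠ 0)).card : ℝ) * p ≤ 2 * (g : ℝ) ^ 2 * (L / W) := by
        have h1 := card_cc_small' hF hpp L W r (ps_ndvd p (hm1 p hp).1)
        have h2 : C.filter (fun h : ℕ => cc F h p ≠ 0) = (Icc 1 L).filter (fun h : ℕ => h % W = r ∧ cc F h p ≠ 0) := by
          rw [hC, filter_filter]
        rw [h2]
        have h3 : (((Icc 1 L).filter (fun h : ℕ => h % W = r ∧ cc F h p ≠ 0)).card : ℝ) ≤
            (g : ℝ) ^ 2 * (((L / (W * p) : ℕ) : ℝ) + 1) := by exact_mod_cast h1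
        have h4 : ((L / (W * p) : ℕ) : ℝ) ≤ (L : ℝ) / ((W * p : ℕ) : ℝ) := Nat.cast_div_le
        have h5 : (1 : ℝ) ≤ (L : ℝ) / ((W * p : ℕ) : ℝ) := by
          rw [le_div_iff₀ (by push_cast; positivity), one_mul]
          have := (hm1 p hp).2
          rw [Nat.mul_comm] at this
          exact_mod_cast this
        calc (((Icc 1 L).filter (fun h : ℕ => h % W = r ∧ cc F h p ≠ 0)).card : ℝ) * p ≤
              ((g : ℝ) ^ 2 * (2 * ((L : ℝ) / ((W * p : ℕ) : ℝ)))) * p := by
              gcongr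
              refine h3.trans ?_
              gcongr
              linarith
          _ = 2 * (g : ℝ) ^ 2 * (L / W) := by
              push_cast
              field_simp
      calc ∑ h ∈ C, Real.exp ((cc F h p : ℝ) / p / w p) ≤
            ∑ h ∈ C, (1 + (if cc F h p ≠ 0 then (p : ℝ) else 0)) := sum_le_sum fun h _ => hterm h
        _ = C.card + (C.filter (fun h : ℕ => cc F h p ≠ 0)).card * p := by
            rw [sum_add_distrib, sum_const, nsmul_eq_mul, mul_one, ← sum_filter, sum_const, nsmul_eq_mul]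
        _ ≤ _ := by linarith
    have h1 : ∀ h, Real.exp (a h) ≤ ∑ p ∈ P₁, w p * Real.exp ((cc F h p : ℝ) / p / w p) + (1 - ∑ p ∈ P₁, w p) := by
      intro h
      have h2 := jens P₁ w (fun p => (cc F h p : ℝ) / p / w p) (fun p hp => (hwpos p hp).1.le) (hwsum.trans hθ1)
      refine le_trans (le_of_eq ?_) h2
      congr 1
      apply sum_congr rfl
      intro p hp
      have := (hwpos p hp).1.ne'
      field_simp
    calc ∑ h ∈ C, Real.exp (a h) ≤
          ∑ h ∈ C, (∑ p ∈ P₁, w p * Real.exp ((cc F h p : ℝ) / p / w p) + (1 - ∑ p ∈ P₁, w p)) :=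
          sum_le_sum fun h _ => h1 h
      _ = ∑ p ∈ P₁, w p * ∑ h ∈ C, Real.exp ((cc F h p : ℝ) / p / w p) + C.card * (1 - ∑ p ∈ P₁, w p) := by
          rw [sum_add_distrib, sum_comm, sum_const, nsmul_eq_mul]
          congr 1
          apply sum_congr rfl
          intro p _
          rw [mul_sum]
      _ ≤ ∑ p ∈ P₁, w p * (C.card + 2 * (g : ℝ) ^ 2 * (L / W)) + C.card * (1 - ∑ p ∈ P₁, w p) := by
          have : ∑ p ∈ P₁, w p * ∑ h ∈ C, Real.exp ((cc F h p : ℝ) / p / w p) ≤
              ∑ p ∈ P₁, w p * (C.card + 2 * (g : ℝ) ^ 2 * (L / W)) :=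
            sum_le_sum fun p hp => mul_le_mul_of_nonneg_left (hsmall1 p hp) (hwpos p hp).1.le
          linarith
      _ = C.card + (2 * (g : ℝ) ^ 2 * (∑ p ∈ P₁, w p)) * (L / W) := by
          rw [← sum_mul]
          ring
      _ ≤ ((L : ℝ) / W + 1) + η * (L / W) := by
          have h2 : 2 * (g : ℝ) ^ 2 * (∑ p ∈ P₁, w p) ≤ η := by
            refine le_trans ?_ hθ2
            gcongr
          gcongr
      _ ≤ (1 + η) * ((L : ℝ) / W + 1) := by
          have h3 : 0 ≤ (L : ℝ) / W := by positivity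
          nlinarith
  -- the end
  have hfin : ∀ h, Real.exp (a h + b h) ≤ Real.exp (a h) + Real.exp A * (Real.exp (b h) - 1) := by
    intro h
    rw [Real.exp_add]
    have h1 : Real.exp (a h) ≤ Real.exp A := Real.exp_le_exp.2 (haA h)
    have h2 : 0 ≤ Real.exp (b h) - 1 := by
      have := Real.add_one_le_exp (b h)
      linarith [hb0 h]
    nlinarith
  have hpart : ∑ h ∈ (Icc 1 L).filter (fun h : ℕ => h % W ∈ R), Real.exp (a h) ≤ (1 + η) * (R.card * ((L : ℝ) / W + 1)) := by
    calc ∑ h ∈ (Icc 1 L).filter (fun h : ℕ => h % W ∈ R), Real.exp (a h) =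
          ∑ r ∈ R, ∑ h ∈ (Icc 1 L).filter (fun h : ℕ => h % W = r), Real.exp (a h) := by
          have h1 : (Icc 1 L).filter (fun h : ℕ => h % W ∈ R) =
              R.biUnion (fun r => (Icc 1 L).filter (fun h : ℕ => h % W = r)) := by
            ext h
            rw [mem_filter, mem_biUnion]
            constructor
            · rintro ⟨h2, h3⟩
              exact ⟨h % W, h3, mem_filter.2 ⟨h2, rfl⟩⟩
            · rintro ⟨r, h2, h3⟩
              rw [mem_filter] at h3
              exact ⟨h3.1, by rw [h3.2]; exact h2⟩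
          rw [h1, sum_biUnion]
          intro r _ r' _ hrr
          rw [Function.onFun, disjoint_left]
          intro h hh hh'
          rw [mem_filter] at hh hh'
          exact hrr (hh.2.symm.trans hh'.2)
      _ ≤ ∑ _r ∈ R, (1 + η) * ((L : ℝ) / W + 1) := sum_le_sum fun r _ => hsmall r
      _ = _ := by
          rw [sum_const, nsmul_eq_mul]
          ring
  calc ∑ h ∈ (Icc 1 L).filter (fun h : ℕ => h % W ∈ R), Real.exp (∑ p ∈ PS W z, (cc F h p : ℝ) / p) =
        ∑ h ∈ (Icc 1 L).filter (fun h : ℕ => h % W ∈ R), Real.exp (a h + b h) :=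
        sum_congr rfl fun h _ => by rw [hsplit h]
    _ ≤ ∑ h ∈ (Icc 1 L).filter (fun h : ℕ => h % W ∈ R), (Real.exp (a h) + Real.exp A * (Real.exp (b h) - 1)) :=
        sum_le_sum fun h _ => hfin h
    _ = ∑ h ∈ (Icc 1 L).filter (fun h : ℕ => h % W ∈ R), Real.exp (a h) +
          Real.exp A * ∑ h ∈ (Icc 1 L).filter (fun h : ℕ => h % W ∈ R), (Real.exp (b h) - 1) := by
        rw [sum_add_distrib, mul_sum]
    _ ≤ (1 + η) * (R.card * ((L : ℝ) / W + 1)) + Real.exp A * ∑ h ∈ Icc 1 L, (Real.exp (b h) - 1) := by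
        have h1 : ∑ h ∈ (Icc 1 L).filter (fun h : ℕ => h % W ∈ R), (Real.exp (b h) - 1) ≤
            ∑ h ∈ Icc 1 L, (Real.exp (b h) - 1) := by
          apply sum_le_sum_of_subset_of_nonneg (filter_subset _ _)
          intro h _ _
          have := Real.add_one_le_exp (b h)
          linarith [hb0 h]
        have h2 := mul_le_mul_of_nonneg_left h1 (Real.exp_pos A).le
        linarith
    _ ≤ (1 + η) * (R.card * ((L : ℝ) / W + 1)) + Real.exp A * (W * g * (Real.exp B - 1)) := by gcongr
    _ ≤ _ := by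
        have h1 : Real.exp A * (W * g * (Real.exp B - 1)) ≤ W * g * Real.exp (A + B) := by
          rw [Real.exp_add]
          have h2 : 0 ≤ (W : ℝ) * g * Real.exp A := by positivity
          nlinarith
        have h2 : (W : ℝ) * g * Real.exp (A + B) ≤ W * g * (1 / V F W z) := by gcongr
        have h3 : (W : ℝ) * g * (1 / V F W z) = W * g / V F W z := by ring
        linarith

end Pool.Agent.U497.AW
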