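import Pool.Agent.U497.AW.Main

/-!
# Dense subsets of sifted sets in all short intervals, in terms of the number of their elements (helper497)
-/

set_option autoImplicit false

open Finset Filter Topology

namespace Pool.Agent.U497.AW

open Pool.Agent.TH423.SH (PS)
open Pool.Agent.Y677.RSZ (rt V)
open Pool.Agent.K3h89.SZ (SysP CF V_posP)

/-- the upper bound sieve -/
lemma up_bd (g : ℕ) (δ : ℝ) (hδ : 0 < δ) : ∃ C : ℝ, 0 < C ∧ ∃ H₀ : ℕ, ∀ (F : ℤ → ℤ) (Y H : ℕ) (S : Finset ℕ),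
    SysP g F → H₀ ≤ H → S ⊆ Ioc Y (Y + H) →
    (∀ n ∈ S, ∀ p : ℕ, p.Prime → (p : ℝ) ≤ (H : ℝ) ^ δ → ¬ (p : ℤ) ∣ F (n : ℤ)) →
    (S.card : ℝ) ≤ C * (H * V F 1 H) := by
  obtain ⟨W, E, H₁, hW0, hE, hWp, hupp⟩ := upp g 0 δ hδ
  obtain ⟨K, hK1, H₂, hcomp⟩ := V_comp g E W hE hW0
  refine ⟨3 * K, by linarith, max H₁ H₂, fun F Y H S hF hH hS hSr => ?_⟩
  obtain ⟨z, hzδ, hzH, hHz, hup⟩ := hupp H ((le_max_left _ _).trans hH)
  have h1 := hup F Y hF S hS (fun n hn p hp => hSr n hn p (ps_prime p hp) (le_trans (by exact_mod_cast ps_le p hp) hzδ))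
  have h2 := hcomp F z H hF ((le_max_right _ _).trans hH) hzH hHz
  calc (S.card : ℝ) ≤ 3 * (H * V F W z) := h1
    _ ≤ 3 * (H * (K * V F 1 H)) := by gcongr
    _ = _ := by ring

open Classical in
/-- **dense subsets of sifted sets** -/
theorem dense (g : ℕ) (δ C : ℝ) (hδ : 0 < δ) (hC : 0 < C) : ∃ c : ℝ, 0 < c ∧ ∃ H₀ : ℕ,
    ∀ (F : ℤ → ℤ) (Y H : ℕ) (S E : Finset ℕ), SysP g F → H₀ ≤ H → S ⊆ Ioc Y (Y + H) →
    (∀ n ∈ S, n ∉ E → ∀ p : ℕ, p.Prime → (p : ℝ) ≤ (H : ℝ) ^ δ → ¬ (p : ℤ) ∣ F (n : ℤ)) →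
    (E.card : ℝ) ≤ S.card / 2 → H * V F 1 H ≤ C * S.card →
    c * H ≤ (((Ioc Y (Y + H)).filter (fun n : ℕ => ∀ L : ℕ, (H : ℝ) ≤ c * (S.card * L) → L ≤ H →
      c * (S.card * L) / H ≤ ((S.filter (fun x => x ∈ Ioc n (n + L))).card : ℝ))).card : ℝ) := by
  obtain ⟨c₀, hc₀, H₁, h1⟩ := gen g δ (1 / (2 * C)) hδ (by positivity)
  obtain ⟨C₂, hC₂, H₂, h2⟩ := up_bd g δ hδ
  obtain ⟨c, hc⟩ : ∃ c : ℝ, c = min c₀ 1 * min 1 (1 / (2 * C₂)) := ⟨_, rfl⟩
  have hm1 : 0 < min c₀ 1 := lt_min hc₀ one_pos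
  have hm2 : 0 < min 1 (1 / (2 * C₂)) := lt_min one_pos (by positivity)
  have hc0 : 0 < c := by rw [hc]; positivity
  have hcc₀ : c ≤ c₀ := by
    rw [hc]
    calc min c₀ 1 * min 1 (1 / (2 * C₂)) ≤ c₀ * 1 := mul_le_mul (min_le_left _ _) (min_le_left _ _) hm2.le hc₀.le
      _ = c₀ := mul_one _
  have hcc₁ : c ≤ 1 / (2 * C₂) := by
    rw [hc]
    calc min c₀ 1 * min 1 (1 / (2 * C₂)) ≤ 1 * (1 / (2 * C₂)) :=
          mul_le_mul (min_le_right _ _) (min_le_right _ _) hm2.le one_pos.le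
      _ = _ := one_mul _
  have hcc : c ≤ c₀ * (1 / (2 * C₂)) := by
    rw [hc]
    exact mul_le_mul (min_le_left _ _) (min_le_right _ _) hm2.le hc₀.le
  refine ⟨c, hc0, max (max H₁ H₂) 1, fun F Y H S E hF hH hS hSr hE hSc => ?_⟩
  have hH1 : H₁ ≤ H := (le_max_left _ _).trans ((le_max_left _ _).trans hH)
  have hH2 : H₂ ≤ H := (le_max_right _ _).trans ((le_max_left _ _).trans hH)
  have hH3 : 1 ≤ H := (le_max_right _ _).trans hH
  have hHr : (0 : ℝ) < H := by exact_mod_cast hH3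
  obtain ⟨S', hS'⟩ : ∃ S' : Finset ℕ, S' = S \ E := ⟨_, rfl⟩
  have hS'S : S' ⊆ S := by rw [hS']; exact sdiff_subset
  have hS'c : (S.card : ℝ) / 2 ≤ S'.card := by
    have h3 : S.card ≤ S'.card + E.card := by
      rw [hS']
      have h4 := le_card_sdiff E S
      omega
    have h4 : (S.card : ℝ) ≤ S'.card + E.card := by exact_mod_cast h3
    linarith
  have hS'r : ∀ n ∈ S', ∀ p : ℕ, p.Prime → (p : ℝ) ≤ (H : ℝ) ^ δ → ¬ (p : ℤ) ∣ F (n : ℤ) := by
    intro n hn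
    rw [hS', Finset.mem_sdiff] at hn
    exact hSr n hn.1 hn.2
  obtain ⟨v, hv⟩ : ∃ v : ℝ, v = V F 1 H := ⟨_, rfl⟩
  have hv0 : 0 < v := by rw [hv]; exact V_posP hF 1 H
  have h3 := h1 F Y H S' hF hH1 (hS'S.trans hS) hS'r (by
    refine le_trans ?_ hS'c
    calc 1 / (2 * C) * (H * V F 1 H) ≤ 1 / (2 * C) * (C * S.card) := by gcongr
      _ = (S.card : ℝ) / 2 := by field_simp)
  have h4 := h2 F Y H S' hF hH2 (hS'S.trans hS) hS'r
  rw [← hv] at h3 h4
  have h5 : (S.card : ℝ) ≤ 2 * C₂ * (H * v) := by linarith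
  calc c * (H : ℝ) ≤ c₀ * H := by gcongr
    _ ≤ _ := h3
    _ ≤ _ := by
        have h6 : (Ioc Y (Y + H)).filter (fun n : ℕ => ∀ L : ℕ, 1 ≤ v * L → L ≤ H →
            c₀ * (v * L) ≤ ((S'.filter (fun x => x ∈ Ioc n (n + L))).card : ℝ)) ⊆
            (Ioc Y (Y + H)).filter (fun n : ℕ => ∀ L : ℕ, (H : ℝ) ≤ c * (S.card * L) → L ≤ H →
            c * (S.card * L) / H ≤ ((S.filter (fun x => x ∈ Ioc n (n + L))).card : ℝ)) := by
          intro n hn
          rw [mem_filter] at hn ⊢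
          refine ⟨hn.1, fun L hL1 hL2 => ?_⟩
          have hL0 : (0 : ℝ) ≤ L := Nat.cast_nonneg _
          have h7 : (S.card : ℝ) * L / H ≤ 2 * C₂ * (v * L) := by
            rw [div_le_iff₀ hHr]
            calc (S.card : ℝ) * L ≤ (2 * C₂ * (H * v)) * L := by gcongr
              _ = _ := by ring
          have h8 : c * (S.card * L) / H ≤ v * L := by
            calc c * (S.card * L) / H = c * (S.card * L / H) := by ring
              _ ≤ 1 / (2 * C₂) * (2 * C₂ * (v * L)) := by gcongr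
              _ = v * L := by field_simp
          have h9 : 1 ≤ v * L := by
            refine le_trans ?_ h8
            rw [le_div_iff₀ hHr, one_mul]
            exact hL1
          calc c * (S.card * L) / H = c * (S.card * L / H) := by ring
            _ ≤ (c₀ * (1 / (2 * C₂))) * (2 * C₂ * (v * L)) := by gcongr
            _ = c₀ * (v * L) := by field_simp
            _ ≤ ((S'.filter (fun x => x ∈ Ioc n (n + L))).card : ℝ) := hn.2 L h9 hL2
            _ ≤ _ := by exact_mod_cast card_le_card (filter_subset_filter _ hS'S)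
        exact_mod_cast card_le_card h6

end Pool.Agent.U497.AW
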