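import Pool.Agent.U497.AW.Main

/-!
# The fundamental lemma in residue classes, both bounds (helper497)
-/

set_option autoImplicit false

open Finset

namespace Pool.Agent.U497.AW

open Pool.Agent.TH423.SH (PS)
open Pool.Agent.Y677.RSZ (rt rhoT V rs fac_nonneg fac_le exJ ev_log V_le_one V_split)
open Pool.Agent.K3h89.SZ (SysP CF V_lowerP V_posP card_shiftP perP_mod S_C1P pigP)

lemma sysP_mono {g g' : ℕ} {F : ℤ → ℤ} (h : SysP g F) (hg : g ≤ g') : SysP g' F :=
  ⟨h.per, fun p hp => ⟨(h.root p hp).1.trans hg, (h.root p hp).2⟩⟩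

open Classical in
/-- the `n` in the interval, in the class `b` modulo `W`, with `F n` free of the prime factors in `P` -/
noncomputable def Tb (F : ℤ → ℤ) (P : Finset ℕ) (W Y H b : ℕ) : Finset ℕ :=
  (Ioc Y (Y + H)).filter (fun n : ℕ => n % W = b ∧ ∀ p ∈ P, ¬ (p : ℤ) ∣ F (n : ℤ))

/-- **the fundamental lemma** -/
theorem fl (g s : ℕ) (η ε : ℝ) (hη : 0 < η) (hη1 : η ≤ 1) (hε : 0 < ε) : ∃ W E H₀ : ℕ, 0 < W ∧ Squarefree W ∧ 1 ≤ E ∧
    (∀ p : ℕ, p.Prime → p ≤ s → p ∣ W) ∧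
    ∀ H : ℕ, H₀ ≤ H → ∃ z : ℕ, (z : ℝ) ≤ (H : ℝ) ^ ε ∧ z ≤ H ∧ H < z ^ (8 * E) ∧
    ∀ (F : ℤ → ℤ) (Y b : ℕ), SysP g F → b < W →
      (1 - η) * ((H : ℝ) / W * V F W z) ≤ (Tb F (PS W z) W Y H b).card ∧
      ((Tb F (PS W z) W Y H b).card : ℝ) ≤ (1 + η) * ((H : ℝ) / W * V F W z) := by
  classical
  obtain ⟨C, hC1, hC⟩ := Pool.Agent.K3h89.SZ.C1P.c1P
  obtain ⟨b₁, hb₁⟩ := exists_pow_lt_of_lt_one (show (0 : ℝ) < η / 4 by positivity) (show (1 / 2 : ℝ) < 1 by norm_num)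
  obtain ⟨b₀, hb₀⟩ : ∃ b₀ : ℕ, b₀ = C * (g * 1 + 1) + ⌈1 / ε⌉₊ + b₁ := ⟨_, rfl⟩
  have hb₀1 : 1 ≤ b₀ := by
    rw [hb₀]
    have := Nat.mul_pos hC1 (show 0 < g * 1 + 1 by omega)
    omega
  have hb₀η : (1 / 2 : ℝ) ^ b₀ ≤ η / 4 := by
    refine le_trans ?_ hb₁.le
    exact pow_le_pow_of_le_one (by norm_num) (by norm_num) (by rw [hb₀]; exact Nat.le_add_left _ _)
  obtain ⟨E, hE⟩ : ∃ E : ℕ, E = C * b₀ := ⟨_, rfl⟩
  have hE1 : 1 ≤ E := by rw [hE]; exact Nat.mul_pos hC1 hb₀1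
  have hEε : 1 / (4 * (E : ℝ)) ≤ ε := by
    have h1 : 1 / ε ≤ (⌈1 / ε⌉₊ : ℝ) := Nat.le_ceil _
    have h2 : (⌈1 / ε⌉₊ : ℝ) ≤ E := by
      have : ⌈1 / ε⌉₊ ≤ E := by
        rw [hE]
        calc ⌈1 / ε⌉₊ ≤ b₀ := by rw [hb₀]; omega
          _ ≤ C * b₀ := Nat.le_mul_of_pos_left _ hC1
      exact_mod_cast this
    have h3 : (1 : ℝ) ≤ E := by exact_mod_cast hE1
    rw [div_le_iff₀ (by positivity)]
    rw [div_le_iff₀ hε] at h1
    nlinarith
  obtain ⟨W, hW⟩ : ∃ W : ℕ, W = primorial (C * (g * 1 + 1) + (2 * g + 2) + s) := ⟨_, rfl⟩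
  have hWpos : 0 < W := by rw [hW]; exact primorial_pos _
  have hW0 : (0 : ℝ) < W := by exact_mod_cast hWpos
  have hW1 : (1 : ℝ) ≤ W := by exact_mod_cast hWpos
  have hWp : ∀ p : ℕ, p.Prime → p ≤ C * (g * 1 + 1) + (2 * g + 2) + s → p ∣ W := fun p hp hpS => by
    rw [hW]; exact hp.dvd_primorial_iff.2 hpS
  have hWsq : Squarefree W := by
    rw [hW]
    unfold primorial
    exact Finset.squarefree_prod_of_pairwise_isCoprime (by
      intro a ha b hb hab
      rw [mem_coe, mem_filter] at ha hb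
      exact Nat.coprime_iff_isRelPrime.1 ((Nat.coprime_primes ha.2 hb.2).2 hab)) (by
      intro p hp
      rw [mem_filter] at hp
      exact hp.2.prime.squarefree)
  obtain ⟨KV, hKV1, hKV⟩ := V_lowerP
  have hnum : ∃ H₀ : ℕ, ∀ H : ℕ, H₀ ≤ H → 2 ≤ H ∧ 2 ^ (4 * E) ≤ H ∧ 2 * W ≤ H ∧
      16 * W / η * (KV * Real.log H) ^ (2 * g) * (H : ℝ) ^ (1 / 4 : ℝ) ≤ H := by
    apply Filter.eventually_atTop.1
    filter_upwards [Filter.eventually_ge_atTop 2, Filter.eventually_ge_atTop (2 ^ (4 * E)),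
      Filter.eventually_ge_atTop (2 * W), ev_log (2 * g) (16 * W / η * KV ^ (2 * g)) (3 / 4) (by norm_num)]
      with H h1 h2 h3 h4
    have hH0 : (0 : ℝ) < H := by exact_mod_cast (show 0 < H by omega)
    refine ⟨h1, h2, h3, ?_⟩
    calc 16 * W / η * (KV * Real.log H) ^ (2 * g) * (H : ℝ) ^ (1 / 4 : ℝ) =
        (16 * W / η * KV ^ (2 * g) * Real.log H ^ (2 * g)) * (H : ℝ) ^ (1 / 4 : ℝ) := by
          rw [mul_pow]; ring
      _ ≤ (H : ℝ) ^ (3 / 4 : ℝ) * (H : ℝ) ^ (1 / 4 : ℝ) := by gcongr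
      _ = H := by rw [← Real.rpow_add hH0]; norm_num
  obtain ⟨H₀, hH₀⟩ := hnum
  refine ⟨W, E, H₀, hWpos, hWsq, hE1, fun p hp hps => hWp p hp (by omega), ?_⟩
  intro H hH
  obtain ⟨n1, n2, n3, n4⟩ := hH₀ H hH
  have hH0 : (0 : ℝ) < H := by exact_mod_cast (show 0 < H by omega)
  have hHr1 : (1 : ℝ) ≤ H := by exact_mod_cast (show 1 ≤ H by omega)
  obtain ⟨J, hJ1, hJ2⟩ := exJ E H hE1 n2
  obtain ⟨z, hz⟩ : ∃ z : ℕ, z = 2 ^ 2 ^ J := ⟨_, rfl⟩
  rw [← hz] at hJ1 hJ2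
  have hz1 : 1 ≤ z := by rw [hz]; exact Nat.one_le_two_pow
  have hzle : z ≤ H := by
    have h1 : z ≤ z ^ (4 * E) := Nat.le_self_pow (by omega) _
    exact h1.trans hJ1
  have hzε : (z : ℝ) ≤ (H : ℝ) ^ ε := by
    have h1 : ((z : ℝ)) ^ (4 * E) ≤ H := by exact_mod_cast hJ1
    have hE0 : (0 : ℝ) < E := by exact_mod_cast hE1
    calc (z : ℝ) = ((z : ℝ) ^ (4 * E)) ^ (1 / (4 * (E : ℝ))) := by
          rw [← Real.rpow_natCast, ← Real.rpow_mul (Nat.cast_nonneg _)]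
          push_cast
          rw [mul_one_div_cancel (by positivity), Real.rpow_one]
      _ ≤ (H : ℝ) ^ (1 / (4 * (E : ℝ))) := Real.rpow_le_rpow (by positivity) h1 (by positivity)
      _ ≤ (H : ℝ) ^ ε := Real.rpow_le_rpow_of_exponent_le hHr1 hEε
  refine ⟨z, hzε, hzle, hJ2, ?_⟩
  intro F Y b hF hbW
  obtain ⟨M, hM⟩ : ∃ M : ℕ, M = Y / W := ⟨_, rfl⟩
  have hHW : W * (H / W) ≤ H := Nat.mul_div_le H W
  have hHW' : H < W * (H / W) + W := by
    have := Nat.lt_mul_div_succ H hWpos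
    have e : W * (H / W + 1) = W * (H / W) + W := by ring
    omega
  have hYW : W * (Y / W) ≤ Y := Nat.mul_div_le Y W
  have hYW' : Y < W * (Y / W) + W := by
    have := Nat.lt_mul_div_succ Y hWpos
    have e : W * (Y / W + 1) = W * (Y / W) + W := by ring
    omega
  have hq2 : 2 ≤ H / W := (Nat.le_div_iff_mul_le hWpos).2 n3
  obtain ⟨q, hq⟩ : ∃ q : ℝ, q = (H : ℝ) / W := ⟨_, rfl⟩
  have hq1 : ((H / W : ℕ) : ℝ) ≤ q := by rw [hq]; exact Nat.cast_div_le
  have hq1' : q - 1 ≤ ((H / W : ℕ) : ℝ) := by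
    rw [hq, sub_le_iff_le_add, div_le_iff₀ hW0]
    have h1 : (H : ℝ) ≤ W * ((H / W : ℕ) : ℝ) + W := by exact_mod_cast hHW'.le
    linarith
  set t : Fin 1 → ℕ := fun _ => 0 with ht
  have hprod : ∏ p ∈ PS W z, (1 - (rhoT F W b t p : ℝ) / p) = V F W z := by
    unfold V
    apply prod_congr rfl
    intro p hp
    unfold PS at hp
    rw [mem_filter] at hp
    have h2 : rhoT F W b t p = rt F p := by
      rw [← card_shiftP hp.2.1 (hF.per p hp.2.1) W b 0 hp.2.2]
      unfold rhoT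
      apply congrArg Finset.card
      ext r
      simp only [mem_filter, ht]
      constructor
      · rintro ⟨h3, _, h4⟩; exact ⟨h3, h4⟩
      · rintro ⟨h3, h4⟩; exact ⟨h3, 0, h4⟩
    rw [h2]
  set U : ℕ → Finset ℕ := fun L => (Ioc M (M + L)).filter (fun K => K % 1 = 0 % 1 ∧
      ∀ p ∈ PS W z, ∀ i, ¬ (p : ℤ) ∣ F ((W * (K + t i) + b : ℕ) : ℤ)) with hU
  have hVz0 : 0 < V F W z := V_posP hF W z
  have hVz1 : V F W z ≤ 1 := by
    unfold V
    exact prod_le_one (fun p _ => fac_nonneg p) (fun p _ => fac_le p)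
  have hUc : ∀ L : ℕ, |((U L).card : ℝ) - L * V F W z| ≤ η / 4 * (L * V F W z) + (z : ℝ) ^ E := by
    intro L
    have h1 := hC g 1 b₀ W (by rw [hb₀]; omega) hWpos (fun p hp hpS => hWp p hp (by omega)) F hF t b J
      1 0 M L le_rfl
      (fun p hp h => by
        unfold PS at hp
        rw [mem_filter] at hp
        exact hp.2.1.ne_one (Nat.dvd_one.1 h))
    rw [← hz, hprod] at h1
    have h1' : |((U L).card : ℝ) - L * V F W z| ≤ (1 / 2 : ℝ) ^ b₀ * (L * V F W z) + (z : ℝ) ^ E := by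
      rw [hU, hE]
      have h2 : ((z : ℕ) : ℝ) = (2 : ℝ) ^ 2 ^ J := by rw [hz]; push_cast; rfl
      rw [h2]
      have h3 : (L : ℝ) / ((1 : ℕ) : ℝ) = L := by simp
      rw [h3] at h1
      convert h1 using 6
    refine h1'.trans ?_
    gcongr
  have hzE1 : (1 : ℝ) ≤ (z : ℝ) ^ E := one_le_pow₀ (by exact_mod_cast hz1)
  have hzE : (z : ℝ) ^ E ≤ (H : ℝ) ^ (1 / 4 : ℝ) := by
    have h2 : ((z : ℝ) ^ E) ^ 4 ≤ H := by
      rw [← pow_mul, mul_comm E 4]; exact_mod_cast hJ1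
    calc (z : ℝ) ^ E = (((z : ℝ) ^ E) ^ 4) ^ (1 / 4 : ℝ) := by
          rw [← Real.rpow_natCast ((z : ℝ) ^ E) 4, ← Real.rpow_mul (by positivity)]
          norm_num
      _ ≤ (H : ℝ) ^ (1 / 4 : ℝ) := Real.rpow_le_rpow (by positivity) h2 (by norm_num)
  have hVlow := hKV g F W H hF n1 (fun p hp hpg => hWp p hp (by omega))
  have hVzH : V F W H ≤ V F W z := V_anti (g := g) hzle
  have hlogpos : 0 < Real.log H := Real.log_pos (by exact_mod_cast (show 1 < H by omega))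
  have hKV0 : 0 < (KV * Real.log H) ^ (2 * g) := by positivity
  have herr : 4 * (z : ℝ) ^ E ≤ η / 4 * (q * V F W z) := by
    have h6 : 16 * W / η * (H : ℝ) ^ (1 / 4 : ℝ) ≤ H * (1 / (KV * Real.log H) ^ (2 * g)) := by
      rw [mul_one_div, le_div_iff₀ hKV0]
      calc 16 * W / η * (H : ℝ) ^ (1 / 4 : ℝ) * (KV * Real.log H) ^ (2 * g) =
            16 * W / η * (KV * Real.log H) ^ (2 * g) * (H : ℝ) ^ (1 / 4 : ℝ) := by ring
        _ ≤ H := n4
    have h7 : 16 * W / η * (H : ℝ) ^ (1 / 4 : ℝ) ≤ H * V F W z := by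
      refine h6.trans ?_
      have := hVlow.trans hVzH
      gcongr
    have h8 : η / 4 * (q * V F W z) = η / (4 * W) * (H * V F W z) := by
      rw [hq]
      field_simp
    rw [h8]
    calc 4 * (z : ℝ) ^ E ≤ 4 * (H : ℝ) ^ (1 / 4 : ℝ) := by gcongr
      _ = η / (4 * W) * (16 * W / η * (H : ℝ) ^ (1 / 4 : ℝ)) := by
          field_simp
          norm_num
      _ ≤ _ := by gcongr
  rw [← hq]
  constructor
  · -- the lower bound
    obtain ⟨L, hL⟩ : ∃ L : ℕ, L + 1 = H / W := ⟨H / W - 1, by omega⟩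
    have hLr : (L : ℝ) + 1 = ((H / W : ℕ) : ℝ) := by exact_mod_cast hL
    have h1 := (abs_le.1 (hUc L)).1
    have hsub : (U L).image (fun K => W * K + b) ⊆ Tb F (PS W z) W Y H b := by
      intro n hn
      rw [mem_image] at hn
      obtain ⟨K, hK, rfl⟩ := hn
      rw [hU, mem_filter, mem_Ioc] at hK
      unfold Tb
      rw [mem_filter, mem_Ioc]
      refine ⟨⟨?_, ?_⟩, ?_, ?_⟩
      · have e4 : W * (M + 1) ≤ W * K := Nat.mul_le_mul_left _ (by omega)
        have e5 : W * (M + 1) = W * (Y / W) + W := by rw [hM]; ring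
        omega
      · have e4 : W * K ≤ W * (M + L) := Nat.mul_le_mul_left _ (by omega)
        have e5 : W * (M + L) + W = W * (Y / W) + W * (L + 1) := by rw [hM]; ring
        rw [hL] at e5
        omega
      · rw [Nat.mul_add_mod]
        exact Nat.mod_eq_of_lt hbW
      · intro p hp
        have := hK.2.2 p hp 0
        simpa [ht] using this
    have hcard : (U L).card ≤ (Tb F (PS W z) W Y H b).card := by
      rw [← card_image_of_injective (U L) (f := fun K => W * K + b) (by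
        intro K K' hKK
        have h2 : W * K = W * K' := by
          have : W * K + b = W * K' + b := hKK
          omega
        exact Nat.eq_of_mul_eq_mul_left hWpos h2)]
      exact card_le_card hsub
    have hcard' : ((U L).card : ℝ) ≤ (Tb F (PS W z) W Y H b).card := by exact_mod_cast hcard
    have hLV : q * V F W z - 2 ≤ L * V F W z := by
      have h3 : q - 2 ≤ L := by linarith
      nlinarith
    have hLV2 : (L : ℝ) * V F W z ≤ q * V F W z := by
      have h3 : (L : ℝ) ≤ q := by linarith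
      gcongr
    have h5 : η / 4 * (L * V F W z) ≤ η / 4 * (q * V F W z) := by gcongr
    have h6 : 0 ≤ η / 4 * (q * V F W z) := by
      rw [hq]
      positivity
    nlinarith
  · -- the upper bound
    obtain ⟨L, hL⟩ : ∃ L : ℕ, L = H / W + 1 := ⟨_, rfl⟩
    have hLr : (L : ℝ) = ((H / W : ℕ) : ℝ) + 1 := by rw [hL]; push_cast; ring
    have h1 := (abs_le.1 (hUc L)).2
    have hsub : Tb F (PS W z) W Y H b ⊆ (insert M (U L)).image (fun K => W * K + b) := by
      intro n hn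
      unfold Tb at hn
      rw [mem_filter, mem_Ioc] at hn
      obtain ⟨⟨hn1, hn2⟩, hn3, hn4⟩ := hn
      have hnW : W * (n / W) + b = n := by
        rw [← hn3]
        exact Nat.div_add_mod n W
      refine mem_image.2 ⟨n / W, ?_, hnW⟩
      rw [mem_insert]
      have h2 : M ≤ n / W := by rw [hM]; exact Nat.div_le_div_right hn1.le
      rcases h2.eq_or_lt with h3 | h3
      · exact Or.inl h3.symm
      · right
        rw [hU, mem_filter, mem_Ioc]
        refine ⟨⟨h3, ?_⟩, by simp [Nat.mod_one], ?_⟩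
        · have h4 : n / W ≤ (Y + H) / W := Nat.div_le_div_right hn2
          have h5 : (Y + H) / W ≤ Y / W + H / W + 1 := by
            have e3 : Y + H < W * (Y / W + H / W + 1 + 1) := by
              have : W * (Y / W + H / W + 1 + 1) = W * (Y / W) + W + (W * (H / W) + W) := by ring
              omega
            exact Nat.lt_succ_iff.1 ((Nat.div_lt_iff_lt_mul hWpos).2 (by rw [Nat.mul_comm] at e3; exact e3))
          omega
        · intro p hp i
          simp only [ht, add_zero]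
          rw [hnW]
          exact hn4 p hp
    have hcard : (Tb F (PS W z) W Y H b).card ≤ (U L).card + 1 :=
      (card_le_card hsub).trans (card_image_le.trans (card_insert_le _ _))
    have hcard' : ((Tb F (PS W z) W Y H b).card : ℝ) ≤ (U L).card + 1 := by exact_mod_cast hcard
    have hLV : (L : ℝ) * V F W z ≤ q * V F W z + 1 := by
      have h3 : (L : ℝ) ≤ q + 1 := by linarith
      nlinarith
    have h5 : η / 4 * (L * V F W z) ≤ η / 4 * (q * V F W z) + 1 / 4 := by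
      have : η / 4 * (L * V F W z) ≤ η / 4 * (q * V F W z + 1) := by gcongr
      linarith
    have h6 : 0 ≤ η / 4 * (q * V F W z) := by
      rw [hq]
      positivity
    nlinarith

/-- the good classes -/
noncomputable def Gd (F : ℤ → ℤ) (W : ℕ) : Finset ℕ := by
  classical
  exact (range W).filter (fun b : ℕ => ∀ p ∈ W.primeFactors, ¬ (p : ℤ) ∣ F (b : ℤ))

lemma Gd_card {g : ℕ} {F : ℤ → ℤ} (hF : SysP g F) {W : ℕ} (hW0 : 0 < W) (hW : Squarefree W) :
    ((Gd F W).card : ℝ) / W = ∏ p ∈ W.primeFactors, (1 - (rt F p : ℝ) / p) := by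
  classical
  have h1 : (Gd F W).card = ∏ p ∈ W.primeFactors, (p - rt F p) := by
    rw [← pigP F hF.per W hW]
    unfold Gd
    congr
  have h2 : (W : ℝ) = ∏ p ∈ W.primeFactors, (p : ℝ) := by
    rw [← Nat.cast_prod, Nat.prod_primeFactors_of_squarefree hW]
  rw [h1, Nat.cast_prod]
  conv_lhs => rw [h2]
  rw [← prod_div_distrib]
  apply prod_congr rfl
  intro p hp
  have hpp := Nat.prime_of_mem_primeFactors hp
  have hp0 : (p : ℝ) ≠ 0 := by exact_mod_cast hpp.ne_zero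
  rw [Nat.cast_sub (hF.root p hpp).2.le]
  field_simp

end Pool.Agent.U497.AW
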