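import Mathlib

/-!
# Counting in almost all short intervals: the second moment and the maximal inequality (helper497)
-/

set_option autoImplicit false

open Finset

namespace Pool.Agent.U497.AW

/-- the number of the elements of `S` in `(n, n + D]` -/
def Xc (S : Finset ℕ) (D n : ℕ) : ℕ := (S.filter (fun s => n < s ∧ s ≤ n + D)).card

open Classical in
/-- **the maximal inequality** (covering) -/
lemma maxw (w : ℕ → ℝ) (hw : ∀ n, 0 ≤ w n) (τ : ℝ) (hτ : 0 ≤ τ) (e : ℕ) : ∀ (m a : ℕ), a + m = e →
    τ * (((Ico a e).filter (fun n => ∃ L : ℕ, 1 ≤ L ∧ n + L ≤ e ∧ τ * L ≤ ∑ x ∈ Ioc n (n + L), w x)).card : ℝ) ≤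
      ∑ x ∈ Ioc a e, w x := by
  intro m
  induction m using Nat.strong_induction_on with
  | _ m ih =>
    intro a ha
    rcases Nat.eq_zero_or_pos m with h0 | h0
    · subst h0
      have h1 : Ico a e = ∅ := by
        rw [Ico_eq_empty_iff]
        omega
      rw [h1, filter_empty, card_empty, Nat.cast_zero, mul_zero]
      exact sum_nonneg fun x _ => hw x
    · by_cases hbad : ∃ L : ℕ, 1 ≤ L ∧ a + L ≤ e ∧ τ * L ≤ ∑ x ∈ Ioc a (a + L), w x
      · obtain ⟨L, hL1, hL2, hL3⟩ := hbad
        have h1 := ih (m - L) (by omega) (a + L) (by omega)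
        have hsub : (Ico a e).filter (fun n => ∃ L : ℕ, 1 ≤ L ∧ n + L ≤ e ∧ τ * L ≤ ∑ x ∈ Ioc n (n + L), w x) ⊆
            Ico a (a + L) ∪ (Ico (a + L) e).filter
              (fun n => ∃ L : ℕ, 1 ≤ L ∧ n + L ≤ e ∧ τ * L ≤ ∑ x ∈ Ioc n (n + L), w x) := by
          intro n hn
          rw [mem_filter, mem_Ico] at hn
          rw [mem_union, mem_filter, mem_Ico, mem_Ico]
          by_cases h2 : n < a + L
          · exact Or.inl ⟨hn.1.1, h2⟩
          · exact Or.inr ⟨⟨by omega, hn.1.2⟩, hn.2⟩
        have h2 := (card_le_card hsub).trans (card_union_le _ _)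
        rw [Nat.card_Ico, Nat.add_sub_cancel_left] at h2
        have h3 : (((Ico a e).filter (fun n => ∃ L : ℕ, 1 ≤ L ∧ n + L ≤ e ∧ τ * L ≤ ∑ x ∈ Ioc n (n + L), w x)).card : ℝ) ≤
            L + (((Ico (a + L) e).filter (fun n => ∃ L : ℕ, 1 ≤ L ∧ n + L ≤ e ∧ τ * L ≤ ∑ x ∈ Ioc n (n + L), w x)).card : ℝ) := by
          exact_mod_cast h2
        have h4 : ∑ x ∈ Ioc a e, w x = ∑ x ∈ Ioc a (a + L), w x + ∑ x ∈ Ioc (a + L) e, w x := by
          rw [← Ioc_union_Ioc_eq_Ioc (show a ≤ a + L by omega) hL2, sum_union]
          rw [disjoint_left]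
          intro x hx hx'
          rw [mem_Ioc] at hx hx'
          omega
        have h5 := mul_le_mul_of_nonneg_left h3 hτ
        rw [h4]
        linarith
      · have h1 := ih (m - 1) (by omega) (a + 1) (by omega)
        have hsub : (Ico a e).filter (fun n => ∃ L : ℕ, 1 ≤ L ∧ n + L ≤ e ∧ τ * L ≤ ∑ x ∈ Ioc n (n + L), w x) ⊆
            (Ico (a + 1) e).filter (fun n => ∃ L : ℕ, 1 ≤ L ∧ n + L ≤ e ∧ τ * L ≤ ∑ x ∈ Ioc n (n + L), w x) := by
          intro n hn
          rw [mem_filter, mem_Ico] at hn ⊢
          refine ⟨⟨?_, hn.1.2⟩, hn.2⟩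
          rcases hn.1.1.eq_or_lt with h2 | h2
          · exfalso
            rw [← h2] at hn
            exact hbad hn.2
          · omega
        have h2 : (((Ico a e).filter (fun n => ∃ L : ℕ, 1 ≤ L ∧ n + L ≤ e ∧ τ * L ≤ ∑ x ∈ Ioc n (n + L), w x)).card : ℝ) ≤
            (((Ico (a + 1) e).filter (fun n => ∃ L : ℕ, 1 ≤ L ∧ n + L ≤ e ∧ τ * L ≤ ∑ x ∈ Ioc n (n + L), w x)).card : ℝ) := by
          exact_mod_cast card_le_card hsub
        have h3 : ∑ x ∈ Ioc (a + 1) e, w x ≤ ∑ x ∈ Ioc a e, w x :=
          sum_le_sum_of_subset_of_nonneg (Ioc_subset_Ioc_left (by omega)) fun x _ _ => hw x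
        exact (mul_le_mul_of_nonneg_left h2 hτ).trans (h1.trans h3)

/-- the windows inside an interval -/
lemma cnt_lo (S : Finset ℕ) {D L : ℕ} (n : ℕ) (hDL : D ≤ L) :
    ∑ m ∈ Ioc n (n + (L - D)), Xc S D m ≤ D * Xc S L n := by
  classical
  have h1 : ∀ m, Xc S D m = ∑ s ∈ S, if m < s ∧ s ≤ m + D then 1 else 0 := by
    intro m
    unfold Xc
    rw [card_filter]
  calc ∑ m ∈ Ioc n (n + (L - D)), Xc S D m =
        ∑ m ∈ Ioc n (n + (L - D)), ∑ s ∈ S, (if m < s ∧ s ≤ m + D then 1 else 0) := sum_congr rfl fun m _ => h1 m
    _ = ∑ s ∈ S, ∑ m ∈ Ioc n (n + (L - D)), (if m < s ∧ s ≤ m + D then 1 else 0) := sum_comm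
    _ ≤ ∑ s ∈ S, if n < s ∧ s ≤ n + L then D else 0 := by
        apply sum_le_sum
        intro s _
        rw [← card_filter]
        by_cases hs : n < s ∧ s ≤ n + L
        · rw [if_pos hs]
          calc ((Ioc n (n + (L - D))).filter (fun m => m < s ∧ s ≤ m + D)).card ≤ (Ico (s - D) s).card := by
                apply card_le_card
                intro m hm
                rw [mem_filter] at hm
                rw [mem_Ico]
                omega
            _ ≤ D := by
                rw [Nat.card_Ico]
                omega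
        · rw [if_neg hs, Nat.le_zero, card_eq_zero, filter_eq_empty_iff]
          intro m hm hc
          rw [mem_Ioc] at hm
          apply hs
          omega
    _ = D * Xc S L n := by
        unfold Xc
        rw [← sum_filter, sum_const, smul_eq_mul, mul_comm]

/-- the windows covering an interval -/
lemma cnt_hi (S : Finset ℕ) (D L n : ℕ) :
    D * Xc S L n ≤ ∑ m ∈ Ioc n (n + L), Xc S D m + D * Xc S D n := by
  classical
  have h1 : ∀ m, Xc S D m = ∑ s ∈ S, if m < s ∧ s ≤ m + D then 1 else 0 := by
    intro m
    unfold Xc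
    rw [card_filter]
  have h2 : Xc S L n ≤ (S.filter (fun s => n + D < s ∧ s ≤ n + L)).card + Xc S D n := by
    unfold Xc
    refine le_trans (card_le_card ?_) (card_union_le _ _)
    intro s hs
    rw [mem_filter] at hs
    rw [mem_union, mem_filter, mem_filter]
    by_cases h3 : n + D < s
    · exact Or.inl ⟨hs.1, h3, hs.2.2⟩
    · exact Or.inr ⟨hs.1, hs.2.1, not_lt.1 h3⟩
  have h3 : D * (S.filter (fun s => n + D < s ∧ s ≤ n + L)).card ≤ ∑ m ∈ Ioc n (n + L), Xc S D m := by
    calc D * (S.filter (fun s => n + D < s ∧ s ≤ n + L)).card =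
          ∑ s ∈ S, if n + D < s ∧ s ≤ n + L then D else 0 := by
          rw [← sum_filter, sum_const, smul_eq_mul, mul_comm]
      _ ≤ ∑ s ∈ S, ∑ m ∈ Ioc n (n + L), (if m < s ∧ s ≤ m + D then 1 else 0) := by
          apply sum_le_sum
          intro s _
          rw [← card_filter]
          by_cases hs : n + D < s ∧ s ≤ n + L
          · rw [if_pos hs]
            calc D = (Ico (s - D) s).card := by
                  rw [Nat.card_Ico]
                  omega
              _ ≤ _ := by
                  apply card_le_card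
                  intro m hm
                  rw [mem_Ico] at hm
                  rw [mem_filter, mem_Ioc]
                  omega
          · rw [if_neg hs]
            exact Nat.zero_le _
      _ = ∑ m ∈ Ioc n (n + L), ∑ s ∈ S, (if m < s ∧ s ≤ m + D then 1 else 0) := sum_comm
      _ = _ := sum_congr rfl fun m _ => (h1 m).symm
  calc D * Xc S L n ≤ D * ((S.filter (fun s => n + D < s ∧ s ≤ n + L)).card + Xc S D n) := Nat.mul_le_mul_left _ h2
    _ = D * (S.filter (fun s => n + D < s ∧ s ≤ n + L)).card + D * Xc S D n := by ring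
    _ ≤ _ := by omega

/-- the square of the number of the elements -/
lemma sq_card (A : Finset ℕ) : A.card * A.card = A.card + 2 * ∑ s ∈ A, (A.filter (fun s' => s < s')).card := by
  classical
  have h1 : ∀ s ∈ A, A.card = 1 + (A.filter (fun s' => s < s')).card + (A.filter (fun s' => s' < s)).card := by
    intro s hs
    have h2 : A.card = (A.filter (fun s' => s < s')).card + (A.filter (fun s' => ¬ s < s')).card :=
      (card_filter_add_card_filter_not _).symm
    have h3 : A.filter (fun s' => ¬ s < s') = insert s (A.filter (fun s' => s' < s)) := by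
      ext x
      rw [mem_filter, mem_insert, mem_filter]
      constructor
      · rintro ⟨h4, h5⟩
        rcases (not_lt.1 h5).eq_or_lt with h6 | h6
        · exact Or.inl h6
        · exact Or.inr ⟨h4, h6⟩
      · rintro (h4 | ⟨h4, h5⟩)
        · subst h4
          exact ⟨hs, lt_irrefl _⟩
        · exact ⟨h4, by omega⟩
    have h4 : (A.filter (fun s' => ¬ s < s')).card = (A.filter (fun s' => s' < s)).card + 1 := by
      rw [h3, card_insert_of_notMem]
      rw [mem_filter]
      rintro ⟨_, h5⟩
      exact lt_irrefl _ h5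
    omega
  have h2 : ∑ s ∈ A, (A.filter (fun s' => s < s')).card = ∑ s ∈ A, (A.filter (fun s' => s' < s)).card := by
    simp only [card_filter]
    exact sum_comm
  calc A.card * A.card = ∑ s ∈ A, A.card := by rw [sum_const, smul_eq_mul]
    _ = ∑ s ∈ A, (1 + (A.filter (fun s' => s < s')).card + (A.filter (fun s' => s' < s)).card) := sum_congr rfl h1
    _ = _ := by
        rw [sum_add_distrib, sum_add_distrib, sum_const, smul_eq_mul, ← h2]
        ring

/-- the sum of the window counts, upper bound -/
lemma sumX_le (S I : Finset ℕ) (D : ℕ) : ∑ n ∈ I, Xc S D n ≤ D * S.card := by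
  classical
  calc ∑ n ∈ I, Xc S D n = ∑ n ∈ I, ∑ s ∈ S, (if n < s ∧ s ≤ n + D then 1 else 0) := by
        apply sum_congr rfl
        intro n _
        unfold Xc
        rw [card_filter]
    _ = ∑ s ∈ S, ∑ n ∈ I, (if n < s ∧ s ≤ n + D then 1 else 0) := sum_comm
    _ ≤ ∑ _s ∈ S, D := by
        apply sum_le_sum
        intro s _
        rw [← card_filter]
        calc (I.filter (fun n => n < s ∧ s ≤ n + D)).card ≤ (Ico (s - D) s).card := by
              apply card_le_card
              intro n hn
              rw [mem_filter] at hn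
              rw [mem_Ico]
              omega
          _ ≤ D := by
              rw [Nat.card_Ico]
              omega
    _ = _ := by rw [sum_const, smul_eq_mul, mul_comm]

/-- the sum of the window counts, lower bound -/
lemma sumX_ge (S : Finset ℕ) (Y e D : ℕ) (hS : S ⊆ Ioc Y e) : D * S.card ≤ ∑ n ∈ Icc Y e, Xc S D n + D * D := by
  classical
  have h1 : S.card ≤ (S.filter (fun s => Y + D < s)).card + D := by
    have h2 : S.card = (S.filter (fun s => Y + D < s)).card + (S.filter (fun s => ¬ Y + D < s)).card :=
      (card_filter_add_card_filter_not _).symm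
    have h3 : (S.filter (fun s => ¬ Y + D < s)).card ≤ D := by
      calc _ ≤ (Ioc Y (Y + D)).card := by
            apply card_le_card
            intro s hs
            rw [mem_filter] at hs
            have := mem_Ioc.1 (hS hs.1)
            rw [mem_Ioc]
            omega
        _ = D := by rw [Nat.card_Ioc]; omega
    omega
  have h2 : D * (S.filter (fun s => Y + D < s)).card ≤ ∑ n ∈ Icc Y e, Xc S D n := by
    calc D * (S.filter (fun s => Y + D < s)).card = ∑ s ∈ S, if Y + D < s then D else 0 := by
          rw [← sum_filter, sum_const, smul_eq_mul, mul_comm]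
      _ ≤ ∑ s ∈ S, ∑ n ∈ Icc Y e, (if n < s ∧ s ≤ n + D then 1 else 0) := by
          apply sum_le_sum
          intro s hs
          rw [← card_filter]
          have hse := mem_Ioc.1 (hS hs)
          by_cases h3 : Y + D < s
          · rw [if_pos h3]
            calc D = (Ico (s - D) s).card := by
                  rw [Nat.card_Ico]
                  omega
              _ ≤ _ := by
                  apply card_le_card
                  intro m hm
                  rw [mem_Ico] at hm
                  rw [mem_filter, mem_Icc]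
                  omega
          · rw [if_neg h3]
            exact Nat.zero_le _
      _ = ∑ n ∈ Icc Y e, ∑ s ∈ S, (if n < s ∧ s ≤ n + D then 1 else 0) := sum_comm
      _ = _ := by
          apply sum_congr rfl
          intro n _
          unfold Xc
          rw [card_filter]
  calc D * S.card ≤ D * ((S.filter (fun s => Y + D < s)).card + D) := Nat.mul_le_mul_left _ h1
    _ = D * (S.filter (fun s => Y + D < s)).card + D * D := by ring
    _ ≤ _ := by omega

/-- the second moment of the window counts -/
lemma sumX_sq (S I : Finset ℕ) (D : ℕ) : ∑ n ∈ I, Xc S D n * Xc S D n ≤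
    D * S.card + 2 * ∑ l ∈ range D, ∑ h ∈ Icc 1 l, (S.filter (fun n => n + h ∈ S)).card := by
  classical
  have h1 : ∀ n, Xc S D n * Xc S D n = Xc S D n + 2 * ∑ s ∈ S, ∑ s' ∈ S, (if n < s ∧ s < s' ∧ s' ≤ n + D then 1 else 0) := by
    intro n
    unfold Xc
    rw [sq_card]
    congr 2
    rw [sum_filter]
    apply sum_congr rfl
    intro s _
    by_cases hs : n < s ∧ s ≤ n + D
    · rw [if_pos hs, filter_filter, card_filter]
      apply sum_congr rfl
      intro s' _
      by_cases h2 : n < s ∧ s < s' ∧ s' ≤ n + D
      · rw [if_pos h2, if_pos ⟨⟨by omega, h2.2.2⟩, h2.2.1⟩]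
      · rw [if_neg h2, if_neg]
        rintro ⟨⟨h3, h4⟩, h5⟩
        exact h2 ⟨hs.1, h5, h4⟩
    · rw [if_neg hs]
      symm
      apply sum_eq_zero
      intro s' _
      rw [if_neg]
      rintro ⟨h3, h4, h5⟩
      exact hs ⟨h3, by omega⟩
  have h2 : ∑ n ∈ I, ∑ s ∈ S, ∑ s' ∈ S, (if n < s ∧ s < s' ∧ s' ≤ n + D then 1 else 0) ≤
      ∑ l ∈ range D, ∑ h ∈ Icc 1 l, (S.filter (fun n => n + h ∈ S)).card := by
    calc ∑ n ∈ I, ∑ s ∈ S, ∑ s' ∈ S, (if n < s ∧ s < s' ∧ s' ≤ n + D then 1 else 0) =
          ∑ s ∈ S, ∑ n ∈ I, ∑ s' ∈ S, (if n < s ∧ s < s' ∧ s' ≤ n + D then 1 else 0) := sum_comm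
      _ ≤ ∑ s ∈ S, ∑ l ∈ range D, ∑ h ∈ Icc 1 l, (if s + h ∈ S then 1 else 0) := by
          apply sum_le_sum
          intro s _
          have h3 : ∀ l, (S.filter (fun s' => s < s' ∧ s' ≤ s + l)).card ≤ ∑ h ∈ Icc 1 l, (if s + h ∈ S then 1 else 0) := by
            intro l
            rw [← card_filter]
            apply card_le_card_of_injOn (fun s' => s' - s)
            · intro s' hs'
              rw [mem_coe, mem_filter] at hs'
              rw [mem_coe, mem_filter, mem_Icc]
              dsimp only
              refine ⟨by omega, ?_⟩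
              have : s + (s' - s) = s' := by omega
              rw [this]
              exact hs'.1
            · intro a ha b hb hab
              rw [mem_coe, mem_filter] at ha hb
              simp only at hab
              omega
          calc ∑ n ∈ I, ∑ s' ∈ S, (if n < s ∧ s < s' ∧ s' ≤ n + D then 1 else 0) =
                ∑ s' ∈ S, ∑ n ∈ I, (if n < s ∧ s < s' ∧ s' ≤ n + D then 1 else 0) := sum_comm
            _ ≤ ∑ s' ∈ S, ∑ l ∈ range D, (if s < s' ∧ s' ≤ s + l then 1 else 0) := by
                apply sum_le_sum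
                intro s' _
                rw [← card_filter, ← card_filter]
                by_cases hss : s < s'
                · calc (I.filter (fun n => n < s ∧ s < s' ∧ s' ≤ n + D)).card ≤ (Ico (s' - D) s).card := by
                        apply card_le_card
                        intro n hn
                        rw [mem_filter] at hn
                        rw [mem_Ico]
                        omega
                    _ ≤ (Ico (s' - s) D).card := by
                        rw [Nat.card_Ico, Nat.card_Ico]
                        omega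
                    _ ≤ _ := by
                        apply card_le_card
                        intro l hl
                        rw [mem_Ico] at hl
                        rw [mem_filter, mem_range]
                        exact ⟨hl.2, hss, by omega⟩
                · have h4 : I.filter (fun n => n < s ∧ s < s' ∧ s' ≤ n + D) = ∅ := by
                    rw [filter_eq_empty_iff]
                    intro n _ hc
                    exact hss hc.2.1
                  rw [h4, card_empty]
                  exact Nat.zero_le _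
            _ = ∑ l ∈ range D, ∑ s' ∈ S, (if s < s' ∧ s' ≤ s + l then 1 else 0) := sum_comm
            _ = ∑ l ∈ range D, (S.filter (fun s' => s < s' ∧ s' ≤ s + l)).card := by
                apply sum_congr rfl
                intro l _
                rw [card_filter]
            _ ≤ _ := sum_le_sum fun l _ => h3 l
      _ = ∑ l ∈ range D, ∑ s ∈ S, ∑ h ∈ Icc 1 l, (if s + h ∈ S then 1 else 0) := sum_comm
      _ = ∑ l ∈ range D, ∑ h ∈ Icc 1 l, (S.filter (fun n => n + h ∈ S)).card := by
          apply sum_congr rfl
          intro l _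
          rw [sum_comm]
          apply sum_congr rfl
          intro h _
          rw [card_filter]
  calc ∑ n ∈ I, Xc S D n * Xc S D n =
        ∑ n ∈ I, (Xc S D n + 2 * ∑ s ∈ S, ∑ s' ∈ S, (if n < s ∧ s < s' ∧ s' ≤ n + D then 1 else 0)) :=
        sum_congr rfl fun n _ => h1 n
    _ = ∑ n ∈ I, Xc S D n + 2 * ∑ n ∈ I, ∑ s ∈ S, ∑ s' ∈ S, (if n < s ∧ s < s' ∧ s' ≤ n + D then 1 else 0) := by
        rw [sum_add_distrib, mul_sum]
    _ ≤ _ := by
        have := sumX_le S I D
        omega

end Pool.Agent.U497.AW
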