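import Pool.Agent.U497.AW.Pairs2
import Pool.Agent.U497.AW.Var

/-!
# Sifted numbers in almost all short intervals, all lengths at once (helper497)
-/

set_option autoImplicit false

open Finset

namespace Pool.Agent.U497.AW

open Pool.Agent.TH423.SH (PS)
open Pool.Agent.Y677.RSZ (rt rhoT V rs fac_nonneg fac_le exJ ev_log V_le_one V_split)
open Pool.Agent.K3h89.SZ (SysP CF V_lowerP V_posP card_shiftP perP_mod)

lemma V1_low (g : ℕ) : ∃ N₀ : ℕ, ∀ N : ℕ, N₀ ≤ N → ∀ (F : ℤ → ℤ) (z : ℕ), SysP g F → z ≤ N →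
    (N : ℝ) ^ (-(1 / 4 : ℝ)) ≤ V F 1 z := by
  obtain ⟨K, hK1, hK⟩ := V_lowerP
  have hK0 : 0 < K := by linarith
  obtain ⟨W, hW⟩ : ∃ W : ℕ, W = primorial (2 * g + 2) := ⟨_, rfl⟩
  have hW0 : 0 < W := by rw [hW]; exact primorial_pos _
  have hWr : (0 : ℝ) < W := by exact_mod_cast hW0
  have hWp : ∀ p : ℕ, p.Prime → p ≤ 2 * g + 2 → p ∣ W := fun p hp h => by
    rw [hW]; exact hp.dvd_primorial_iff.2 h
  have hnum : ∃ N₀ : ℕ, ∀ N : ℕ, N₀ ≤ N → 2 ≤ N ∧ W ≤ N ∧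
      W * K ^ (2 * g) * Real.log N ^ (2 * g) ≤ (N : ℝ) ^ (1 / 4 : ℝ) := by
    apply Filter.eventually_atTop.1
    filter_upwards [Filter.eventually_ge_atTop 2, Filter.eventually_ge_atTop W,
      ev_log (2 * g) (W * K ^ (2 * g)) (1 / 4) (by norm_num)] with N h1 h2 h3
    exact ⟨h1, h2, h3⟩
  obtain ⟨N₀, hN₀⟩ := hnum
  refine ⟨N₀, fun N hN F z hF hz => ?_⟩
  obtain ⟨h1, h2, h3⟩ := hN₀ N hN
  have hN0 : (0 : ℝ) < N := by exact_mod_cast (by omega : 0 < N)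
  have hlog : 0 < Real.log N := Real.log_pos (by exact_mod_cast (by omega : 1 < N))
  have h4 := hK g F W N hF h1 hWp
  have h5 := fac_low hF hW0
  have h6 := V_split (F := F) W N hW0.ne' (fun p _ hp => (Nat.le_of_dvd hW0 hp).trans h2)
  have h7 : V F 1 N ≤ V F 1 z := V_anti (g := g) hz
  have h8 : (1 / (W : ℝ)) * (1 / (K * Real.log N) ^ (2 * g)) ≤ V F 1 N := by
    rw [h6]
    exact mul_le_mul h5 h4 (by positivity) (le_trans (by positivity) h5)
  refine le_trans ?_ (h8.trans h7)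
  rw [Real.rpow_neg hN0.le, ← one_div, one_div_mul_one_div]
  apply one_div_le_one_div_of_le (by positivity)
  calc (W : ℝ) * (K * Real.log N) ^ (2 * g) = W * K ^ (2 * g) * Real.log N ^ (2 * g) := by rw [mul_pow]; ring
    _ ≤ _ := h3

open Classical in
/-- **counting in almost all short intervals** -/
theorem aas (S : Finset ℕ) (Y H D : ℕ) (v c ε κ : ℝ) (hε : 0 < ε) (hε1 : ε ≤ 1) (hκ : κ = ε ^ 2 / 100) (hv : 0 < v)
    (hc : 0 ≤ c) (hS : S ⊆ Ioc Y (Y + 2 * H))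
    (h1 : (1 - κ ^ 2) * (((2 * H : ℕ) : ℝ) * v) ≤ S.card) (h2 : (S.card : ℝ) ≤ (1 + κ ^ 2) * (((2 * H : ℕ) : ℝ) * v))
    (h3 : ∀ l : ℕ, ((∑ h ∈ Icc 1 l, (S.filter (fun n => n + h ∈ S)).card : ℕ) : ℝ) ≤
      (1 + κ ^ 2) * (((2 * H : ℕ) : ℝ) * v) * (v * l + c))
    (hD1 : 1 ≤ D) (hM : 2 * (2 * c + 1) ≤ κ ^ 2 * (v * D)) (hD : 2 * (D : ℝ) ≤ κ ^ 2 * (((2 * H : ℕ) : ℝ) * v))
    (hH : 1 ≤ κ ^ 2 * ((2 * H : ℕ) : ℝ)) :
    (((Ioc Y (Y + H)).filter (fun n => ∃ L : ℕ, L ≤ H ∧ (D : ℝ) ≤ ε / 4 * L ∧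
      ε * (v * L) < |(Xc S L n : ℝ) - v * L|)).card : ℝ) ≤ ε * H := by
  have hκ0 : 0 < κ := by rw [hκ]; positivity
  have hκ1 : κ ≤ 1 / 100 := by
    rw [hκ]
    have : ε ^ 2 ≤ 1 := pow_le_one₀ hε.le hε1
    linarith
  have hκ2 : κ ^ 2 ≤ 1 := by nlinarith
  obtain ⟨N, hN⟩ : ∃ N : ℝ, N = ((2 * H : ℕ) : ℝ) := ⟨_, rfl⟩
  obtain ⟨e, he⟩ : ∃ e : ℕ, e = Y + 2 * H := ⟨_, rfl⟩
  obtain ⟨M, hMe⟩ : ∃ M : ℝ, M = v * D := ⟨_, rfl⟩
  have hDr : (1 : ℝ) ≤ D := by exact_mod_cast hD1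
  have hM0 : 0 < M := by rw [hMe]; positivity
  rw [← hN] at h1 h2 hD hH
  rw [← hMe] at hM
  have hN0 : 0 < N := by
    by_contra hcon
    have h4 : κ ^ 2 * N ≤ 0 := mul_nonpos_of_nonneg_of_nonpos (by positivity) (not_lt.1 hcon)
    linarith
  have hN2 : N = 2 * H := by rw [hN]; push_cast; ring
  have hHpos : 0 < H := by
    have : (0 : ℝ) < H := by linarith
    exact_mod_cast this
  rw [← he] at hS
  -- the second moment
  have hX2 : ∑ n ∈ Icc Y e, (Xc S D n : ℝ) ^ 2 ≤ (1 + κ ^ 2) * (N * (M ^ 2 + (2 * c + 1) * M)) := by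
    have h4 := sumX_sq S (Icc Y e) D
    have h5 : ∑ n ∈ Icc Y e, (Xc S D n : ℝ) ^ 2 ≤ D * S.card + 2 * ∑ l ∈ range D,
        ((∑ h ∈ Icc 1 l, (S.filter (fun n => n + h ∈ S)).card : ℕ) : ℝ) := by
      have h6 : ((∑ n ∈ Icc Y e, Xc S D n * Xc S D n : ℕ) : ℝ) ≤
          ((D * S.card + 2 * ∑ l ∈ range D, ∑ h ∈ Icc 1 l, (S.filter (fun n => n + h ∈ S)).card : ℕ) : ℝ) := by
        exact_mod_cast h4
      push_cast at h6 ⊢
      simp only [pow_two]
      exact h6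
    have h6 : ∑ l ∈ range D, ((∑ h ∈ Icc 1 l, (S.filter (fun n => n + h ∈ S)).card : ℕ) : ℝ) ≤
        (1 + κ ^ 2) * (N * v) * (v * (D ^ 2 / 2) + c * D) := by
      calc _ ≤ ∑ l ∈ range D, (1 + κ ^ 2) * (N * v) * (v * l + c) := by
            apply sum_le_sum
            intro l _
            have := h3 l
            rw [← hN] at this
            exact this
        _ = (1 + κ ^ 2) * (N * v) * (v * (∑ l ∈ range D, (l : ℝ)) + c * D) := by
            rw [← mul_sum, sum_add_distrib, ← mul_sum, sum_const, card_range, nsmul_eq_mul]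
            ring
        _ ≤ _ := by
            have h7 : ∑ l ∈ range D, (l : ℝ) ≤ D ^ 2 / 2 := by
              have h8 : (∑ l ∈ range D, l) * 2 = D * (D - 1) := sum_range_id_mul_two D
              have h9 : (∑ l ∈ range D, l) * 2 ≤ D * D := by
                rw [h8]
                exact Nat.mul_le_mul_left _ (Nat.sub_le _ _)
              have h10 : ((∑ l ∈ range D, l : ℕ) : ℝ) * 2 ≤ (D : ℝ) * D := by exact_mod_cast h9
              rw [Nat.cast_sum] at h10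
              rw [pow_two]
              linarith
            gcongr
    have h7 : (D : ℝ) * S.card ≤ D * ((1 + κ ^ 2) * (N * v)) := by gcongr
    calc _ ≤ _ := h5
      _ ≤ D * ((1 + κ ^ 2) * (N * v)) + 2 * ((1 + κ ^ 2) * (N * v) * (v * (D ^ 2 / 2) + c * D)) := by linarith
      _ = _ := by rw [hMe]; ring
  have hX1 : (1 - κ ^ 2) * (N * M) - D ^ 2 ≤ ∑ n ∈ Icc Y e, (Xc S D n : ℝ) := by
    have h4 := sumX_ge S Y e D hS
    have h5 : (D : ℝ) * S.card ≤ ∑ n ∈ Icc Y e, (Xc S D n : ℝ) + D * D := by exact_mod_cast h4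
    have h6 : (D : ℝ) * ((1 - κ ^ 2) * (N * v)) ≤ D * S.card := by gcongr
    have h7 : (D : ℝ) * ((1 - κ ^ 2) * (N * v)) = (1 - κ ^ 2) * (N * M) := by rw [hMe]; ring
    nlinarith
  have hcard : ((Icc Y e).card : ℝ) = N + 1 := by
    rw [Nat.card_Icc, hN, he]
    have : Y + 2 * H + 1 - Y = 2 * H + 1 := by omega
    rw [this]
    push_cast
    ring
  have hvar : ∑ n ∈ Icc Y e, ((Xc S D n : ℝ) - M) ^ 2 ≤ 6 * κ ^ 2 * (N * M ^ 2) := by
    have h4 : ∑ n ∈ Icc Y e, ((Xc S D n : ℝ) - M) ^ 2 =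
        ∑ n ∈ Icc Y e, (Xc S D n : ℝ) ^ 2 - 2 * M * ∑ n ∈ Icc Y e, (Xc S D n : ℝ) + (N + 1) * M ^ 2 := by
      rw [← hcard, ← nsmul_eq_mul, ← sum_const, mul_sum, ← sum_sub_distrib, ← sum_add_distrib]
      apply sum_congr rfl
      intro n _
      ring
    rw [h4]
    have h5 : 2 * M * ((1 - κ ^ 2) * (N * M) - D ^ 2) ≤ 2 * M * ∑ n ∈ Icc Y e, (Xc S D n : ℝ) :=
      mul_le_mul_of_nonneg_left hX1 (by positivity)
    have h6 : (1 + κ ^ 2) * (N * ((2 * c + 1) * M)) ≤ κ ^ 2 * (N * M ^ 2) := by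
      have h7 : (1 + κ ^ 2) * (2 * c + 1) ≤ κ ^ 2 * M := by nlinarith
      calc (1 + κ ^ 2) * (N * ((2 * c + 1) * M)) = ((1 + κ ^ 2) * (2 * c + 1)) * (N * M) := by ring
        _ ≤ (κ ^ 2 * M) * (N * M) := by gcongr
        _ = _ := by ring
    have h7 : 2 * M * (D : ℝ) ^ 2 ≤ κ ^ 2 * (N * M ^ 2) := by
      calc 2 * M * (D : ℝ) ^ 2 = (2 * D) * (M * D) := by ring
        _ ≤ (κ ^ 2 * (N * v)) * (M * D) := by gcongr
        _ = κ ^ 2 * (N * M * (v * D)) := by ring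
        _ = _ := by rw [← hMe]; ring
    have h8 : M ^ 2 ≤ κ ^ 2 * (N * M ^ 2) := by
      have : 1 * M ^ 2 ≤ (κ ^ 2 * N) * M ^ 2 := by gcongr
      linarith
    nlinarith
  -- the weights
  obtain ⟨w, hw⟩ : ∃ w : ℕ → ℝ, w = fun n => |(Xc S D n : ℝ) - M| := ⟨_, rfl⟩
  have hw0 : ∀ n, 0 ≤ w n := fun n => by rw [hw]; exact abs_nonneg _
  have hwsum : ∑ n ∈ Ioc Y e, w n ≤ 7 * κ * (N * M) := by
    have h4 : ∀ n, w n ≤ ((Xc S D n : ℝ) - M) ^ 2 / (κ * M) + κ * M := by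
      intro n
      rw [hw]
      simp only
      rw [← sq_abs]
      obtain ⟨x, hx⟩ : ∃ x : ℝ, x = |(Xc S D n : ℝ) - M| := ⟨_, rfl⟩
      rw [← hx]
      have hx0 : 0 ≤ x := by rw [hx]; exact abs_nonneg _
      have hκM : 0 < κ * M := by positivity
      rw [div_add' _ _ _ hκM.ne', le_div_iff₀ hκM]
      nlinarith [sq_nonneg (x - κ * M)]
    calc ∑ n ∈ Ioc Y e, w n ≤ ∑ n ∈ Ioc Y e, (((Xc S D n : ℝ) - M) ^ 2 / (κ * M) + κ * M) :=
          sum_le_sum fun n _ => h4 n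
      _ = (∑ n ∈ Ioc Y e, ((Xc S D n : ℝ) - M) ^ 2) / (κ * M) + N * (κ * M) := by
          rw [sum_add_distrib, sum_const, Nat.card_Ioc, nsmul_eq_mul, sum_div, hN, he]
          have : Y + 2 * H - Y = 2 * H := by omega
          rw [this]
      _ ≤ (6 * κ ^ 2 * (N * M ^ 2)) / (κ * M) + N * (κ * M) := by
          gcongr
          refine le_trans (sum_le_sum_of_subset_of_nonneg ?_ fun n _ _ => sq_nonneg _) hvar
          intro n hn
          rw [mem_Ioc] at hn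
          rw [mem_Icc]
          exact ⟨hn.1.le, hn.2⟩
      _ = _ := by
          field_simp
          ring
  obtain ⟨τ, hτ⟩ : ∃ τ : ℝ, τ = ε / 4 * M := ⟨_, rfl⟩
  have hτ0 : 0 < τ := by rw [hτ]; positivity
  obtain ⟨B₁, hB₁⟩ : ∃ B₁ : Finset ℕ, B₁ = (Ico Y e).filter
    (fun n => ∃ L : ℕ, 1 ≤ L ∧ n + L ≤ e ∧ τ * L ≤ ∑ x ∈ Ioc n (n + L), w x) := ⟨_, rfl⟩
  obtain ⟨B₂, hB₂⟩ : ∃ B₂ : Finset ℕ, B₂ = (Icc Y e).filter (fun n => M < |(Xc S D n : ℝ) - M|) := ⟨_, rfl⟩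
  have hB1c : (B₁.card : ℝ) ≤ 28 * κ / ε * N := by
    have h4 := maxw w hw0 τ hτ0.le e (2 * H) Y he.symm
    rw [← hB₁] at h4
    have h5 : τ * (B₁.card : ℝ) ≤ τ * (28 * κ / ε * N) := by
      refine (h4.trans hwsum).trans (le_of_eq ?_)
      rw [hτ]
      field_simp
      norm_num
    exact le_of_mul_le_mul_left h5 hτ0
  have hB2c : (B₂.card : ℝ) ≤ 6 * κ ^ 2 * N := by
    have h4 : M ^ 2 * (B₂.card : ℝ) ≤ ∑ n ∈ Icc Y e, ((Xc S D n : ℝ) - M) ^ 2 := by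
      calc M ^ 2 * (B₂.card : ℝ) = ∑ _n ∈ B₂, M ^ 2 := by rw [sum_const, nsmul_eq_mul, mul_comm]
        _ ≤ ∑ n ∈ B₂, ((Xc S D n : ℝ) - M) ^ 2 := by
            apply sum_le_sum
            intro n hn
            rw [hB₂, mem_filter] at hn
            rw [← sq_abs ((Xc S D n : ℝ) - M)]
            exact pow_le_pow_left₀ hM0.le hn.2.le 2
        _ ≤ _ := by
            apply sum_le_sum_of_subset_of_nonneg _ fun n _ _ => sq_nonneg _
            rw [hB₂]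
            exact filter_subset _ _
    have h5 : M ^ 2 * (B₂.card : ℝ) ≤ M ^ 2 * (6 * κ ^ 2 * N) := by
      refine (h4.trans hvar).trans (le_of_eq ?_)
      ring
    exact le_of_mul_le_mul_left h5 (by positivity)
  have hsub : (Ioc Y (Y + H)).filter (fun n => ∃ L : ℕ, L ≤ H ∧ (D : ℝ) ≤ ε / 4 * L ∧
      ε * (v * L) < |(Xc S L n : ℝ) - v * L|) ⊆ B₁ ∪ B₂ := by
    intro n hn
    rw [mem_filter, mem_Ioc] at hn
    obtain ⟨⟨hn1, hn2⟩, L, hL1, hL2, hL3⟩ := hn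
    by_contra hcon
    rw [mem_union, not_or] at hcon
    obtain ⟨hc1, hc2⟩ := hcon
    have hne : n < e := by omega
    have hmax : ∀ L' : ℕ, 1 ≤ L' → n + L' ≤ e → ∑ x ∈ Ioc n (n + L'), w x < τ * L' := by
      intro L' h4 h5
      by_contra h6
      apply hc1
      rw [hB₁, mem_filter, mem_Ico]
      exact ⟨⟨hn1.le, hne⟩, L', h4, h5, not_lt.1 h6⟩
    have hXn : (Xc S D n : ℝ) ≤ 2 * M := by
      by_contra h4
      apply hc2
      rw [hB₂, mem_filter, mem_Icc]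
      refine ⟨⟨hn1.le, hne.le⟩, ?_⟩
      have h5 := not_le.1 h4
      exact lt_of_lt_of_le (by linarith) (le_abs_self _)
    have hL0 : (0 : ℝ) ≤ L := Nat.cast_nonneg _
    have hDL : D < L := by
      have h4 : (D : ℝ) < L := by
        by_contra h5
        have h6 := not_lt.1 h5
        nlinarith
      exact_mod_cast h4
    have hvL : 0 < v * L := by
      have : (0 : ℝ) < L := by exact_mod_cast (by omega : 0 < L)
      positivity
    have hlo := cnt_lo S n hDL.le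
    have hhi := cnt_hi S D L n
    have hlo' : ∑ m ∈ Ioc n (n + (L - D)), (Xc S D m : ℝ) ≤ D * Xc S L n := by exact_mod_cast hlo
    have hhi' : (D : ℝ) * Xc S L n ≤ ∑ m ∈ Ioc n (n + L), (Xc S D m : ℝ) + D * Xc S D n := by exact_mod_cast hhi
    have hcL : ((L - D : ℕ) : ℝ) = L - D := by rw [Nat.cast_sub hDL.le]
    have hD0 : (0 : ℝ) < D := by linarith
    have hlow : (1 - ε / 4) * (1 - ε / 4) * (v * L) ≤ Xc S L n := by
      have h4 : ((L : ℝ) - D) * M - τ * (L - D) ≤ ∑ m ∈ Ioc n (n + (L - D)), (Xc S D m : ℝ) := by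
        have h5 : ∑ m ∈ Ioc n (n + (L - D)), (M - w m) ≤ ∑ m ∈ Ioc n (n + (L - D)), (Xc S D m : ℝ) := by
          apply sum_le_sum
          intro m _
          rw [hw]
          simp only
          have := neg_abs_le ((Xc S D m : ℝ) - M)
          linarith
        rw [sum_sub_distrib, sum_const, Nat.card_Ioc, nsmul_eq_mul, Nat.add_sub_cancel_left, hcL] at h5
        have h6 := hmax (L - D) (by omega) (by omega)
        rw [hcL] at h6
        linarith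
      have h5 : (1 - ε / 4) * L ≤ L - D := by linarith
      have h6 : (D : ℝ) * ((1 - ε / 4) * (1 - ε / 4) * (v * L)) ≤ D * Xc S L n := by
        calc (D : ℝ) * ((1 - ε / 4) * (1 - ε / 4) * (v * L)) = ((1 - ε / 4) * M) * ((1 - ε / 4) * L) := by rw [hMe]; ring
          _ ≤ ((1 - ε / 4) * M) * (L - D) := by
              apply mul_le_mul_of_nonneg_left h5
              apply mul_nonneg (by linarith) hM0.le
          _ = (L - D) * M - τ * (L - D) := by rw [hτ]; ring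
          _ ≤ _ := h4.trans hlo'
      exact le_of_mul_le_mul_left h6 hD0
    have hupp : (Xc S L n : ℝ) ≤ (1 + ε / 4 + ε / 2) * (v * L) := by
      have h4 : ∑ m ∈ Ioc n (n + L), (Xc S D m : ℝ) ≤ L * M + τ * L := by
        have h5 : ∑ m ∈ Ioc n (n + L), (Xc S D m : ℝ) ≤ ∑ m ∈ Ioc n (n + L), (M + w m) := by
          apply sum_le_sum
          intro m _
          rw [hw]
          simp only
          have := le_abs_self ((Xc S D m : ℝ) - M)
          linarith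
        rw [sum_add_distrib, sum_const, Nat.card_Ioc, nsmul_eq_mul, Nat.add_sub_cancel_left] at h5
        have h6 := hmax L (by omega) (by omega)
        linarith
      have h5 : (D : ℝ) * Xc S D n ≤ (ε / 4 * L) * (2 * M) := by
        calc (D : ℝ) * Xc S D n ≤ D * (2 * M) := by gcongr
          _ ≤ _ := by gcongr
      have h6 : (D : ℝ) * Xc S L n ≤ D * ((1 + ε / 4 + ε / 2) * (v * L)) := by
        calc (D : ℝ) * Xc S L n ≤ (L * M + τ * L) + (ε / 4 * L) * (2 * M) := by linarith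
          _ = _ := by rw [hτ, hMe]; ring
      exact le_of_mul_le_mul_left h6 hD0
    have h7 : |(Xc S L n : ℝ) - v * L| ≤ ε * (v * L) := by
      rw [abs_le]
      constructor
      · nlinarith
      · nlinarith
    linarith
  have hfin : (((Ioc Y (Y + H)).filter (fun n => ∃ L : ℕ, L ≤ H ∧ (D : ℝ) ≤ ε / 4 * L ∧
      ε * (v * L) < |(Xc S L n : ℝ) - v * L|)).card : ℝ) ≤ (B₁.card : ℝ) + B₂.card := by
    exact_mod_cast (card_le_card hsub).trans (card_union_le _ _)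
  refine hfin.trans ?_
  have h4 : 28 * κ / ε * N = 56 / 100 * ε * H := by
    rw [hκ, hN2]
    field_simp
    ring
  have h5 : 6 * κ ^ 2 * N ≤ 44 / 100 * ε * H := by
    rw [hN2]
    have h6 : κ ^ 2 ≤ 1 / 100 * ε := by
      have h7 : κ ≤ ε := by
        rw [hκ]
        nlinarith
      nlinarith
    have hHr : (0 : ℝ) ≤ H := Nat.cast_nonneg _
    nlinarith
  linarith

end Pool.Agent.U497.AW
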