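import Pool.Agent.U497.AW.Avg
import Pool.Agent.U28.PG.Ladder
import Pool.Agent.U28.PG.Comb
import Pool.Agent.U497.UT.Sysm
import Pool.Agent.Y677.RSZ.Mer

/-!
# Dense subsets of sifted sets in all short intervals (helper497)
-/

set_option autoImplicit false

open Finset Filter Topology

namespace Pool.Agent.U497.AW

open Pool.Agent.TH423.SH (PS)
open Pool.Agent.Y677.RSZ (rt rhoT V rs fac_nonneg fac_le exJ ev_log V_le_one V_split mer)
open Pool.Agent.K3h89.SZ (SysP CF V_lowerP V_posP card_shiftP perP_mod)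

lemma fac_low {g : ℕ} {F : ℤ → ℤ} (hF : SysP g F) {W : ℕ} (hW0 : 0 < W) :
    (1 : ℝ) / W ≤ ∏ p ∈ W.primeFactors, (1 - (rt F p : ℝ) / p) := by
  have hWr : (0 : ℝ) < W := by exact_mod_cast hW0
  have h3 : ∏ p ∈ W.primeFactors, (1 : ℝ) / p ≤ ∏ p ∈ W.primeFactors, (1 - (rt F p : ℝ) / p) := by
    apply Finset.prod_le_prod
    · intro p _
      positivity
    · intro p hp
      have hpp := Nat.prime_of_mem_primeFactors hp
      have hp0 : (0 : ℝ) < p := by exact_mod_cast hpp.pos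
      have h4 : (rt F p : ℝ) + 1 ≤ p := by exact_mod_cast (hF.root p hpp).2
      rw [div_le_iff₀ hp0, sub_mul, div_mul_cancel₀ _ hp0.ne']
      linarith
  refine le_trans ?_ h3
  rw [prod_div_distrib, prod_const_one]
  apply one_div_le_one_div_of_le
  · apply prod_pos
    intro p hp
    exact_mod_cast (Nat.prime_of_mem_primeFactors hp).pos
  · have h5 := Nat.le_of_dvd hW0 (Nat.prod_primeFactors_dvd W)
    rw [← Nat.cast_prod]
    exact_mod_cast h5

lemma V_anti {g : ℕ} {F : ℤ → ℤ} {W z H : ℕ} (hzle : z ≤ H) : V F W H ≤ V F W z := by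
  unfold V
  have hsub : PS W z ⊆ PS W H := by
    intro p hp
    unfold PS at hp ⊢
    rw [mem_filter, mem_Icc] at hp ⊢
    exact ⟨⟨hp.1.1, hp.1.2.trans hzle⟩, hp.2⟩
  rw [← prod_sdiff hsub]
  exact mul_le_of_le_one_left (prod_nonneg fun p _ => fac_nonneg p)
    (prod_le_one (fun p _ => fac_nonneg p) (fun p _ => fac_le p))

lemma V_anti1 {F : ℤ → ℤ} {W H : ℕ} : V F 1 H ≤ V F W H := by
  unfold V
  have hsub : PS W H ⊆ PS 1 H := by
    intro p hp
    unfold PS at hp ⊢
    rw [mem_filter] at hp ⊢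
    exact ⟨hp.1, hp.2.1, by rw [Nat.dvd_one]; exact hp.2.1.ne_one⟩
  rw [← prod_sdiff hsub]
  exact mul_le_of_le_one_left (prod_nonneg fun p _ => fac_nonneg p)
    (prod_le_one (fun p _ => fac_nonneg p) (fun p _ => fac_le p))

/-- the sieve products are comparable -/
lemma V_comp (g E W : ℕ) (hE : 1 ≤ E) (hW0 : 0 < W) : ∃ K : ℝ, 1 ≤ K ∧ ∃ H₀ : ℕ, ∀ (F : ℤ → ℤ) (z H : ℕ),
    SysP g F → H₀ ≤ H → z ≤ H → H < z ^ (8 * E) → V F W z ≤ K * V F 1 H := by
  obtain ⟨c, hc, hmer⟩ := mer g (8 * E) (by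
    have : (1 : ℝ) ≤ E := by exact_mod_cast hE
    linarith)
  have hWr : (1 : ℝ) ≤ W := by exact_mod_cast hW0
  refine ⟨max 1 (W / c), le_max_left _ _, (2 * g + 2) ^ (8 * E) + W, fun F z H hF hH hzH hHz => ?_⟩
  have hz : 2 * g + 2 ≤ z := by
    by_contra hcon
    have h1 : z ^ (8 * E) ≤ (2 * g + 2) ^ (8 * E) := Nat.pow_le_pow_left (by omega) _
    omega
  have hlog : Real.log H ≤ 8 * E * Real.log z := by
    have h1 : (H : ℝ) ≤ (z : ℝ) ^ (8 * E) := by exact_mod_cast hHz.le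
    have h2 : (0 : ℝ) < H := by exact_mod_cast (by omega : 0 < H)
    have h3 := Real.log_le_log h2 h1
    rw [Real.log_pow] at h3
    push_cast at h3
    exact h3
  have h1 := hmer z H hz hzH hlog
  have hVz := V_posP hF W z
  have h2 : c * V F W z ≤ V F W H := by
    have hsub : PS W z ⊆ PS W H := by
      intro p hp
      unfold PS at hp ⊢
      rw [mem_filter, mem_Icc] at hp ⊢
      exact ⟨⟨hp.1.1, hp.1.2.trans hzH⟩, hp.2⟩
    have h3 : c ≤ ∏ p ∈ PS W H \ PS W z, (1 - (rt F p : ℝ) / p) := by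
      refine h1.trans ?_
      have hsub2 : PS W H \ PS W z ⊆ (Ioc z H).filter Nat.Prime := by
        intro p hp
        rw [Finset.mem_sdiff] at hp
        have h4 := ps_prime p hp.1
        have h5 := ps_le p hp.1
        have h6 := ps_ndvd p hp.1
        rw [mem_filter, mem_Ioc]
        refine ⟨⟨?_, h5⟩, h4⟩
        by_contra hcon
        apply hp.2
        unfold PS
        rw [mem_filter, mem_Icc]
        exact ⟨⟨h4.one_lt.le, by omega⟩, h4, h6⟩
      have hfac : ∀ p ∈ (Ioc z H).filter Nat.Prime, 0 ≤ 1 - (g : ℝ) / p ∧ 1 - (g : ℝ) / p ≤ 1 := by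
        intro p hp
        rw [mem_filter, mem_Ioc] at hp
        have h4 : (0 : ℝ) < p := by exact_mod_cast hp.2.pos
        have h5 : (g : ℝ) ≤ p := by exact_mod_cast (by omega : g ≤ p)
        have h6 : (g : ℝ) / p ≤ 1 := (div_le_one h4).2 h5
        have h7 : 0 ≤ (g : ℝ) / p := by positivity
        constructor <;> linarith
      calc ∏ p ∈ (Ioc z H).filter Nat.Prime, (1 - (g : ℝ) / p) ≤ ∏ p ∈ PS W H \ PS W z, (1 - (g : ℝ) / p) := by
            rw [← prod_sdiff hsub2]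
            exact mul_le_of_le_one_left (prod_nonneg fun p hp => (hfac p (hsub2 hp)).1)
              (prod_le_one (fun p hp => (hfac p (Finset.mem_sdiff.1 hp).1).1)
                (fun p hp => (hfac p (Finset.mem_sdiff.1 hp).1).2))
        _ ≤ _ := by
            apply prod_le_prod (fun p hp => (hfac p (hsub2 hp)).1)
            intro p hp
            have h4 := ps_prime p (Finset.mem_sdiff.1 hp).1
            have h5 : (rt F p : ℝ) ≤ g := by exact_mod_cast (hF.root p h4).1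
            have h6 : (0 : ℝ) < p := by exact_mod_cast h4.pos
            have : (rt F p : ℝ) / p ≤ (g : ℝ) / p := by gcongr
            linarith
    have h4 : V F W H = (∏ p ∈ PS W H \ PS W z, (1 - (rt F p : ℝ) / p)) * V F W z := by
      unfold V
      rw [prod_sdiff hsub]
    rw [h4]
    gcongr
  have h3 : V F W H ≤ W * V F 1 H := by
    rw [V_split W H hW0.ne' (fun p hp hpW => (Nat.le_of_dvd hW0 hpW).trans (by omega))]
    have h4 := fac_low hF hW0
    have h5 : 0 < V F W H := V_posP hF W H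
    have h6 : (W : ℝ) * ((1 : ℝ) / W * V F W H) ≤ W * ((∏ p ∈ W.primeFactors, (1 - (rt F p : ℝ) / p)) * V F W H) := by
      gcongr
    have h7 : (W : ℝ) * ((1 : ℝ) / W * V F W H) = V F W H := by
      field_simp
    linarith
  have h4 : 0 < V F 1 H := V_posP hF 1 H
  have h5 : V F W z ≤ W / c * V F 1 H := by
    rw [div_mul_eq_mul_div, le_div_iff₀ hc]
    linarith
  refine h5.trans ?_
  gcongr
  exact le_max_right _ _

open Classical in
/-- **dense subsets of a sifted set have their elements in all short intervals around a positive proportion of the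
points** -/
theorem gen (g : ℕ) (δ κ : ℝ) (hδ : 0 < δ) (hκ : 0 < κ) : ∃ c : ℝ, 0 < c ∧ ∃ H₀ : ℕ,
    ∀ (F : ℤ → ℤ) (Y H : ℕ) (S : Finset ℕ), SysP g F → H₀ ≤ H → S ⊆ Ioc Y (Y + H) →
    (∀ n ∈ S, ∀ p : ℕ, p.Prime → (p : ℝ) ≤ (H : ℝ) ^ δ → ¬ (p : ℤ) ∣ F (n : ℤ)) →
    κ * (H * V F 1 H) ≤ S.card →
    c * H ≤ (((Ioc Y (Y + H)).filter (fun n : ℕ => ∀ L : ℕ, 1 ≤ V F 1 H * L → L ≤ H →
      c * (V F 1 H * L) ≤ ((S.filter (fun x => x ∈ Ioc n (n + L))).card : ℝ))).card : ℝ) := by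
  obtain ⟨s, hs⟩ := avg g
  obtain ⟨W, E, H₁, hW0, hE, hWp, hupp⟩ := upp (2 * g) (s + (2 * g + 2)) δ hδ
  obtain ⟨K, hK1, H₂, hcomp⟩ := V_comp g E W hE hW0
  obtain ⟨K₀, E₀, H₃, hK₀, hVlow⟩ := Pool.Agent.U497.UT.v_low g
  obtain ⟨C₁, hC₁⟩ : ∃ C₁ : ℝ, C₁ = 3 * Real.exp (6 * (g : ℝ) ^ 2) * (2 + 4 * (g : ℝ) ^ 2 + g) := ⟨_, rfl⟩
  have hC₁0 : 0 < C₁ := by rw [hC₁]; positivity
  obtain ⟨R, hR⟩ : ∃ R : ℝ, R = 2 * C₁ * K / κ := ⟨_, rfl⟩
  have hR0 : 0 < R := by rw [hR]; positivity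
  obtain ⟨c, hc⟩ : ∃ c : ℝ, c = κ / (4 * K) := ⟨_, rfl⟩
  have hc0 : 0 < c := by rw [hc]; positivity
  obtain ⟨c', hc'⟩ : ∃ c' : ℝ, c' = c / (16 * (R + 1)) := ⟨_, rfl⟩
  have hc'0 : 0 < c' := by rw [hc']; positivity
  obtain ⟨H₄, hH₄⟩ := eventually_atTop.1 ((Pool.Agent.U497.UT.ev_sqrt E₀ (3 * K₀ * (1 + 1 / c'))).and
    (eventually_ge_atTop 2))
  refine ⟨c', hc'0, max (max H₁ H₂) (max H₃ H₄), fun F Y H S hF hH hSI hS hScard => ?_⟩
  have hH1 : H₁ ≤ H := (le_max_left _ _).trans ((le_max_left _ _).trans hH)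
  have hH2 : H₂ ≤ H := (le_max_right _ _).trans ((le_max_left _ _).trans hH)
  have hH3 : H₃ ≤ H := (le_max_left _ _).trans ((le_max_right _ _).trans hH)
  have hH4 : H₄ ≤ H := (le_max_right _ _).trans ((le_max_right _ _).trans hH)
  obtain ⟨q1, q2⟩ := hH₄ H hH4
  have hHr : (1 : ℝ) ≤ H := by exact_mod_cast (by omega : 1 ≤ H)
  have hlgpos : 0 < Real.log (H : ℝ) := Real.log_pos (by exact_mod_cast (by omega : 1 < H))
  have hH0 : (0 : ℝ) < H := by linarith
  obtain ⟨z, hzδ, hzH, hHz, hup⟩ := hupp H hH1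
  obtain ⟨V0, hV0⟩ : ∃ V0 : ℝ, V0 = V F W z := ⟨_, rfl⟩
  obtain ⟨μ, hμ⟩ : ∃ μ : ℝ, μ = V F 1 H := ⟨_, rfl⟩
  have hV0pos : 0 < V0 := by rw [hV0]; exact V_posP hF W z
  have hμpos : 0 < μ := by rw [hμ]; exact V_posP hF 1 H
  have hV01 : V0 ≤ 1 := by
    rw [hV0]
    unfold V
    exact prod_le_one (fun p _ => fac_nonneg p) (fun p _ => fac_le p)
  have hμV : μ ≤ V0 := by
    rw [hμ, hV0]
    exact V_anti1.trans (V_anti (g := g) hzH)
  have hVμ : V0 ≤ K * μ := by
    rw [hμ, hV0]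
    exact hcomp F z H hF hH2 hzH hHz
  have hμlow := hVlow F H hF hH3
  rw [← hμ] at hμlow hScard ⊢
  obtain ⟨D, hD⟩ : ∃ D : ℕ, D = ⌈1 / V0⌉₊ := ⟨_, rfl⟩
  have h1V : 1 ≤ 1 / V0 := by rw [le_div_iff₀ hV0pos]; linarith
  have hDlow : 1 / V0 ≤ D := by rw [hD]; exact Nat.le_ceil _
  have hD1r : (1 : ℝ) ≤ D := h1V.trans hDlow
  have hD1 : 1 ≤ D := by exact_mod_cast hD1r
  have hDup : (D : ℝ) ≤ 2 / V0 := by
    have h1 : (D : ℝ) < 1 / V0 + 1 := by rw [hD]; exact Nat.ceil_lt_add_one (by positivity)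
    have h2 : 2 / V0 = 1 / V0 + 1 / V0 := by ring
    linarith
  -- `D` is small
  have hDsm : (D : ℝ) + 1 ≤ c' * H ∧ (D : ℝ) ≤ H := by
    have h1 : (D : ℝ) + 1 ≤ 3 / V0 := by
      have : 3 / V0 = 2 / V0 + 1 / V0 := by ring
      linarith
    have h2 : 3 / V0 ≤ 3 * (K₀ * Real.log H ^ E₀) := by
      have h3 : 1 / V0 ≤ 1 / μ := one_div_le_one_div_of_le hμpos hμV
      have h4 : 0 < K₀ * Real.log (H : ℝ) ^ E₀ := mul_pos hK₀ (pow_pos hlgpos E₀)
      have h5 : 1 / μ ≤ K₀ * Real.log H ^ E₀ := by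
        rw [div_le_iff₀ hμpos]
        rw [div_le_iff₀ h4] at hμlow
        linarith
      have h6 : 3 / V0 = 3 * (1 / V0) := by ring
      rw [h6]
      linarith
    have h3 : √(H : ℝ) ≤ H := by
      rw [Real.sqrt_le_left hH0.le]
      nlinarith
    have h4 : 3 * K₀ * (1 + 1 / c') * Real.log H ^ E₀ ≤ H := q1.trans h3
    have h5 : 0 ≤ K₀ * Real.log (H : ℝ) ^ E₀ := by
      have := Real.log_natCast_nonneg H
      positivity
    have h6 : 3 * K₀ * (1 + 1 / c') * Real.log H ^ E₀ = 3 * (K₀ * Real.log H ^ E₀) + 3 * (K₀ * Real.log H ^ E₀) / c' := by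
      ring
    have h7 : 0 ≤ 3 * (K₀ * Real.log H ^ E₀) / c' := by positivity
    constructor
    · have h8 : 3 * (K₀ * Real.log H ^ E₀) / c' ≤ H := by linarith
      rw [div_le_iff₀ hc'0] at h8
      linarith
    · linarith
  -- the pairs
  have hpair : ∀ h : ℕ, ((S.filter (fun n => n + h ∈ S)).card : ℝ) ≤
      3 * Real.exp (6 * (g : ℝ) ^ 2) * H * V0 ^ 2 * Real.exp (∑ p ∈ PS W z, (cc F h p : ℝ) / p) := by
    intro h
    have hWg : ∀ p : ℕ, p.Prime → p ≤ 2 * g → p ∣ W := fun p hp hpg => hWp p hp (by omega)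
    have h1 := hup (Fh F (PS W z) h) Y (Fh_sys hF hWg h) (S.filter (fun n => n + h ∈ S))
      ((filter_subset _ _).trans hSI) (by
        intro n hn p hp hd
        rw [mem_filter] at hn
        rw [Fh_dvd ps_prime (ps_prime p hp)] at hd
        have hpz : (p : ℝ) ≤ (H : ℝ) ^ δ := le_trans (by exact_mod_cast ps_le p hp) hzδ
        rcases hd.2 with h2 | h2
        · exact hS n hn.1 p (ps_prime p hp) hpz h2
        · refine hS (n + h) hn.2 p (ps_prime p hp) hpz ?_
          push_cast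
          exact h2)
    have h2 := V_Fh hF hWg h (z := z)
    rw [← hV0] at h2
    calc _ ≤ 3 * (H * V (Fh F (PS W z) h) W z) := h1
      _ ≤ 3 * (H * (Real.exp (6 * (g : ℝ) ^ 2) * V0 ^ 2 * Real.exp (∑ p ∈ PS W z, (cc F h p : ℝ) / p))) := by gcongr
      _ = _ := by ring
  set r : ℕ → ℕ := fun n => ((Icc 1 D).filter (fun h => n + h ∈ S)).card with hr
  have hrsum : ∑ n ∈ S, (r n : ℝ) ≤ C₁ * (H * V0) := by
    have h1 : ∑ n ∈ S, (r n : ℝ) = ∑ h ∈ Icc 1 D, ((S.filter (fun n => n + h ∈ S)).card : ℝ) := by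
      have h2 : ∑ n ∈ S, r n = ∑ h ∈ Icc 1 D, (S.filter (fun n => n + h ∈ S)).card := by
        simp only [hr, card_filter]
        exact sum_comm
      exact_mod_cast h2
    rw [h1]
    have h3 := hs F W z D hF (fun p hp hps => hWp p hp (by omega))
    rw [← hV0] at h3
    calc ∑ h ∈ Icc 1 D, ((S.filter (fun n => n + h ∈ S)).card : ℝ) ≤
          ∑ h ∈ Icc 1 D, 3 * Real.exp (6 * (g : ℝ) ^ 2) * H * V0 ^ 2 * Real.exp (∑ p ∈ PS W z, (cc F h p : ℝ) / p) :=
          sum_le_sum fun h _ => hpair h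
      _ = 3 * Real.exp (6 * (g : ℝ) ^ 2) * H * V0 ^ 2 *
            ∑ h ∈ Icc 1 D, Real.exp (∑ p ∈ PS W z, (cc F h p : ℝ) / p) := by rw [mul_sum]
      _ ≤ 3 * Real.exp (6 * (g : ℝ) ^ 2) * H * V0 ^ 2 * ((1 + 2 * (g : ℝ) ^ 2) * D + g / V0) := by gcongr
      _ ≤ 3 * Real.exp (6 * (g : ℝ) ^ 2) * H * V0 ^ 2 * ((1 + 2 * (g : ℝ) ^ 2) * (2 / V0) + g / V0) := by gcongr
      _ = C₁ * (H * V0) := by
          rw [hC₁]
          field_simp
          ring
  obtain ⟨G, hG⟩ : ∃ G : Finset ℕ, G = S.filter (fun n => (r n : ℝ) ≤ R) := ⟨_, rfl⟩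
  have hGcard : κ / 2 * (H * μ) ≤ G.card := by
    have h1 : ((S.filter (fun n => ¬ (r n : ℝ) ≤ R)).card : ℝ) * R ≤ C₁ * (H * V0) := by
      refine le_trans ?_ hrsum
      rw [← nsmul_eq_mul]
      refine (card_nsmul_le_sum _ _ R ?_).trans (sum_le_sum_of_subset_of_nonneg (filter_subset _ _)
        (fun _ _ _ => Nat.cast_nonneg _))
      intro n hn
      exact (not_le.1 (mem_filter.1 hn).2).le
    have h2 : C₁ * (H * V0) ≤ κ / 2 * (H * μ) * R := by
      have h3 : C₁ * (H * V0) ≤ C₁ * (H * (K * μ)) := by gcongr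
      refine h3.trans (le_of_eq ?_)
      rw [hR]
      field_simp
    have h3 : ((S.filter (fun n => ¬ (r n : ℝ) ≤ R)).card : ℝ) ≤ κ / 2 * (H * μ) :=
      le_of_mul_le_mul_right (h1.trans h2) hR0
    have h4 : (G.card : ℝ) + (S.filter (fun n => ¬ (r n : ℝ) ≤ R)).card = S.card := by
      rw [hG]
      exact_mod_cast card_filter_add_card_filter_not (s := S) (fun n => (r n : ℝ) ≤ R)
    linarith
  have hsp := Pool.Agent.U28.PG.sparse_card (fun n => n ∈ S) G D R hR0.le
    (fun n hn => by rw [hG] at hn; exact (mem_filter.1 hn).1)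
    (fun n hn => by rw [hG] at hn; exact (mem_filter.1 hn).2)
  -- the shifted set
  have hGS : ∀ n ∈ G, n ∈ S ∧ Y < n ∧ n ≤ Y + H := by
    intro n hn
    rw [hG] at hn
    have h1 := (mem_filter.1 hn).1
    have h2 := mem_Ioc.1 (hSI h1)
    exact ⟨h1, h2.1, h2.2⟩
  obtain ⟨G', hG'⟩ : ∃ G' : Finset ℕ, G' = G.image (fun n => n - Y + D) := ⟨_, rfl⟩
  have hG'mem : ∀ x, x ∈ G' → D < x ∧ x ≤ H + D ∧ x - D + Y ∈ G := by
    intro x hx
    rw [hG', mem_image] at hx
    obtain ⟨n, hn, rfl⟩ := hx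
    obtain ⟨-, h2, h3⟩ := hGS n hn
    refine ⟨by omega, by omega, ?_⟩
    rw [show n - Y + D - D + Y = n by omega]
    exact hn
  have hG'card : G'.card = G.card := by
    rw [hG']
    apply card_image_of_injOn
    intro a ha b hb hab
    have h1 := hGS a ha
    have h2 := hGS b hb
    simp only at hab
    omega
  have hsp' : ∀ a, ((G'.filter (fun n => n ∈ Ioc a (a + D))).card : ℝ) ≤ R + 1 := by
    intro a
    refine le_trans ?_ (hsp (a + Y - D))
    have h1 : (G'.filter (fun n => n ∈ Ioc a (a + D))).card ≤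
        (G.filter (fun n => n ∈ Ioc (a + Y - D) (a + Y - D + D))).card := by
      apply card_le_card_of_injOn (fun x => x - D + Y)
      · intro x hx
        rw [mem_coe, mem_filter, mem_Ioc] at hx
        obtain ⟨h2, h3, h4⟩ := hG'mem x hx.1
        rw [mem_coe, mem_filter, mem_Ioc]
        refine ⟨h4, ?_, ?_⟩ <;> (simp only; omega)
      · intro x hx y hy hxy
        rw [mem_coe, mem_filter] at hx hy
        have h2 := hG'mem x hx.1
        have h3 := hG'mem y hy.1
        simp only at hxy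
        omega
    exact_mod_cast h1
  have hN1 : 1 ≤ H + D := by omega
  have hall := Pool.Agent.U28.PG.all_scales G' (H + D) D hN1 hD1 (fun n hn => ⟨(hG'mem n hn).1.le, (hG'mem n hn).2.1⟩)
    (R + 1) c (by positivity) hc0 hsp' (by
      rw [hG'card]
      refine le_trans ?_ hGcard
      have h1 : ((H + D : ℕ) : ℝ) / D ≤ 2 * H * V0 := by
        push_cast
        have h2 : 1 / (D : ℝ) ≤ V0 := by
          rw [div_le_iff₀ (by linarith)]
          rw [div_le_iff₀ hV0pos] at hDlow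
          linarith
        calc ((H : ℝ) + D) / D = (H + D) * (1 / D) := by ring
          _ ≤ (H + H) * V0 := by
              have := hDsm.2
              gcongr
          _ = _ := by ring
      calc c * (((H + D : ℕ) : ℝ) / D) ≤ c * (2 * H * (K * μ)) := by
            have h2 : 2 * (H : ℝ) * V0 ≤ 2 * H * (K * μ) := by gcongr
            have h3 := h1.trans h2
            gcongr
        _ = κ / 2 * (H * μ) := by
            rw [hc]
            field_simp
            ring)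
  -- the end
  set Gd : Finset ℕ := (range (H + D + 1)).filter (fun n => ∀ L, D ≤ L → L ≤ H + D →
      c / 8 * ((L : ℝ) / D) ≤ ((G'.filter (fun x => x ∈ Ioc n (n + L))).card : ℝ)) with hGd
  have hfin : Gd.card ≤ ((Ioc Y (Y + H)).filter (fun n : ℕ => ∀ L : ℕ, 1 ≤ μ * L → L ≤ H →
      c' * (μ * L) ≤ ((S.filter (fun x => x ∈ Ioc n (n + L))).card : ℝ))).card + (D + 1) := by
    have h1 : Gd ⊆ (((Ioc Y (Y + H)).filter (fun n : ℕ => ∀ L : ℕ, 1 ≤ μ * L → L ≤ H →
        c' * (μ * L) ≤ ((S.filter (fun x => x ∈ Ioc n (n + L))).card : ℝ))).image (fun n => n - Y + D)) ∪ range (D + 1) := by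
      intro n hn
      rw [hGd, mem_filter, mem_range] at hn
      rw [mem_union]
      by_cases hnD : n ≤ D
      · right
        rw [mem_range]
        omega
      · left
        rw [mem_image]
        refine ⟨n - D + Y, ?_, by omega⟩
        rw [mem_filter, mem_Ioc]
        refine ⟨⟨by omega, by omega⟩, fun L hL1 hL2 => ?_⟩
        have hDL : D ≤ L := by
          rw [hD]
          apply Nat.ceil_le.2
          rw [div_le_iff₀ hV0pos]
          have : μ * (L : ℝ) ≤ V0 * L := by gcongr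
          linarith
        have h2 := hn.2 L hDL (by omega)
        have h3 : (G'.filter (fun x => x ∈ Ioc n (n + L))).card ≤
            (S.filter (fun x => x ∈ Ioc (n - D + Y) (n - D + Y + L))).card := by
          apply card_le_card_of_injOn (fun x => x - D + Y)
          · intro x hx
            rw [mem_coe, mem_filter, mem_Ioc] at hx
            obtain ⟨h4, h5, h6⟩ := hG'mem x hx.1
            rw [mem_coe, mem_filter, mem_Ioc]
            refine ⟨(hGS _ h6).1, ?_, ?_⟩ <;> (simp only; omega)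
          · intro x hx y hy hxy
            rw [mem_coe, mem_filter] at hx hy
            have h4 := hG'mem x hx.1
            have h5 := hG'mem y hy.1
            simp only at hxy
            omega
        have h4 : c' * (μ * L) ≤ c / 8 * ((L : ℝ) / D) := by
          have h5 : μ * D ≤ 2 := by
            calc μ * D ≤ V0 * (2 / V0) := by gcongr
              _ = 2 := by field_simp
          have h6 : μ * (L : ℝ) ≤ 2 * (L / D) := by
            rw [mul_div_assoc', le_div_iff₀ (by linarith)]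
            calc μ * (L : ℝ) * D = (μ * D) * L := by ring
              _ ≤ 2 * L := by gcongr
          have h7 : c' ≤ c / 16 := by
            rw [hc']
            apply div_le_div_of_nonneg_left hc0.le (by norm_num)
            linarith
          calc c' * (μ * L) ≤ c / 16 * (2 * (L / D)) := by gcongr
            _ = _ := by ring
        calc c' * (μ * L) ≤ c / 8 * ((L : ℝ) / D) := h4
          _ ≤ _ := h2
          _ ≤ _ := by exact_mod_cast h3
    refine (card_le_card h1).trans ((card_union_le _ _).trans ?_)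
    rw [card_range]
    exact Nat.add_le_add_right card_image_le _
  have hfin' : (Gd.card : ℝ) ≤ (((Ioc Y (Y + H)).filter (fun n : ℕ => ∀ L : ℕ, 1 ≤ μ * L → L ≤ H →
      c' * (μ * L) ≤ ((S.filter (fun x => x ∈ Ioc n (n + L))).card : ℝ))).card : ℝ) + (D + 1) := by exact_mod_cast hfin
  have h9 : 2 * c' * H ≤ c / (8 * (R + 1)) * ((H + D : ℕ) : ℝ) := by
    have h10 : c / (8 * (R + 1)) = 2 * c' := by
      rw [hc']
      field_simp
      norm_num
    rw [h10]
    push_cast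
    have : 0 ≤ 2 * c' * (D : ℝ) := by positivity
    linarith
  linarith [hDsm.1]

end Pool.Agent.U497.AW
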