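import Pool.Agent.U497.AW.Upp
import Pool.Agent.U497.UT.Med

/-!
# Pairs of numbers with a given difference for which `F` has no small prime factor (helper497)
-/

set_option autoImplicit false

open Finset

namespace Pool.Agent.U497.AW

open Pool.Agent.TH423.SH (PS)
open Pool.Agent.Y677.RSZ (rt rhoT V rs fac_nonneg fac_le exJ ev_log V_le_one)
open Pool.Agent.K3h89.SZ (SysP CF V_lowerP V_posP card_shiftP perP_mod)

/-- the number of the `r < p` for which `p` divides `F r` and `F (r + h)` -/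
def cc (F : ℤ → ℤ) (h p : ℕ) : ℕ := ((range p).filter (fun r : ℕ => (p : ℤ) ∣ F r ∧ (p : ℤ) ∣ F ((r + h : ℕ) : ℤ))).card

open Classical in
/-- the function with the prime factors of `F x` and of `F (x + h)` in `P` -/
noncomputable def Fh (F : ℤ → ℤ) (P : Finset ℕ) (h : ℕ) (x : ℤ) : ℤ :=
  ∏ p ∈ P.filter (fun p : ℕ => (p : ℤ) ∣ F x ∨ (p : ℤ) ∣ F (x + h)), (p : ℤ)

lemma Fh_dvd {F : ℤ → ℤ} {P : Finset ℕ} (hP : ∀ p ∈ P, p.Prime) {h p : ℕ} (hp : p.Prime) (x : ℤ) :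
    (p : ℤ) ∣ Fh F P h x ↔ p ∈ P ∧ ((p : ℤ) ∣ F x ∨ (p : ℤ) ∣ F (x + h)) := by
  classical
  unfold Fh
  constructor
  · intro hd
    obtain ⟨q, hq, hpq⟩ := (Nat.prime_iff_prime_int.1 hp).exists_mem_finset_dvd hd
    rw [mem_filter] at hq
    have h1 : p = q := (Nat.prime_dvd_prime_iff_eq hp (hP q hq.1)).1 (Int.natCast_dvd_natCast.1 hpq)
    subst h1
    exact hq
  · intro h1
    exact dvd_prod_of_mem (fun p : ℕ => (p : ℤ)) (mem_filter.2 h1)

lemma ps_prime {W z : ℕ} : ∀ p ∈ PS W z, p.Prime := by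
  intro p hp
  unfold PS at hp
  exact (mem_filter.1 hp).2.1

lemma ps_ndvd {W z : ℕ} : ∀ p ∈ PS W z, ¬ p ∣ W := by
  intro p hp
  unfold PS at hp
  exact (mem_filter.1 hp).2.2

lemma ps_le {W z : ℕ} : ∀ p ∈ PS W z, p ≤ z := by
  intro p hp
  unfold PS at hp
  exact (mem_Icc.1 (mem_filter.1 hp).1).2

/-- the roots of the shifted function -/
lemma rt_shift {g : ℕ} {F : ℤ → ℤ} (hF : SysP g F) {p : ℕ} (hp : p.Prime) (h : ℕ) :
    ((range p).filter (fun r : ℕ => (p : ℤ) ∣ F ((r + h : ℕ) : ℤ))).card = rt F p := by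
  have h1 := card_shiftP hp (hF.per p hp) 1 h 0 (fun h => hp.one_lt.ne' (Nat.dvd_one.1 h))
  rw [← h1]
  congr 1
  ext r
  rw [mem_filter, mem_filter, one_mul, add_zero]

lemma cc_le {g : ℕ} {F : ℤ → ℤ} (h p : ℕ) : cc F h p ≤ rt F p := by
  unfold cc rt
  apply card_le_card
  intro r hr
  rw [mem_filter] at hr ⊢
  exact ⟨hr.1, hr.2.1⟩

lemma rt_Fh {g : ℕ} {F : ℤ → ℤ} (hF : SysP g F) {P : Finset ℕ} (hP : ∀ p ∈ P, p.Prime) {p : ℕ} (hp : p ∈ P) (h : ℕ) :
    rt (Fh F P h) p + cc F h p = 2 * rt F p := by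
  have hpp := hP p hp
  have h1 : (range p).filter (fun r : ℕ => (p : ℤ) ∣ Fh F P h (r : ℤ)) =
      (range p).filter (fun r : ℕ => (p : ℤ) ∣ F r) ∪ (range p).filter (fun r : ℕ => (p : ℤ) ∣ F ((r + h : ℕ) : ℤ)) := by
    ext r
    rw [mem_union, mem_filter, mem_filter, mem_filter, Fh_dvd hP hpp]
    push_cast
    tauto
  have h2 : cc F h p = ((range p).filter (fun r : ℕ => (p : ℤ) ∣ F r) ∩
      (range p).filter (fun r : ℕ => (p : ℤ) ∣ F ((r + h : ℕ) : ℤ))).card := by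
    unfold cc
    congr 1
    ext r
    rw [mem_inter, mem_filter, mem_filter, mem_filter]
    tauto
  have h3 := card_union_add_card_inter ((range p).filter (fun r : ℕ => (p : ℤ) ∣ F r))
    ((range p).filter (fun r : ℕ => (p : ℤ) ∣ F ((r + h : ℕ) : ℤ)))
  rw [← h1, ← h2, rt_shift hF hpp h] at h3
  unfold rt at h3 ⊢
  omega

lemma Fh_sys {g : ℕ} {F : ℤ → ℤ} (hF : SysP g F) {W z : ℕ} (hW : ∀ p : ℕ, p.Prime → p ≤ 2 * g → p ∣ W) (h : ℕ) :
    SysP (2 * g) (Fh F (PS W z) h) := by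
  constructor
  · intro p hp n
    rw [Fh_dvd ps_prime hp, Fh_dvd ps_prime hp, hF.per p hp n]
    have h1 : n + (p : ℤ) + h = (n + h) + p := by ring
    rw [h1, hF.per p hp (n + h)]
  · intro p hp
    by_cases hpP : p ∈ PS W z
    · have h1 := rt_Fh hF ps_prime hpP h
      have h2 := (hF.root p hp).1
      have h3 : 2 * g < p := by
        by_contra hcon
        exact ps_ndvd p hpP (hW p hp (by omega))
      omega
    · have h1 : rt (Fh F (PS W z) h) p = 0 := by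
        unfold rt
        rw [card_eq_zero, filter_eq_empty_iff]
        intro r _ hd
        rw [Fh_dvd ps_prime hp] at hd
        exact hpP hd.1
      rw [h1]
      exact ⟨Nat.zero_le _, hp.pos⟩

/-- the sieve product for the pairs -/
lemma V_Fh {g : ℕ} {F : ℤ → ℤ} (hF : SysP g F) {W z : ℕ} (hW : ∀ p : ℕ, p.Prime → p ≤ 2 * g → p ∣ W) (h : ℕ) :
    V (Fh F (PS W z) h) W z ≤ Real.exp (6 * (g : ℝ) ^ 2) * V F W z ^ 2 * Real.exp (∑ p ∈ PS W z, (cc F h p : ℝ) / p) := by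
  have hS := Fh_sys hF hW h (z := z)
  have hfac : ∀ p ∈ PS W z, 1 - (rt (Fh F (PS W z) h) p : ℝ) / p ≤
      (1 - (rt F p : ℝ) / p) ^ 2 * Real.exp ((cc F h p : ℝ) / p + 6 * g ^ 2 * ((p : ℝ) ^ 2)⁻¹) := by
    intro p hp
    have hpp := ps_prime p hp
    have hp0 : (0 : ℝ) < p := by exact_mod_cast hpp.pos
    have h1 : (rt (Fh F (PS W z) h) p : ℝ) = 2 * rt F p - cc F h p := by
      have h2 := rt_Fh hF ps_prime hp h
      have h3 : (rt (Fh F (PS W z) h) p : ℝ) + cc F h p = 2 * rt F p := by exact_mod_cast h2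
      linarith
    have hg : (rt F p : ℝ) ≤ g := by exact_mod_cast (hF.root p hpp).1
    have hcg : (cc F h p : ℝ) ≤ g := le_trans (by exact_mod_cast cc_le (g := g) h p) hg
    have h3 : 2 * (g : ℝ) ≤ p := by
      have : 2 * g < p := by
        by_contra hcon
        exact ps_ndvd p hp (hW p hpp (by omega))
      exact_mod_cast this.le
    obtain ⟨x, hx⟩ : ∃ x : ℝ, x = (rt F p : ℝ) / p := ⟨_, rfl⟩
    obtain ⟨y, hy⟩ : ∃ y : ℝ, y = (cc F h p : ℝ) / p := ⟨_, rfl⟩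
    have hx0 : 0 ≤ x := by rw [hx]; positivity
    have hy0 : 0 ≤ y := by rw [hy]; positivity
    have hx1 : x ≤ 1 / 2 := by
      rw [hx, div_le_iff₀ hp0]
      linarith
    have hxy : x * y ≤ (g : ℝ) ^ 2 * ((p : ℝ) ^ 2)⁻¹ := by
      rw [hx, hy, div_mul_div_comm, ← div_eq_mul_inv, ← pow_two (p : ℝ)]
      apply div_le_div_of_nonneg_right _ (by positivity)
      rw [pow_two]
      exact mul_le_mul hg hcg (Nat.cast_nonneg _) (Nat.cast_nonneg _)
    have e1 : 1 - (rt (Fh F (PS W z) h) p : ℝ) / p = 1 - 2 * x + y := by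
      rw [h1, hx, hy]
      field_simp
      ring
    rw [e1, ← hx, ← hy]
    calc 1 - 2 * x + y ≤ (1 - x) ^ 2 * (1 + (y + 6 * (x * y))) := by
          have h5 : 0 ≤ x * (1 - 2 * x) * (4 - 3 * x) := by
            apply mul_nonneg (mul_nonneg hx0 (by linarith)) (by linarith)
          nlinarith [mul_nonneg hy0 h5, sq_nonneg x]
      _ ≤ (1 - x) ^ 2 * Real.exp (y + 6 * (x * y)) := by
          apply mul_le_mul_of_nonneg_left _ (sq_nonneg _)
          have := Real.add_one_le_exp (y + 6 * (x * y))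
          linarith
      _ ≤ _ := by
          apply mul_le_mul_of_nonneg_left _ (sq_nonneg _)
          apply Real.exp_le_exp.2
          nlinarith
  have h1 : V (Fh F (PS W z) h) W z ≤ ∏ p ∈ PS W z, ((1 - (rt F p : ℝ) / p) ^ 2 *
      Real.exp ((cc F h p : ℝ) / p + 6 * g ^ 2 * ((p : ℝ) ^ 2)⁻¹)) := by
    unfold V
    exact prod_le_prod (fun p _ => fac_nonneg p) hfac
  refine h1.trans ?_
  rw [prod_mul_distrib, prod_pow, ← Real.exp_sum, sum_add_distrib, Real.exp_add]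
  have h2 : ∑ p ∈ PS W z, 6 * (g : ℝ) ^ 2 * ((p : ℝ) ^ 2)⁻¹ ≤ 6 * (g : ℝ) ^ 2 := by
    rw [← mul_sum]
    have h3 : ∑ p ∈ PS W z, ((p : ℝ) ^ 2)⁻¹ ≤ 1 := by
      rcases Nat.lt_or_ge z 1 with hz | hz
      · have h4 : PS W z = ∅ := by
          unfold PS
          rw [filter_eq_empty_iff]
          intro p hp
          rw [mem_Icc] at hp
          omega
        rw [h4, sum_empty]
        norm_num
      · calc ∑ p ∈ PS W z, ((p : ℝ) ^ 2)⁻¹ ≤ ∑ p ∈ Ioc 1 z, ((p : ℝ) ^ 2)⁻¹ := by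
              apply sum_le_sum_of_subset_of_nonneg
              · intro p hp
                rw [mem_Ioc]
                exact ⟨(ps_prime p hp).one_lt, ps_le p hp⟩
              · intro _ _ _
                positivity
          _ ≤ ((1 : ℕ) : ℝ)⁻¹ - (z : ℝ)⁻¹ := sum_Ioc_inv_sq_le_sub one_ne_zero hz
          _ ≤ 1 := by
              have : 0 ≤ (z : ℝ)⁻¹ := by positivity
              rw [Nat.cast_one, inv_one]
              linarith
    calc 6 * (g : ℝ) ^ 2 * ∑ p ∈ PS W z, ((p : ℝ) ^ 2)⁻¹ ≤ 6 * (g : ℝ) ^ 2 * 1 := by gcongr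
      _ = _ := by ring
  have h3 : Real.exp (∑ p ∈ PS W z, 6 * (g : ℝ) ^ 2 * ((p : ℝ) ^ 2)⁻¹) ≤ Real.exp (6 * (g : ℝ) ^ 2) :=
    Real.exp_le_exp.2 h2
  have h4 : (0 : ℝ) ≤ V F W z ^ 2 := by positivity
  unfold V at h4 ⊢
  calc _ ≤ (∏ p ∈ PS W z, (1 - (rt F p : ℝ) / p)) ^ 2 * (Real.exp (∑ p ∈ PS W z, (cc F h p : ℝ) / p) *
        Real.exp (6 * (g : ℝ) ^ 2)) := by gcongr
    _ = _ := by ring

end Pool.Agent.U497.AW
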