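import Pool.Agent.U497.AW.FL
import Pool.Agent.U497.AW.AvgC

/-!
# The number of the pairs of sifted numbers with small differences, with the exact constant (helper497)
-/

set_option autoImplicit false

open Finset

namespace Pool.Agent.U497.AW

open Pool.Agent.TH423.SH (PS)
open Pool.Agent.Y677.RSZ (rt rhoT V rs fac_nonneg fac_le exJ ev_log V_le_one V_split)
open Pool.Agent.K3h89.SZ (SysP CF V_lowerP V_posP card_shiftP perP_mod)

/-- the sieve product for the pairs, with the exact constant -/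
lemma V_Fh' {g s : ℕ} (hs : 1 ≤ s) {F : ℤ → ℤ} (hF : SysP g F) {W z : ℕ} (hW : ∀ p : ℕ, p.Prime → p ≤ 2 * g → p ∣ W)
    (hWs : ∀ p : ℕ, p.Prime → p ≤ s → p ∣ W) (h : ℕ) :
    V (Fh F (PS W z) h) W z ≤ Real.exp (6 * (g : ℝ) ^ 2 / s) * V F W z ^ 2 *
      Real.exp (∑ p ∈ PS W z, (cc F h p : ℝ) / p) := by
  have hS := Fh_sys hF hW h (z := z)
  have hfac : ∀ p ∈ PS W z, 1 - (rt (Fh F (PS W z) h) p : ℝ) / p ≤
      (1 - (rt F p : ℝ) / p) ^ 2 * Real.exp ((cc F h p : ℝ) / p + 6 * g ^ 2 * ((p : ℝ) ^ 2)⁻¹) := by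
    intro p hp
    have hpp := ps_prime p hp
    have hp0 : (0 : ℝ) < p := by exact_mod_cast hpp.pos
    have h1 : (rt (Fh F (PS W z) h) p : ℝ) = 2 * rt F p - cc F h p := by
      have h2 := rt_Fh hF ps_prime hp h
      have h3 : (rt (Fh F (PS W z) h) p : ℝ) + cc F h p = 2 * rt F p := by exact_mod_cast h2
      linarith
    have hg : (rt F p : ℝ) ≤ g := by exact_mod_cast (hF.root p hpp).1
    have hcg : (cc F h p : ℝ) ≤ g := le_trans (by exact_mod_cast cc_le (g := g) h p) hg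
    have h3 : 2 * (g : ℝ) ≤ p := by
      have : 2 * g < p := by
        by_contra hcon
        exact ps_ndvd p hp (hW p hpp (by omega))
      exact_mod_cast this.le
    obtain ⟨x, hx⟩ : ∃ x : ℝ, x = (rt F p : ℝ) / p := ⟨_, rfl⟩
    obtain ⟨y, hy⟩ : ∃ y : ℝ, y = (cc F h p : ℝ) / p := ⟨_, rfl⟩
    have hx0 : 0 ≤ x := by rw [hx]; positivity
    have hy0 : 0 ≤ y := by rw [hy]; positivity
    have hx1 : x ≤ 1 / 2 := by
      rw [hx, div_le_iff₀ hp0]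
      linarith
    have hxy : x * y ≤ (g : ℝ) ^ 2 * ((p : ℝ) ^ 2)⁻¹ := by
      rw [hx, hy, div_mul_div_comm, ← div_eq_mul_inv, ← pow_two (p : ℝ)]
      apply div_le_div_of_nonneg_right _ (by positivity)
      rw [pow_two]
      exact mul_le_mul hg hcg (Nat.cast_nonneg _) (Nat.cast_nonneg _)
    have e1 : 1 - (rt (Fh F (PS W z) h) p : ℝ) / p = 1 - 2 * x + y := by
      rw [h1, hx, hy]
      field_simp
      ring
    rw [e1, ← hx, ← hy]
    calc 1 - 2 * x + y ≤ (1 - x) ^ 2 * (1 + (y + 6 * (x * y))) := by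
          have h5 : 0 ≤ x * (1 - 2 * x) * (4 - 3 * x) := by
            apply mul_nonneg (mul_nonneg hx0 (by linarith)) (by linarith)
          nlinarith [mul_nonneg hy0 h5, sq_nonneg x]
      _ ≤ (1 - x) ^ 2 * Real.exp (y + 6 * (x * y)) := by
          apply mul_le_mul_of_nonneg_left _ (sq_nonneg _)
          have := Real.add_one_le_exp (y + 6 * (x * y))
          linarith
      _ ≤ _ := by
          apply mul_le_mul_of_nonneg_left _ (sq_nonneg _)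
          apply Real.exp_le_exp.2
          nlinarith
  have h1 : V (Fh F (PS W z) h) W z ≤ ∏ p ∈ PS W z, ((1 - (rt F p : ℝ) / p) ^ 2 *
      Real.exp ((cc F h p : ℝ) / p + 6 * g ^ 2 * ((p : ℝ) ^ 2)⁻¹)) := by
    unfold V
    exact prod_le_prod (fun p _ => fac_nonneg p) hfac
  refine h1.trans ?_
  rw [prod_mul_distrib, prod_pow, ← Real.exp_sum, sum_add_distrib, Real.exp_add]
  have h2 : ∑ p ∈ PS W z, 6 * (g : ℝ) ^ 2 * ((p : ℝ) ^ 2)⁻¹ ≤ 6 * (g : ℝ) ^ 2 / s := by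
    rw [← mul_sum]
    have h3 : ∑ p ∈ PS W z, ((p : ℝ) ^ 2)⁻¹ ≤ (s : ℝ)⁻¹ := by
      rcases Nat.lt_or_ge z s with hz | hz
      · have h4 : PS W z = ∅ := by
          rw [eq_empty_iff_forall_notMem]
          intro p hp
          exact ps_ndvd p hp (hWs p (ps_prime p hp) ((ps_le p hp).trans hz.le))
        rw [h4, sum_empty]
        positivity
      · calc ∑ p ∈ PS W z, ((p : ℝ) ^ 2)⁻¹ ≤ ∑ p ∈ Ioc s z, ((p : ℝ) ^ 2)⁻¹ := by
              apply sum_le_sum_of_subset_of_nonneg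
              · intro p hp
                rw [mem_Ioc]
                refine ⟨?_, ps_le p hp⟩
                by_contra hcon
                exact ps_ndvd p hp (hWs p (ps_prime p hp) (by omega))
              · intro _ _ _
                positivity
          _ ≤ (s : ℝ)⁻¹ - (z : ℝ)⁻¹ := sum_Ioc_inv_sq_le_sub (by omega) hz
          _ ≤ (s : ℝ)⁻¹ := by
              have : 0 ≤ (z : ℝ)⁻¹ := by positivity
              linarith
    calc 6 * (g : ℝ) ^ 2 * ∑ p ∈ PS W z, ((p : ℝ) ^ 2)⁻¹ ≤ 6 * (g : ℝ) ^ 2 * (s : ℝ)⁻¹ := by gcongr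
      _ = _ := by rw [div_eq_mul_inv]
  have h3 : Real.exp (∑ p ∈ PS W z, 6 * (g : ℝ) ^ 2 * ((p : ℝ) ^ 2)⁻¹) ≤ Real.exp (6 * (g : ℝ) ^ 2 / s) :=
    Real.exp_le_exp.2 h2
  have h4 : (0 : ℝ) ≤ V F W z ^ 2 := by positivity
  unfold V at h4 ⊢
  calc _ ≤ (∏ p ∈ PS W z, (1 - (rt F p : ℝ) / p)) ^ 2 * (Real.exp (∑ p ∈ PS W z, (cc F h p : ℝ) / p) *
        Real.exp (6 * (g : ℝ) ^ 2 / s)) := by gcongr
    _ = _ := by ring

open Classical in
/-- the numbers in the interval for which `F` has no prime factor `≤ z` -/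
noncomputable def Sf (F : ℤ → ℤ) (z Y N : ℕ) : Finset ℕ :=
  (Ioc Y (Y + N)).filter (fun n : ℕ => ∀ p ∈ PS 1 z, ¬ (p : ℤ) ∣ F (n : ℤ))

lemma mem_ps {W z p : ℕ} : p ∈ PS W z ↔ p.Prime ∧ p ≤ z ∧ ¬ p ∣ W := by
  unfold PS
  rw [mem_filter, mem_Icc]
  constructor
  · rintro ⟨⟨_, h2⟩, h3, h4⟩
    exact ⟨h3, h2, h4⟩
  · rintro ⟨h3, h2, h4⟩
    exact ⟨⟨h3.one_lt.le, h2⟩, h3, h4⟩

lemma mem_gd {F : ℤ → ℤ} {W b : ℕ} : b ∈ Gd F W ↔ b < W ∧ ∀ p ∈ W.primeFactors, ¬ (p : ℤ) ∣ F (b : ℤ) := by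
  classical
  unfold Gd
  rw [mem_filter, mem_range]

lemma free_iff {g : ℕ} {F : ℤ → ℤ} (hF : SysP g F) {W z : ℕ} (hW0 : 0 < W)
    (hWz : ∀ p : ℕ, p.Prime → p ∣ W → p ≤ z) (n : ℕ) :
    (∀ p ∈ PS 1 z, ¬ (p : ℤ) ∣ F (n : ℤ)) ↔ n % W ∈ Gd F W ∧ ∀ p ∈ PS W z, ¬ (p : ℤ) ∣ F (n : ℤ) := by
  have key : ∀ p : ℕ, p.Prime → p ∣ W → ((p : ℤ) ∣ F ((n % W : ℕ) : ℤ) ↔ (p : ℤ) ∣ F (n : ℤ)) := by
    intro p hp hpW
    exact perP_mod (hF.per p hp) (n % W) n ((Nat.mod_modEq n W).of_dvd hpW)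
  constructor
  · intro h
    refine ⟨mem_gd.2 ⟨Nat.mod_lt _ hW0, fun p hp hd => ?_⟩, fun p hp => ?_⟩
    · have hpp := Nat.prime_of_mem_primeFactors hp
      have hpW := Nat.dvd_of_mem_primeFactors hp
      exact h p (mem_ps.2 ⟨hpp, hWz p hpp hpW, fun h1 => hpp.one_lt.ne' (Nat.dvd_one.1 h1)⟩) ((key p hpp hpW).1 hd)
    · have hp' := mem_ps.1 hp
      exact h p (mem_ps.2 ⟨hp'.1, hp'.2.1, fun h1 => hp'.1.one_lt.ne' (Nat.dvd_one.1 h1)⟩)
  · rintro ⟨h1, h2⟩ p hp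
    have hp' := mem_ps.1 hp
    by_cases hpW : p ∣ W
    · intro hd
      exact (mem_gd.1 h1).2 p (Nat.mem_primeFactors.2 ⟨hp'.1, hpW, hW0.ne'⟩) ((key p hp'.1 hpW).2 hd)
    · exact h2 p (mem_ps.2 ⟨hp'.1, hp'.2.1, hpW⟩)

lemma Sf_card {g : ℕ} {F : ℤ → ℤ} (hF : SysP g F) {W z : ℕ} (hW0 : 0 < W)
    (hWz : ∀ p : ℕ, p.Prime → p ∣ W → p ≤ z) (Y N : ℕ) :
    (Sf F z Y N).card = ∑ b ∈ Gd F W, (Tb F (PS W z) W Y N b).card := by
  classical
  have h1 : Sf F z Y N = (Gd F W).biUnion (fun b => Tb F (PS W z) W Y N b) := by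
    ext n
    unfold Sf Tb
    rw [mem_filter, mem_biUnion, free_iff hF hW0 hWz]
    constructor
    · rintro ⟨h2, h3, h4⟩
      exact ⟨n % W, h3, mem_filter.2 ⟨h2, rfl, h4⟩⟩
    · rintro ⟨b, hb, h3⟩
      rw [mem_filter] at h3
      refine ⟨h3.1, ?_, h3.2.2⟩
      rw [h3.2.1]
      exact hb
  rw [h1, card_biUnion]
  intro b _ b' _ hbb
  rw [Function.onFun, disjoint_left]
  intro n hn hn'
  unfold Tb at hn hn'
  rw [mem_filter] at hn hn'
  exact hbb (hn.2.1.symm.trans hn'.2.1)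

/-- the residues of the differences -/
noncomputable def Rb (F : ℤ → ℤ) (W b : ℕ) : Finset ℕ := by
  classical
  exact (range W).filter (fun r => (b + r) % W ∈ Gd F W)

lemma Rb_card (F : ℤ → ℤ) {W : ℕ} (b : ℕ) : (Rb F W b).card ≤ (Gd F W).card := by
  classical
  apply card_le_card_of_injOn (fun r => (b + r) % W)
  · intro r hr
    unfold Rb at hr
    rw [mem_coe, mem_filter] at hr
    exact hr.2
  · intro r hr r' hr' he
    unfold Rb at hr hr'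
    rw [mem_coe, mem_filter, mem_range] at hr hr'
    have h1 : b + r ≡ b + r' [MOD W] := he
    have h2 : r ≡ r' [MOD W] := Nat.ModEq.add_left_cancel' b h1
    unfold Nat.ModEq at h2
    rwa [Nat.mod_eq_of_lt hr.1, Nat.mod_eq_of_lt hr'.1] at h2

/-- **the first moment and the pairs** -/
theorem pairs (g : ℕ) (η ε : ℝ) (hη : 0 < η) (hη1 : η ≤ 1) (hε : 0 < ε) : ∃ W E N₀ : ℕ, 0 < W ∧ 1 ≤ E ∧
    ∀ N : ℕ, N₀ ≤ N → ∃ z : ℕ, (z : ℝ) ≤ (N : ℝ) ^ ε ∧ z ≤ N ∧ N < z ^ (8 * E) ∧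
    ∀ (F : ℤ → ℤ) (Y : ℕ), SysP g F →
      (1 - η) * (N * V F 1 z) ≤ (Sf F z Y N).card ∧
      ((Sf F z Y N).card : ℝ) ≤ (1 + η) * (N * V F 1 z) ∧
      ∀ l : ℕ, ((∑ h ∈ Icc 1 l, ((Sf F z Y N).filter (fun n => n + h ∈ Sf F z Y N)).card : ℕ) : ℝ) ≤
        (1 + η) * (N * V F 1 z) * (V F 1 z * l + W * (g + 1)) := by
  classical
  obtain ⟨η₀, hη₀⟩ : ∃ x : ℝ, x = η / 8 := ⟨_, rfl⟩
  have h00 : 0 < η₀ := by rw [hη₀]; positivity
  have h01 : η₀ ≤ 1 / 8 := by rw [hη₀]; linarith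
  obtain ⟨s₀, hs₀⟩ := avgc g η₀ h00
  obtain ⟨s, hs⟩ : ∃ s : ℕ, s = s₀ + 2 * g + ⌈6 * (g : ℝ) ^ 2 / η₀⌉₊ + 1 := ⟨_, rfl⟩
  have hs1 : 1 ≤ s := by omega
  have hsr : (0 : ℝ) < s := by exact_mod_cast hs1
  have hexps : Real.exp (6 * (g : ℝ) ^ 2 / s) ≤ 1 + 2 * η₀ := by
    have h1 : 6 * (g : ℝ) ^ 2 / s ≤ η₀ := by
      rw [div_le_iff₀ hsr]
      have h2 : 6 * (g : ℝ) ^ 2 / η₀ ≤ s := by
        have h3 := Nat.le_ceil (6 * (g : ℝ) ^ 2 / η₀)
        have h4 : ((⌈6 * (g : ℝ) ^ 2 / η₀⌉₊ : ℕ) : ℝ) ≤ s := by exact_mod_cast (by omega : ⌈6 * (g : ℝ) ^ 2 / η₀⌉₊ ≤ s)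
        exact h3.trans h4
      rw [div_le_iff₀ h00] at h2
      linarith
    have h2 : Real.exp (6 * (g : ℝ) ^ 2 / s) ≤ Real.exp η₀ := Real.exp_le_exp.2 h1
    have h3 : |Real.exp η₀ - 1 - η₀| ≤ η₀ ^ 2 := Real.abs_exp_sub_one_sub_id_le (by rw [abs_of_pos h00]; linarith)
    have h4 := (abs_le.1 h3).2
    nlinarith
  obtain ⟨W, E, H₀, hW0, hWsq, hE1, hWp, hfl⟩ := fl (2 * g) s η₀ ε h00 (by linarith) hε
  have hWr : (0 : ℝ) < W := by exact_mod_cast hW0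
  refine ⟨W, E, H₀ + W ^ (8 * E), hW0, hE1, fun N hN => ?_⟩
  obtain ⟨z, hz1, hz2, hz3, hz4⟩ := hfl N (by omega)
  refine ⟨z, hz1, hz2, hz3, fun F Y hF => ?_⟩
  have hWz : ∀ p : ℕ, p.Prime → p ∣ W → p ≤ z := by
    intro p _ hpW
    have h1 : p ≤ W := Nat.le_of_dvd hW0 hpW
    have h2 : W ^ (8 * E) < z ^ (8 * E) := by omega
    have h3 : W < z := lt_of_pow_lt_pow_left₀ _ (Nat.zero_le _) h2
    omega
  obtain ⟨G, hG⟩ : ∃ G : ℝ, G = ((Gd F W).card : ℝ) := ⟨_, rfl⟩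
  obtain ⟨VW, hVW⟩ : ∃ VW : ℝ, VW = V F W z := ⟨_, rfl⟩
  obtain ⟨V1, hV1⟩ : ∃ V1 : ℝ, V1 = V F 1 z := ⟨_, rfl⟩
  have hVWpos : 0 < VW := by rw [hVW]; exact V_posP hF W z
  have hV1pos : 0 < V1 := by rw [hV1]; exact V_posP hF 1 z
  have hV1le : V1 ≤ 1 := by rw [hV1]; exact V_le_one 1 z
  have hG0 : 0 ≤ G := by rw [hG]; positivity
  have hsplit : V1 = G / W * VW := by
    rw [hV1, hVW, hG, V_split W z hW0.ne' hWz, ← Gd_card hF hW0 hWsq]
  have hF2 : SysP (2 * g) F := sysP_mono hF (by omega)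
  have hb : ∀ b ∈ Gd F W, b < W := fun b hb => (mem_gd.1 hb).1
  rw [← hV1]
  have hN0 : (0 : ℝ) ≤ N := Nat.cast_nonneg _
  refine ⟨?_, ?_, ?_⟩
  · rw [Sf_card hF hW0 hWz]
    push_cast
    calc (1 - η) * (N * V1) ≤ (1 - η₀) * (N * V1) := by
          apply mul_le_mul_of_nonneg_right _ (by positivity)
          linarith
      _ = ∑ _b ∈ Gd F W, (1 - η₀) * ((N : ℝ) / W * V F W z) := by
          rw [sum_const, nsmul_eq_mul, ← hG, ← hVW, hsplit]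
          field_simp
      _ ≤ _ := sum_le_sum fun b hbb => (hz4 F Y b hF2 (hb b hbb)).1
  · rw [Sf_card hF hW0 hWz]
    push_cast
    calc ∑ b ∈ Gd F W, ((Tb F (PS W z) W Y N b).card : ℝ) ≤ ∑ _b ∈ Gd F W, (1 + η₀) * ((N : ℝ) / W * V F W z) :=
          sum_le_sum fun b hbb => (hz4 F Y b hF2 (hb b hbb)).2
      _ = (1 + η₀) * (N * V1) := by
          rw [sum_const, nsmul_eq_mul, ← hG, ← hVW, hsplit]
          field_simp
      _ ≤ _ := by
          apply mul_le_mul_of_nonneg_right _ (by positivity)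
          linarith
  · intro l
    have hW2g : ∀ p : ℕ, p.Prime → p ≤ 2 * g → p ∣ W := fun p hp h => hWp p hp (by omega)
    -- one difference
    have hone : ∀ h : ℕ, (((Sf F z Y N).filter (fun n => n + h ∈ Sf F z Y N)).card : ℝ) ≤
        ∑ b ∈ Gd F W, if h % W ∈ Rb F W b then (1 + η₀) * ((N : ℝ) / W * ((1 + 2 * η₀) * VW ^ 2 *
          Real.exp (∑ p ∈ PS W z, (cc F h p : ℝ) / p))) else 0 := by
      intro h
      have hsub : (Sf F z Y N).filter (fun n => n + h ∈ Sf F z Y N) ⊆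
          ((Gd F W).filter (fun b => h % W ∈ Rb F W b)).biUnion (fun b => Tb (Fh F (PS W z) h) (PS W z) W Y N b) := by
        intro n hn
        rw [mem_filter] at hn
        obtain ⟨hn1, hn2⟩ := hn
        unfold Sf at hn1 hn2
        rw [mem_filter, free_iff hF hW0 hWz] at hn1 hn2
        rw [mem_biUnion]
        refine ⟨n % W, mem_filter.2 ⟨hn1.2.1, ?_⟩, ?_⟩
        · unfold Rb
          rw [mem_filter, mem_range]
          refine ⟨Nat.mod_lt _ hW0, ?_⟩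
          rw [← Nat.add_mod]
          exact hn2.2.1
        · unfold Tb
          rw [mem_filter]
          refine ⟨hn1.1, rfl, fun p hp hd => ?_⟩
          rw [Fh_dvd ps_prime (ps_prime p hp)] at hd
          rcases hd.2 with h1 | h1
          · exact hn1.2.2 p hp h1
          · refine hn2.2.2 p hp ?_
            push_cast
            exact h1
      have h1 : (((Sf F z Y N).filter (fun n => n + h ∈ Sf F z Y N)).card : ℝ) ≤
          ∑ b ∈ (Gd F W).filter (fun b => h % W ∈ Rb F W b), ((Tb (Fh F (PS W z) h) (PS W z) W Y N b).card : ℝ) := by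
        exact_mod_cast (card_le_card hsub).trans card_biUnion_le
      refine h1.trans ?_
      rw [← sum_filter]
      apply sum_le_sum
      intro b hbb
      rw [mem_filter] at hbb
      refine (hz4 _ Y b (Fh_sys hF hW2g h) (hb b hbb.1)).2.trans ?_
      have h2 := V_Fh' hs1 hF hW2g hWp h (z := z)
      rw [← hVW] at h2
      have h3 : V (Fh F (PS W z) h) W z ≤ (1 + 2 * η₀) * VW ^ 2 * Real.exp (∑ p ∈ PS W z, (cc F h p : ℝ) / p) := by
        refine h2.trans ?_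
        gcongr
      gcongr
    have hsum : ∀ b, ∑ h ∈ Icc 1 l, (if h % W ∈ Rb F W b then (1 + η₀) * ((N : ℝ) / W * ((1 + 2 * η₀) * VW ^ 2 *
          Real.exp (∑ p ∈ PS W z, (cc F h p : ℝ) / p))) else 0) ≤
        (1 + η₀) * ((N : ℝ) / W * ((1 + 2 * η₀) * VW ^ 2)) * ((1 + η₀) * (G * ((l : ℝ) / W + 1)) + W * g / VW) := by
      intro b
      rw [← sum_filter]
      have h1 := hs₀ F W z l (Rb F W b) hF hW0 (fun p hp h => hWp p hp (by omega))
      rw [← hVW] at h1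
      have h2 : ((Rb F W b).card : ℝ) ≤ G := by rw [hG]; exact_mod_cast Rb_card F b
      calc ∑ h ∈ (Icc 1 l).filter (fun h : ℕ => h % W ∈ Rb F W b), (1 + η₀) * ((N : ℝ) / W * ((1 + 2 * η₀) * VW ^ 2 *
            Real.exp (∑ p ∈ PS W z, (cc F h p : ℝ) / p))) =
            (1 + η₀) * ((N : ℝ) / W * ((1 + 2 * η₀) * VW ^ 2)) *
            ∑ h ∈ (Icc 1 l).filter (fun h : ℕ => h % W ∈ Rb F W b), Real.exp (∑ p ∈ PS W z, (cc F h p : ℝ) / p) := by
            rw [mul_sum]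
            apply sum_congr rfl
            intro h _
            ring
        _ ≤ (1 + η₀) * ((N : ℝ) / W * ((1 + 2 * η₀) * VW ^ 2)) * ((1 + η₀) * (G * ((l : ℝ) / W + 1)) + W * g / VW) := by
            refine mul_le_mul_of_nonneg_left (h1.trans ?_) (by positivity)
            gcongr
    have hmain : ((∑ h ∈ Icc 1 l, ((Sf F z Y N).filter (fun n => n + h ∈ Sf F z Y N)).card : ℕ) : ℝ) ≤
        G * ((1 + η₀) * ((N : ℝ) / W * ((1 + 2 * η₀) * VW ^ 2)) * ((1 + η₀) * (G * ((l : ℝ) / W + 1)) + W * g / VW)) := by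
      push_cast
      calc ∑ h ∈ Icc 1 l, (((Sf F z Y N).filter (fun n => n + h ∈ Sf F z Y N)).card : ℝ) ≤
            ∑ h ∈ Icc 1 l, ∑ b ∈ Gd F W, (if h % W ∈ Rb F W b then (1 + η₀) * ((N : ℝ) / W * ((1 + 2 * η₀) * VW ^ 2 *
              Real.exp (∑ p ∈ PS W z, (cc F h p : ℝ) / p))) else 0) := sum_le_sum fun h _ => hone h
        _ = ∑ b ∈ Gd F W, ∑ h ∈ Icc 1 l, (if h % W ∈ Rb F W b then (1 + η₀) * ((N : ℝ) / W * ((1 + 2 * η₀) * VW ^ 2 *
              Real.exp (∑ p ∈ PS W z, (cc F h p : ℝ) / p))) else 0) := sum_comm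
        _ ≤ ∑ _b ∈ Gd F W, (1 + η₀) * ((N : ℝ) / W * ((1 + 2 * η₀) * VW ^ 2)) *
              ((1 + η₀) * (G * ((l : ℝ) / W + 1)) + W * g / VW) := sum_le_sum fun b _ => hsum b
        _ = _ := by rw [sum_const, nsmul_eq_mul, ← hG]
    refine hmain.trans ?_
    have e1 : G * ((1 + η₀) * ((N : ℝ) / W * ((1 + 2 * η₀) * VW ^ 2)) * ((1 + η₀) * (G * ((l : ℝ) / W + 1)) + W * g / VW)) =
        (1 + η₀) * (1 + 2 * η₀) * (N * V1) * ((1 + η₀) * (V1 * (l + W)) + W * g) := by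
      rw [hsplit]
      field_simp
    rw [e1]
    have h1 : (1 + η₀) * (V1 * (l + W)) + W * g ≤ (1 + η₀) * (V1 * l + W * (g + 1)) := by
      have h2 : V1 * W ≤ 1 * W := by gcongr
      have h3 : (0 : ℝ) ≤ W * g := by positivity
      nlinarith
    have h4 : (1 + η₀) * (1 + 2 * η₀) * (1 + η₀) ≤ 1 + η := by
      have h5 : η = 8 * η₀ := by rw [hη₀]; ring
      rw [h5]
      nlinarith [mul_pos h00 h00, mul_pos h00 (mul_pos h00 h00)]
    calc (1 + η₀) * (1 + 2 * η₀) * (N * V1) * ((1 + η₀) * (V1 * (l + W)) + W * g) ≤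
          (1 + η₀) * (1 + 2 * η₀) * (N * V1) * ((1 + η₀) * (V1 * l + W * (g + 1))) := by gcongr
      _ = ((1 + η₀) * (1 + 2 * η₀) * (1 + η₀)) * (N * V1) * (V1 * l + W * (g + 1)) := by ring
      _ ≤ _ := by gcongr

end Pool.Agent.U497.AW
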