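import Pool.Agent.U497.AW.Dense
import Pool.Agent.U497.SP.Main

/-!
# The prime values of almost all polynomials in all short intervals (helper497)
-/

set_option autoImplicit false

namespace Pool.Agent.U497.AW

open Finset Polynomial Filter Topology

open Pool.Agent.Y677.RSZ (rt V)
open Pool.Agent.K3h89.SZ (SysP CF)
open Pool.Agent.H300R2.BH (rho SS SS_lower pv lF)
open Pool.Agent.H300R2.FB (FP Rr bx pa la SS_small abs_conv)
open Pool.Agent.TH892 (pol box sum_box card_box exc_box pol_eval pol_coeff pol_natDegree_le la_lower box_abs)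
open Pool.Agent.H442R2.EHI (evt_log_pow evt_log_ge)
open Pool.Agent.U497.SP (fn InP few PV eval_big small vbd V_mono SS_nonneg sysP main)

open Classical in
/-- the number of the prime values of almost all polynomials, compared with the sieve product -/
theorem cnt (j : ℕ) (hj : 1 ≤ j) (ε : ℝ) (hε : 0 < ε) (U : ℕ) : ∃ C : ℝ, 0 < C ∧ ∀ t : ℝ, 0 < t →
    ∃ B H₀ : ℕ, ∀ H : ℕ, H₀ ≤ H → ∃ Bad : Finset (Fin (j + 1) → ℤ),
      (Bad.card : ℝ) ≤ ((box j H).card : ℝ) / Real.log H ^ U ∧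
      ∀ c ∈ box j H, c ∉ Bad → (∀ p : ℕ, p.Prime → rho (pol c) p ≠ p) →
      ∀ K : ℕ, (H : ℝ) ^ ε ≤ K → (K : ℝ) * Real.log H ^ B ≤ H →
        (K : ℝ) / Real.log H ^ 2 ≤ (PV (pol c) K).card ∧
        (K : ℝ) * V (fn (pol c)) 1 K ≤ C * (PV (pol c) K).card ∧
        ∃ N0 : ℕ, (N0 : ℝ) ≤ t * (PV (pol c) K).card ∧ ∀ n : ℕ, N0 < n → (H : ℤ) < (pol c).eval (n : ℤ) := by
  set τ : ℝ := min ε (1 / 4) with hτd
  have hτ : 0 < τ := lt_min hε (by norm_num)
  have hτ1 : τ ≤ 1 / 4 := min_le_right _ _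
  have hτε : τ ≤ ε := min_le_left _ _
  set A : ℕ := U + 1 with hA
  obtain ⟨E1, hE1⟩ := exc_box j hj ε hε A
  set E : ℕ := max E1 (A + 2) + 1 with hE
  obtain ⟨B1, x1, hb⟩ := hE1 E (by omega)
  obtain ⟨Kv, hKv, x2, hV⟩ := vbd j hj A E (by omega) τ hτ hτ1
  obtain ⟨x6, hsm⟩ := small j hj A
  obtain ⟨x7, hSS⟩ := SS_small (E - 1)
  rw [show E - 1 + 1 = E by omega] at hSS
  obtain ⟨cS, hcS, hSSl⟩ := SS_lower j hj
  have tc : Tendsto (fun H : ℕ => (H : ℝ)) atTop atTop := tendsto_natCast_atTop_atTop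
  have tl : Tendsto (fun H : ℕ => Real.log (H : ℝ)) atTop atTop := Real.tendsto_log_atTop.comp tc
  have tpe : Tendsto (fun H : ℕ => (H : ℝ) ^ ε) atTop atTop := (tendsto_rpow_atTop hε).comp tc
  refine ⟨8 * (j + 2) * Kv, by positivity, fun t ht => ?_⟩
  have hlogs : ∀ᶠ x : ℕ in atTop, (E * Real.log (Real.log x)) ^ (2 * j) * (8 * (j + 2)) ≤
      cS * Real.log x := by
    have h1 : (fun t : ℝ => Real.log t ^ (2 * j)) =o[atTop] fun t : ℝ => t :=
      Real.isLittleO_pow_log_id_atTop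
    have h2 := h1.bound (show (0:ℝ) < cS / ((8 * (j + 2)) * (1 + E) ^ (2 * j)) by positivity)
    have h3 := (Real.tendsto_log_atTop.comp (tendsto_natCast_atTop_atTop (R := ℝ))).eventually h2
    filter_upwards [h3, evt_log_ge (Real.exp 1)] with x hx hx2
    simp only [Function.comp] at hx
    have ht0 : 0 < Real.log x := lt_of_lt_of_le (Real.exp_pos 1) hx2
    have hl : 1 ≤ Real.log (Real.log x) := by
      rw [Real.le_log_iff_exp_le ht0]; exact hx2
    rw [Real.norm_of_nonneg (by positivity), Real.norm_of_nonneg ht0.le] at hx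
    calc (E * Real.log (Real.log x)) ^ (2 * j) * (8 * (j + 2))
        ≤ ((1 + E) * Real.log (Real.log x)) ^ (2 * j) * (8 * (j + 2)) := by
          gcongr
          linarith
      _ = ((8 * (j + 2)) * (1 + E) ^ (2 * j)) * Real.log (Real.log x) ^ (2 * j) := by
          rw [mul_pow]; ring
      _ ≤ ((8 * (j + 2)) * (1 + E) ^ (2 * j)) * (cS / ((8 * (j + 2)) * (1 + E) ^ (2 * j)) *
          Real.log x) := by gcongr
      _ = cS * Real.log x := by field_simp
  have hev : ∀ᶠ H : ℕ in atTop, 8 ≤ Real.log H ∧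
      (1 / t + 2) * ((j + 1) * Real.log H ^ (A + 2) + 1) * Real.log H ^ 2 ≤ (H : ℝ) ^ ε ∧
      6 * (j : ℝ) ≤ (H : ℝ) ^ ε ∧ j + 1 ≤ H ∧
      (E * Real.log (Real.log H)) ^ (2 * j) * (8 * (j + 2)) ≤ cS * Real.log H := by
    have hA1 : ∀ᶠ H : ℕ in atTop, (1 / t + 2) * ((j + 1) * Real.log H ^ (A + 2) + 1) * Real.log H ^ 2 ≤ (H : ℝ) ^ ε := by
      filter_upwards [evt_log_pow (A + 2 + 2 + 1) ε hε, evt_log_ge ((1 / t + 2) * ((j + 1) + 1)), evt_log_ge 1] with H h1 h2 h3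
      refine le_trans ?_ h1
      have h4 : 1 ≤ Real.log (H : ℝ) ^ (A + 2) := one_le_pow₀ h3
      have h5 : 0 < Real.log (H : ℝ) := by linarith
      calc (1 / t + 2) * ((j + 1) * Real.log H ^ (A + 2) + 1) * Real.log H ^ 2 ≤
            (1 / t + 2) * (((j + 1) + 1) * Real.log H ^ (A + 2)) * Real.log H ^ 2 := by
            gcongr
            linarith
        _ = ((1 / t + 2) * ((j + 1) + 1)) * (Real.log H ^ (A + 2) * Real.log H ^ 2) := by ring
        _ ≤ Real.log H * (Real.log H ^ (A + 2) * Real.log H ^ 2) := mul_le_mul_of_nonneg_right h2 (by positivity)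
        _ = _ := by ring
    filter_upwards [evt_log_ge 8, hA1, tpe.eventually_ge_atTop (6 * (j : ℝ)), eventually_ge_atTop (j + 1),
      hlogs] with H h1 h2 h5 h6 h8
    exact ⟨h1, h2, h5, h6, h8⟩
  obtain ⟨x8, hx8⟩ := eventually_atTop.1 hev
  refine ⟨B1, max (max (max x1 x2) x6) (max x7 x8), fun H hH => ?_⟩
  have y1 : x1 ≤ H := (le_max_left _ _).trans ((le_max_left _ _).trans ((le_max_left _ _).trans hH))
  have y2 : x2 ≤ H := (le_max_right _ _).trans ((le_max_left _ _).trans ((le_max_left _ _).trans hH))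
  have y6 : x6 ≤ H := (le_max_right _ _).trans ((le_max_left _ _).trans hH)
  have y7 : x7 ≤ H := (le_max_left _ _).trans ((le_max_right _ _).trans hH)
  have y8 : x8 ≤ H := (le_max_right _ _).trans ((le_max_right _ _).trans hH)
  obtain ⟨k1, k2, k5, k6, k8⟩ := hx8 H y8
  obtain ⟨hz3, hSSz⟩ := hSS H y7
  set L := Real.log (H : ℝ) with hL
  set z : ℕ := ⌊L ^ E⌋₊ with hz
  have hL0 : 0 < L := by linarith
  have hL1 : 1 ≤ L := by linarith
  have hHpos : 0 < H := by omega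
  have hHR : (0 : ℝ) < H := by exact_mod_cast hHpos
  have hH1 : (1 : ℝ) ≤ H := by exact_mod_cast hHpos
  set T1 := (box j H).filter (fun c => (∀ p : ℕ, p.Prime → p ≤ z → rho (pol c) p ≠ p) ∧
    ∃ K : ℕ, (H : ℝ) ^ ε ≤ K ∧ (K : ℝ) * L ^ B1 ≤ H ∧ SS z (pol c) * la (pol c) K / L ^ A <
      |pa (pol c) K - SS z (pol c) * la (pol c) K|) with hT1
  set T2 := (box j H).filter (fun c => Kv * SS z (pol c) / L < V (fn (pol c)) 1 ⌊(H : ℝ) ^ τ⌋₊) with hT2
  set T5 := (box j H).filter (fun c => (((pol c).coeff j : ℤ) : ℝ) * L ^ (A + 2) ≤ H) with hT5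
  have c1 : (T1.card : ℝ) ≤ ((box j H).card : ℝ) / L ^ A :=
    hb H y1 _ (fun c _ hc => hc)
  have c2 : (T2.card : ℝ) ≤ ((box j H).card : ℝ) / L ^ A := hV H y2
  have c5 : (T5.card : ℝ) ≤ ((box j H).card : ℝ) / L ^ A := hsm H y6
  refine ⟨T1 ∪ T2 ∪ T5, ?_, ?_⟩
  · have u3 := card_union_le (T1 ∪ T2) T5
    have u4 := card_union_le T1 T2
    have u5 : (((T1 ∪ T2 ∪ T5).card : ℕ) : ℝ) ≤ T1.card + T2.card + T5.card := by
      exact_mod_cast (by omega : (T1 ∪ T2 ∪ T5).card ≤ T1.card + T2.card + T5.card)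
    have h6 : ((box j H).card : ℝ) / L ^ A = ((box j H).card : ℝ) / L ^ U / L := by rw [hA, pow_succ, div_div]
    have h7 : 0 ≤ ((box j H).card : ℝ) / L ^ U := by positivity
    have h8 : ((box j H).card : ℝ) / L ^ U / L ≤ ((box j H).card : ℝ) / L ^ U / 8 :=
      div_le_div_of_nonneg_left h7 (by norm_num) k1
    rw [h6] at c1 c2 c5
    linarith
  intro c hc hcB hnf K hK1 hK2
  rw [mem_union, mem_union, not_or, not_or] at hcB
  obtain ⟨⟨n1, n2⟩, n5⟩ := hcB
  have n1' : ∀ K : ℕ, (H : ℝ) ^ ε ≤ K → (K : ℝ) * L ^ B1 ≤ H → |pa (pol c) K - SS z (pol c) * la (pol c) K| ≤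
      SS z (pol c) * la (pol c) K / L ^ A := by
    intro K g1 g2
    by_contra hcon
    exact n1 (mem_filter.2 ⟨hc, fun p hp _ => hnf p hp, K, g1, g2, not_le.1 hcon⟩)
  have n2' : V (fn (pol c)) 1 ⌊(H : ℝ) ^ τ⌋₊ ≤ Kv * SS z (pol c) / L := by
    by_contra hcon
    exact n2 (mem_filter.2 ⟨hc, not_le.1 hcon⟩)
  have n5' : (H : ℝ) < ((c (Fin.last j) : ℤ) : ℝ) * L ^ (A + 2) := by
    by_contra hcon
    apply n5
    rw [hT5, mem_filter]
    refine ⟨hc, ?_⟩
    have h1 := pol_coeff c (Fin.last j)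
    rw [Fin.val_last] at h1
    rw [h1]
    exact not_lt.1 hcon
  set F := pol c with hF
  have hKpos : (0 : ℝ) < K := lt_of_lt_of_le (Real.rpow_pos_of_pos hHR ε) hK1
  have hLB : ∀ n : ℕ, 1 ≤ L ^ n := fun n => one_le_pow₀ hL1
  have hKH : (K : ℝ) ≤ H := by
    calc (K : ℝ) ≤ K * L ^ B1 := le_mul_of_one_le_right hKpos.le (hLB _)
      _ ≤ H := hK2
  have hKHn : K ≤ H := by exact_mod_cast hKH
  have hcount := n1' K hK1 hK2
  set N0 : ℕ := ⌊(j + 1) * L ^ (A + 2)⌋₊ with hN0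
  have hN0u : (N0 : ℝ) ≤ (j + 1) * L ^ (A + 2) := Nat.floor_le (by positivity)
  have hbig : ∀ n : ℕ, N0 < n → (H : ℤ) < F.eval (n : ℤ) := by
    intro n hn
    apply eval_big hj hc
    have h1 : (j + 1) * L ^ (A + 2) < n := (Nat.floor_lt (by positivity)).1 hn
    have h2 : (0 : ℝ) < n := lt_of_le_of_lt (by positivity) h1
    have hcl : (0 : ℝ) < ((c (Fin.last j) : ℤ) : ℝ) := by
      by_contra hcon
      have : ((c (Fin.last j) : ℤ) : ℝ) * L ^ (A + 2) ≤ 0 := mul_nonpos_of_nonpos_of_nonneg (not_lt.1 hcon) (by positivity)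
      linarith
    have h3 : ((j : ℝ) + 1) * H < n * ((c (Fin.last j) : ℤ) : ℝ) := by
      calc ((j : ℝ) + 1) * H < (j + 1) * (((c (Fin.last j) : ℤ) : ℝ) * L ^ (A + 2)) :=
            mul_lt_mul_of_pos_left n5' (by positivity)
        _ = ((j + 1) * L ^ (A + 2)) * ((c (Fin.last j) : ℤ) : ℝ) := by ring
        _ ≤ n * ((c (Fin.last j) : ℤ) : ℝ) := mul_le_mul_of_nonneg_right h1.le hcl.le
    exact_mod_cast h3
  have hla : (K : ℝ) / (2 * (j + 2) * L) ≤ la F K := by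
    apply la_lower j hj k6 hKHn _ hc
    have : 6 * (j : ℝ) ≤ K := k5.trans hK1
    exact_mod_cast this
  have hla0 : 0 ≤ la F K := le_trans (by positivity) hla
  have hSS0 : 0 ≤ SS z F := SS_nonneg F z
  have hSSb : 8 * ((j : ℝ) + 2) / L ≤ SS z F := by
    have hs1 := hSSl z hz3 F (pol_natDegree_le c) (fun p hp _ => hnf p hp)
    have hzle : (z:ℝ) ≤ L ^ E := Nat.floor_le (by positivity)
    have hzr : (3:ℝ) ≤ z := by exact_mod_cast hz3
    have hlogz : Real.log z ≤ E * Real.log L := by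
      rw [← Real.log_pow]
      exact Real.log_le_log (by linarith) hzle
    have hlogz0 : 0 < Real.log z := Real.log_pos (by linarith)
    refine le_trans ?_ hs1
    rw [div_le_div_iff₀ hL0 (by positivity)]
    calc 8 * ((j:ℝ) + 2) * Real.log z ^ (2 * j) ≤ 8 * (j + 2) * (E * Real.log L) ^ (2 * j) := by
          gcongr
      _ = (E * Real.log L) ^ (2 * j) * (8 * (j + 2)) := by ring
      _ ≤ cS * L := k8
  have hpa : SS z F * la F K / 2 ≤ pa F K := by
    have h1 := (abs_le.1 hcount).1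
    have h2 : SS z F * la F K / L ^ A ≤ SS z F * la F K / 2 := by
      apply div_le_div_of_nonneg_left (by positivity) (by norm_num)
      calc (2 : ℝ) ≤ L := by linarith
        _ ≤ L ^ A := le_self_pow₀ hL1 (by omega)
    linarith
  have hpapv : pa F K - N0 ≤ (PV F K).card := by
    have h1 : ((Icc 1 K).filter (fun n : ℕ => (F.eval (n : ℤ)).natAbs.Prime)) ⊆ Icc 1 N0 ∪ PV F K := by
      intro n hn
      rw [mem_filter, mem_Icc] at hn
      rw [mem_union]
      by_cases h2 : n ≤ N0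
      · left; exact mem_Icc.2 ⟨hn.1.1, h2⟩
      · right
        rw [PV, mem_filter]
        refine ⟨mem_Icc.2 hn.1, ?_⟩
        have h3 := hbig n (not_le.1 h2)
        have h4 : (F.eval (n : ℤ)).toNat = (F.eval (n : ℤ)).natAbs := by
          have : 0 ≤ F.eval (n : ℤ) := by linarith [Int.natCast_nonneg H]
          omega
        rw [h4]
        exact hn.2
    have h2 := (card_le_card h1).trans (card_union_le _ _)
    rw [Nat.card_Icc, Nat.add_sub_cancel] at h2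
    have h3 : pa F K ≤ N0 + (PV F K).card := by
      unfold pa
      exact_mod_cast h2
    linarith
  set PP : ℝ := SS z F * K / (4 * (j + 2) * L) with hPP
  have hPPpa : PP ≤ pa F K := by
    refine le_trans ?_ hpa
    calc PP = SS z F * (K / (2 * (j + 2) * L)) / 2 := by rw [hPP]; field_simp; ring
      _ ≤ SS z F * la F K / 2 := by
        apply div_le_div_of_nonneg_right _ (by norm_num)
        exact mul_le_mul_of_nonneg_left hla hSS0
  have hPPl : 2 * (K : ℝ) / L ^ 2 ≤ PP := by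
    calc 2 * (K : ℝ) / L ^ 2 = (8 * ((j : ℝ) + 2) / L) * K / (4 * (j + 2) * L) := by field_simp; ring
      _ ≤ _ := by
        rw [hPP]
        apply div_le_div_of_nonneg_right _ (by positivity)
        exact mul_le_mul_of_nonneg_right hSSb hKpos.le
  have hN0K : (1 / t + 2) * (N0 : ℝ) ≤ K / L ^ 2 := by
    rw [le_div_iff₀ (by positivity)]
    refine le_trans ?_ (k2.trans hK1)
    gcongr
    linarith
  have hN00 : (0 : ℝ) ≤ N0 := Nat.cast_nonneg _
  have hN0' : (N0 : ℝ) ≤ K / L ^ 2 := by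
    refine le_trans ?_ hN0K
    have : 0 < 1 / t := by positivity
    nlinarith
  have hPV2 : PP / 2 ≤ (PV F K).card := by
    have h1 : 2 * (K : ℝ) / L ^ 2 = 2 * (K / L ^ 2) := by ring
    linarith
  have hPVK : (K : ℝ) / L ^ 2 ≤ (PV F K).card := by
    have h1 : 2 * (K : ℝ) / L ^ 2 = 2 * (K / L ^ 2) := by ring
    linarith
  refine ⟨hPVK, ?_, N0, ?_, hbig⟩
  · have h1 : V (fn F) 1 K ≤ Kv * SS z F / L := by
      refine (V_mono F ?_).trans n2'
      have h2 : (⌊(H : ℝ) ^ τ⌋₊ : ℝ) ≤ K := by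
        refine (Nat.floor_le (by positivity)).trans (le_trans ?_ hK1)
        exact Real.rpow_le_rpow_of_exponent_le hH1 hτε
      exact_mod_cast h2
    calc (K : ℝ) * V (fn F) 1 K ≤ K * (Kv * SS z F / L) := mul_le_mul_of_nonneg_left h1 hKpos.le
      _ = 8 * (j + 2) * Kv * (PP / 2) := by rw [hPP]; field_simp; ring
      _ ≤ 8 * (j + 2) * Kv * (PV F K).card := mul_le_mul_of_nonneg_left hPV2 (by positivity)
  · have h5 : 1 / t * (N0 : ℝ) ≤ (PV F K).card := by
      refine le_trans ?_ (hN0K.trans hPVK)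
      nlinarith
    calc (N0 : ℝ) = t * (1 / t * N0) := by field_simp
      _ ≤ _ := mul_le_mul_of_nonneg_left h5 ht.le

open Classical in
/-- **almost all polynomials**: dense sets of arguments of prime values in all short intervals -/
theorem polyA (j : ℕ) (hj : 1 ≤ j) (κ ε : ℝ) (hκ : 0 < κ) (hε : 0 < ε) (U : ℕ) : ∃ c₀ : ℝ, 0 < c₀ ∧
    ∀ k : ℕ, 2 ≤ k → ∃ B H₀ : ℕ, ∀ H : ℕ, H₀ ≤ H → ∃ Bad : Finset (Fin (j + 1) → ℤ),
      (Bad.card : ℝ) ≤ ((box j H).card : ℝ) / Real.log H ^ U ∧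
      ∀ c ∈ box j H, c ∉ Bad → (∀ p : ℕ, p.Prime → rho (pol c) p ≠ p) →
      ∀ K : ℕ, (H : ℝ) ^ ε ≤ K → (K : ℝ) * Real.log H ^ B ≤ H →
        (K : ℝ) / Real.log H ^ 2 ≤ (PV (pol c) K).card ∧
        ∀ S ⊆ PV (pol c) K, κ * (PV (pol c) K).card ≤ S.card →
          c₀ * K ≤ (((Ioc 0 K).filter (fun n : ℕ => ∀ M : ℕ, (K : ℝ) ≤ c₀ * ((PV (pol c) K).card * M) → M ≤ K →
            c₀ * ((PV (pol c) K).card * M) / K ≤
              ((S.filter (fun x => InP S k (Real.log H ^ B) x ∧ x ∈ Ioc n (n + M))).card : ℝ))).card : ℝ) := by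
  obtain ⟨C, hC, h1⟩ := cnt j hj ε hε (U + 1)
  obtain ⟨c₁, hc₁, H₁, h2⟩ := dense (1 + j) (1 / 2) (2 * C / κ) (by norm_num) (by positivity)
  obtain ⟨c₀, hc₀⟩ : ∃ c₀ : ℝ, c₀ = c₁ * min 1 (κ / 2) := ⟨_, rfl⟩
  have hmin : 0 < min 1 (κ / 2) := lt_min one_pos (by positivity)
  have hc₀0 : 0 < c₀ := by rw [hc₀]; positivity
  have hc₀1 : c₀ ≤ c₁ := by
    rw [hc₀]
    calc c₁ * min 1 (κ / 2) ≤ c₁ * 1 := mul_le_mul_of_nonneg_left (min_le_left _ _) hc₁.le
      _ = c₁ := mul_one _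
  have hc₀2 : c₀ ≤ c₁ * (κ / 2) := by
    rw [hc₀]
    exact mul_le_mul_of_nonneg_left (min_le_right _ _) hc₁.le
  obtain ⟨B₁, H₂, h3⟩ := h1 (κ / 4) (by positivity)
  refine ⟨c₀, hc₀0, fun k hk => ?_⟩
  obtain ⟨B₂, H₃, h4⟩ := main j hj k hk (κ / 2) ε (by positivity) hε (U + 1)
  have tc : Tendsto (fun H : ℕ => (H : ℝ)) atTop atTop := tendsto_natCast_atTop_atTop
  have tpe : Tendsto (fun H : ℕ => (H : ℝ) ^ ε) atTop atTop := (tendsto_rpow_atTop hε).comp tc
  obtain ⟨H₄, hH₄⟩ := eventually_atTop.1 ((evt_log_ge 2).and ((tpe.eventually_ge_atTop (H₁ : ℝ)).and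
    (eventually_ge_atTop 1)))
  refine ⟨max B₁ B₂, max (max H₂ H₃) H₄, fun H hH => ?_⟩
  have y2 : H₂ ≤ H := (le_max_left _ _).trans ((le_max_left _ _).trans hH)
  have y3 : H₃ ≤ H := (le_max_right _ _).trans ((le_max_left _ _).trans hH)
  obtain ⟨k1, k2, k3⟩ := hH₄ H ((le_max_right _ _).trans hH)
  obtain ⟨Bad1, b1, b2⟩ := h3 H y2
  obtain ⟨Bad2, b3, b4⟩ := h4 H y3
  obtain ⟨L, hL⟩ : ∃ L : ℝ, L = Real.log (H : ℝ) := ⟨_, rfl⟩
  rw [← hL] at k1 b1 b2 b3 b4 ⊢
  have hL0 : 0 < L := by linarith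
  have hL1 : 1 ≤ L := by linarith
  refine ⟨Bad1 ∪ Bad2, ?_, fun c hc hcB hnf K hK1 hK2 => ?_⟩
  · have h5 : ((Bad1 ∪ Bad2).card : ℝ) ≤ Bad1.card + Bad2.card := by exact_mod_cast card_union_le _ _
    have h6 : ((box j H).card : ℝ) / L ^ (U + 1) ≤ ((box j H).card : ℝ) / L ^ U / 2 := by
      rw [pow_succ, ← div_div]
      exact div_le_div_of_nonneg_left (by positivity) (by norm_num) k1
    linarith
  rw [mem_union, not_or] at hcB
  have hHR : (0 : ℝ) < H := by exact_mod_cast k3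
  have hKpos : (0 : ℝ) < K := lt_of_lt_of_le (Real.rpow_pos_of_pos hHR ε) hK1
  have hKB : ∀ B' : ℕ, B' ≤ max B₁ B₂ → (K : ℝ) * L ^ B' ≤ H := by
    intro B' hB'
    refine le_trans ?_ hK2
    apply mul_le_mul_of_nonneg_left _ hKpos.le
    exact pow_le_pow_right₀ hL1 hB'
  obtain ⟨g1, g2, N0, g3, g4⟩ := b2 c hc hcB.1 hnf K hK1 (hKB _ (le_max_left _ _))
  obtain ⟨-, g5⟩ := b4 c hc hcB.2 hnf K hK1 (hKB _ (le_max_right _ _))
  refine ⟨g1, fun S hS hSc => ?_⟩
  have g6 := g5 S hS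
  obtain ⟨S', hS'⟩ : ∃ S' : Finset ℕ, S' = S.filter (fun x => InP S k (L ^ max B₁ B₂) x) := ⟨_, rfl⟩
  have hS'S : S' ⊆ S := by rw [hS']; exact filter_subset _ _
  have hLBB : L ^ B₂ ≤ L ^ max B₁ B₂ := pow_le_pow_right₀ hL1 (le_max_right _ _)
  have hS'c : κ / 2 * (PV (pol c) K).card ≤ S'.card := by
    have h7 : ((S.filter (fun x => ¬ InP S k (L ^ max B₁ B₂) x)).card : ℝ) ≤ κ / 2 * (PV (pol c) K).card := by
      refine le_trans ?_ g6
      rw [← Set.ncard_coe_finset]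
      have hsub : ((S.filter (fun x => ¬ InP S k (L ^ max B₁ B₂) x) : Finset ℕ) : Set ℕ) ⊆
          {x : ℕ | x ∈ S ∧ ¬ InP S k (L ^ B₂) x} := by
        intro x hx
        rw [mem_coe, mem_filter] at hx
        refine ⟨hx.1, fun h8 => hx.2 ?_⟩
        obtain ⟨a, d, e1, e2, e3, e4⟩ := h8
        exact ⟨a, d, e1, e2.trans hLBB, e3, e4⟩
      have hfin : {x : ℕ | x ∈ S ∧ ¬ InP S k (L ^ B₂) x}.Finite := (Finset.finite_toSet S).subset fun x hx => hx.1
      exact_mod_cast Set.ncard_le_ncard hsub hfin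
    have h8 : (S'.card : ℝ) + (S.filter (fun x => ¬ InP S k (L ^ max B₁ B₂) x)).card = S.card := by
      rw [hS']
      exact_mod_cast card_filter_add_card_filter_not (s := S) (fun x => InP S k (L ^ max B₁ B₂) x)
    linarith
  have hPVpos : (0 : ℝ) ≤ (PV (pol c) K).card := Nat.cast_nonneg _
  have hKHn : (K : ℝ) ≤ H := by
    have := hKB 0 (Nat.zero_le _)
    rwa [pow_zero, mul_one] at this
  have h9 := h2 (fn (pol c)) 0 K S' (Icc 1 N0) (sysP ((pol_natDegree_le c).trans (by omega)) hnf)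
    (by exact_mod_cast k2.trans hK1) (by
      intro n hn
      have h10 := mem_Icc.1 (mem_filter.1 (hS (hS'S hn))).1
      rw [mem_Ioc]
      omega) (by
      intro n hn hnE p hpp hpK hdv
      have h10 := mem_Icc.1 (mem_filter.1 (hS (hS'S hn))).1
      have h11 : N0 < n := by
        by_contra hcon
        exact hnE (mem_Icc.2 ⟨h10.1, by omega⟩)
      have h12 := (mem_filter.1 (hS (hS'S hn))).2
      have h13 := g4 n h11
      unfold fn at hdv
      have h14 : 0 ≤ (pol c).eval (n : ℤ) := by linarith [Int.natCast_nonneg H]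
      rw [← Int.toNat_of_nonneg h14] at hdv h13
      have h15 : p ∣ ((pol c).eval (n : ℤ)).toNat := Int.natCast_dvd_natCast.1 hdv
      have h16 : p = ((pol c).eval (n : ℤ)).toNat := (Nat.prime_dvd_prime_iff_eq hpp h12).1 h15
      rw [← h16] at h13
      have h17 : (H : ℝ) < p := by exact_mod_cast h13
      have h18 : (K : ℝ) ^ (1 / 2 : ℝ) ≤ K := by
        have hK1' : (1 : ℝ) ≤ K := by
          have : 0 < K := by exact_mod_cast hKpos
          exact_mod_cast this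
        calc (K : ℝ) ^ (1 / 2 : ℝ) ≤ (K : ℝ) ^ (1 : ℝ) := Real.rpow_le_rpow_of_exponent_le hK1' (by norm_num)
          _ = K := Real.rpow_one _
      linarith) (by
      rw [Nat.card_Icc, Nat.add_sub_cancel]
      linarith) (by
      refine g2.trans ?_
      calc C * ((PV (pol c) K).card : ℝ) = 2 * C / κ * (κ / 2 * (PV (pol c) K).card) := by field_simp
        _ ≤ 2 * C / κ * S'.card := by gcongr)
  calc c₀ * (K : ℝ) ≤ c₁ * K := by gcongr
    _ ≤ _ := h9
    _ ≤ _ := by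
        rw [zero_add]
        have h20 : (Ioc 0 K).filter (fun n : ℕ => ∀ M : ℕ, (K : ℝ) ≤ c₁ * (S'.card * M) → M ≤ K →
            c₁ * (S'.card * M) / K ≤ ((S'.filter (fun x => x ∈ Ioc n (n + M))).card : ℝ)) ⊆
            (Ioc 0 K).filter (fun n : ℕ => ∀ M : ℕ, (K : ℝ) ≤ c₀ * ((PV (pol c) K).card * M) → M ≤ K →
            c₀ * ((PV (pol c) K).card * M) / K ≤
              ((S.filter (fun x => InP S k (L ^ max B₁ B₂) x ∧ x ∈ Ioc n (n + M))).card : ℝ)) := by
          intro n hn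
          rw [mem_filter] at hn ⊢
          refine ⟨hn.1, fun M hM1 hM2 => ?_⟩
          have hM0 : (0 : ℝ) ≤ M := Nat.cast_nonneg _
          have h21 : c₀ * ((PV (pol c) K).card * (M : ℝ)) ≤ c₁ * (S'.card * M) := by
            calc c₀ * ((PV (pol c) K).card * (M : ℝ)) ≤ c₁ * (κ / 2) * ((PV (pol c) K).card * (M : ℝ)) := by gcongr
              _ = c₁ * ((κ / 2 * (PV (pol c) K).card) * M) := by ring
              _ ≤ _ := by gcongr
          have h22 := hn.2 M (hM1.trans h21) hM2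
          have h23 : (S'.filter (fun x => x ∈ Ioc n (n + M))) =
              S.filter (fun x => InP S k (L ^ max B₁ B₂) x ∧ x ∈ Ioc n (n + M)) := by
            rw [hS', filter_filter]
          rw [← h23]
          refine le_trans ?_ h22
          gcongr
        exact_mod_cast card_le_card h20

end Pool.Agent.U497.AW
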