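import Pool.Agent.U497.AW.Win
import Pool.Agent.U497.UT.Sysf

/-!
# Almost prime values of systems of polynomials in all windows around almost all integers (helper497)
-/

set_option autoImplicit false

namespace Pool.Agent.U497.AW

open Finset Polynomial

/-- `f_1, ..., f_k` are nonconstant polynomials of degree at most `d` without fixed prime divisor. -/
structure Adm (k d : ℕ) (f : Fin k → ℤ[X]) : Prop where
  nonconstant : ∀ i, 1 ≤ (f i).natDegree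
  degree : ∀ i, (f i).natDegree ≤ d
  locally : ∀ p : ℕ, p.Prime → ∃ n : ℤ, ∀ i, ¬ (p : ℤ) ∣ (f i).eval n

/-- The number of the classes `n` modulo `p` for which `p` divides some `f_i(n)`. -/
def om {k : ℕ} (f : Fin k → ℤ[X]) (p : ℕ) : ℕ :=
  ((range p).filter (fun n : ℕ => ∃ i, (p : ℤ) ∣ (f i).eval (n : ℤ))).card

/-- The sieve product `∏_{p ≤ z} (1 - ω(p) / p)`. -/
noncomputable def dens {k : ℕ} (f : Fin k → ℤ[X]) (z : ℕ) : ℝ :=
  ∏ p ∈ (Icc 1 z).filter Nat.Prime, (1 - (om f p : ℝ) / p)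

/-- `x` has no prime factor `p ≤ z`. -/
def Rgh (z : ℕ) (x : ℤ) : Prop := ∀ p : ℕ, p.Prime → p ≤ z → ¬ (p : ℤ) ∣ x

/-- The number of the `m` with `u < m ≤ v` for which no `f_i(m)` has a prime factor `p ≤ z`. -/
noncomputable def cntW {k : ℕ} (f : Fin k → ℤ[X]) (z u v : ℕ) : ℕ :=
  Set.ncard {m : ℕ | u < m ∧ m ≤ v ∧ ∀ i, Rgh z ((f i).eval (m : ℤ))}

/-- the exceptions -/
def excW {k : ℕ} (f : Fin k → ℤ[X]) (ε K : ℝ) (z Y H : ℕ) : Set ℕ :=
  {n : ℕ | ∃ u v : ℕ, Y ≤ u ∧ u < n ∧ n ≤ v ∧ v ≤ Y + H ∧ K ≤ dens f z * ((v : ℝ) - u) ∧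
    ε * (dens f z * ((v : ℝ) - u)) < |(cntW f z u v : ℝ) - dens f z * ((v : ℝ) - u)|}

lemma adm_psys {k d : ℕ} {f : Fin k → ℤ[X]} (h : Adm k d f) :
    ∃ T : ℤ, Pool.Agent.U497.UT.PSys k d T f := by
  refine ⟨∑ i, ∑ j ∈ range (d + 1), |(f i).coeff j|, h.nonconstant, h.degree, fun i j => ?_, h.locally⟩
  have h0 : ∀ i, 0 ≤ ∑ j ∈ range (d + 1), |(f i).coeff j| := fun i => sum_nonneg fun _ _ => abs_nonneg _
  refine le_trans ?_ (single_le_sum (f := fun i => ∑ j ∈ range (d + 1), |(f i).coeff j|) (fun i _ => h0 i) (mem_univ i))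
  by_cases hj : j ≤ d
  · exact single_le_sum (f := fun j => |(f i).coeff j|) (fun _ _ => abs_nonneg _) (mem_range.2 (Nat.lt_succ_of_le hj))
  · rw [coeff_eq_zero_of_natDegree_lt (lt_of_le_of_lt (h.degree i) (not_le.1 hj)), abs_zero]
    exact h0 i

lemma prod_dvd_iff {k : ℕ} (f : Fin k → ℤ[X]) {p : ℕ} (hp : p.Prime) (x : ℤ) :
    (p : ℤ) ∣ Pool.Agent.U497.SP.fn (∏ i, f i) x ↔ ∃ i, (p : ℤ) ∣ (f i).eval x := by
  unfold Pool.Agent.U497.SP.fn
  rw [eval_prod, (Nat.prime_iff_prime_int.1 hp).dvd_finsetProd_iff]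
  simp

lemma dens_eq {k : ℕ} (f : Fin k → ℤ[X]) (z : ℕ) :
    Pool.Agent.Y677.RSZ.V (Pool.Agent.U497.SP.fn (∏ i, f i)) 1 z = dens f z := by
  classical
  unfold Pool.Agent.Y677.RSZ.V dens
  have h1 : Pool.Agent.TH423.SH.PS 1 z = (Icc 1 z).filter Nat.Prime := by
    unfold Pool.Agent.TH423.SH.PS
    apply filter_congr
    intro p _
    constructor
    · exact fun h => h.1
    · exact fun h => ⟨h, fun h2 => h.one_lt.ne' (Nat.dvd_one.1 h2)⟩
  rw [h1]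
  apply prod_congr rfl
  intro p hp
  have hpp := (mem_filter.1 hp).2
  have h2 : Pool.Agent.Y677.RSZ.rt (Pool.Agent.U497.SP.fn (∏ i, f i)) p = om f p := by
    unfold Pool.Agent.Y677.RSZ.rt om
    congr 1
    apply filter_congr
    intro r _
    exact prod_dvd_iff f hpp _
  rw [h2]

open Classical in
lemma cntW_eq {k : ℕ} (f : Fin k → ℤ[X]) (z u v : ℕ) : cntW f z u v = ((Ioc u v).filter
    (fun m : ℕ => ∀ p ∈ Pool.Agent.TH423.SH.PS 1 z, ¬ (p : ℤ) ∣ Pool.Agent.U497.SP.fn (∏ i, f i) (m : ℤ))).card := by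
  unfold cntW
  rw [← Set.ncard_coe_finset]
  congr 1
  ext m
  rw [mem_coe, mem_filter, mem_Ioc, Set.mem_ofPred_eq, and_assoc]
  apply and_congr_right
  intro _
  apply and_congr_right
  intro _
  constructor
  · intro h p hp hd
    have hp' := mem_ps.1 hp
    obtain ⟨i, hi⟩ := (prod_dvd_iff f hp'.1 _).1 hd
    exact h i p hp'.1 hp'.2.1 hi
  · intro h i p hp hpz hd
    exact h p (mem_ps.2 ⟨hp, hpz, fun h2 => hp.one_lt.ne' (Nat.dvd_one.1 h2)⟩)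
      ((prod_dvd_iff f hp _).2 ⟨i, hd⟩)

/-- the number of the prime factors -/
lemma factors {δ : ℝ} {z H A d : ℕ} (hδ : 0 < δ) (hH : 2 ≤ H) (hH2 : (d + 1) * 3 ^ d ≤ H) (hz : (H : ℝ) ^ δ ≤ z) {g : ℤ[X]}
    (hg : g.natDegree ≤ d) (hc : ∀ j, |g.coeff j| ≤ (H : ℤ) ^ A) {m : ℕ} (hm : m ≤ H ^ A + H) (hz2 : 2 ≤ z)
    (hr : Rgh z (g.eval (m : ℤ))) :
    g.eval (m : ℤ) ≠ 0 ∧ ((g.eval (m : ℤ)).natAbs.primeFactorsList.length : ℝ) ≤ (A + 1) * (d + 1) / δ := by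
  have hne : g.eval (m : ℤ) ≠ 0 := by
    intro h0
    apply hr 2 Nat.prime_two hz2
    rw [h0]
    exact dvd_zero _
  refine ⟨hne, ?_⟩
  obtain ⟨x, hx⟩ : ∃ x : ℕ, x = (g.eval (m : ℤ)).natAbs := ⟨_, rfl⟩
  have hx0 : x ≠ 0 := by rw [hx]; exact Int.natAbs_ne_zero.2 hne
  rw [← hx]
  have hH0 : (0 : ℝ) < H := by exact_mod_cast (by omega : 0 < H)
  have hm3 : m ≤ 3 * H ^ (A + 1) := by
    have h1 : H ^ A ≤ H ^ (A + 1) := Nat.pow_le_pow_right (by omega) (by omega)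
    have h2 : H ≤ H ^ (A + 1) := Nat.le_self_pow (by omega) _
    omega
  -- the size
  have hsize : x ≤ H ^ ((A + 1) * (d + 1)) := by
    have h1 : |g.eval (m : ℤ)| ≤ (d + 1) * ((H : ℤ) ^ A * (3 * (H : ℤ) ^ (A + 1)) ^ d) := by
      rw [eval_eq_sum_range' (Nat.lt_succ_of_le hg)]
      calc |∑ j ∈ range (d + 1), g.coeff j * (m : ℤ) ^ j| ≤ ∑ j ∈ range (d + 1), |g.coeff j * (m : ℤ) ^ j| :=
            abs_sum_le_sum_abs _ _
        _ ≤ ∑ _j ∈ range (d + 1), (H : ℤ) ^ A * (3 * (H : ℤ) ^ (A + 1)) ^ d := by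
            apply sum_le_sum
            intro j hj
            rw [abs_mul, abs_pow, Nat.abs_cast]
            have h2 : (m : ℤ) ≤ 3 * (H : ℤ) ^ (A + 1) := by exact_mod_cast hm3
            have h3 : (1 : ℤ) ≤ 3 * (H : ℤ) ^ (A + 1) := by
              have : (1 : ℤ) ≤ (H : ℤ) ^ (A + 1) := one_le_pow₀ (by exact_mod_cast (by omega : 1 ≤ H))
              linarith
            have h4 : (m : ℤ) ^ j ≤ (3 * (H : ℤ) ^ (A + 1)) ^ d :=
              (pow_le_pow_left₀ (Int.natCast_nonneg _) h2 j).trans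
                (pow_le_pow_right₀ h3 (Nat.lt_succ_iff.1 (mem_range.1 hj)))
            exact mul_le_mul (hc j) h4 (by positivity) (by positivity)
        _ = _ := by rw [sum_const, card_range, nsmul_eq_mul]; push_cast; ring
    have h2 : (x : ℤ) ≤ (d + 1) * ((H : ℤ) ^ A * (3 * (H : ℤ) ^ (A + 1)) ^ d) := by
      rw [hx, Int.natCast_natAbs]
      exact h1
    have h3 : x ≤ (d + 1) * (H ^ A * (3 * H ^ (A + 1)) ^ d) := by exact_mod_cast h2
    calc x ≤ (d + 1) * (H ^ A * (3 * H ^ (A + 1)) ^ d) := h3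
      _ = ((d + 1) * 3 ^ d) * (H ^ A * H ^ ((A + 1) * d)) := by
          rw [mul_pow, ← pow_mul]
          ring
      _ ≤ H * (H ^ A * H ^ ((A + 1) * d)) := Nat.mul_le_mul_right _ hH2
      _ = H ^ ((A + 1) * (d + 1)) := by
          rw [← pow_add, ← pow_succ']
          congr 1
          ring
  have hlist : z ^ x.primeFactorsList.length ≤ x := by
    have h1 : z ^ x.primeFactorsList.length ≤ x.primeFactorsList.prod := by
      apply List.pow_card_le_prod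
      intro p hp
      have hpp := Nat.prime_of_mem_primeFactorsList hp
      have hpd := Nat.dvd_of_mem_primeFactorsList hp
      by_contra hcon
      apply hr p hpp (by omega)
      rw [hx] at hpd
      exact Int.natCast_dvd.2 hpd
    rwa [Nat.prod_primeFactorsList hx0] at h1
  rw [le_div_iff₀ hδ]
  have h1 : ((H : ℝ) ^ δ) ^ x.primeFactorsList.length ≤ (H : ℝ) ^ ((A + 1) * (d + 1)) := by
    calc ((H : ℝ) ^ δ) ^ x.primeFactorsList.length ≤ (z : ℝ) ^ x.primeFactorsList.length := by gcongr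
      _ ≤ x := by exact_mod_cast hlist
      _ ≤ (H : ℝ) ^ ((A + 1) * (d + 1)) := by exact_mod_cast hsize
  rw [← Real.rpow_natCast, ← Real.rpow_mul hH0.le, ← Real.rpow_natCast] at h1
  have h2 := (Real.rpow_le_rpow_left_iff (by exact_mod_cast (by omega : 1 < H) : (1 : ℝ) < H)).1 h1
  push_cast at h2
  linarith

/-- **systems of polynomials** -/
theorem polyWin (k d : ℕ) (ε θ : ℝ) (hε : 0 < ε) (hθ : 0 < θ) :
    ∃ δ K : ℝ, 0 < δ ∧ 0 < K ∧ ∃ H₀ : ℕ, ∀ H : ℕ, H₀ ≤ H → ∃ z : ℕ, (H : ℝ) ^ δ ≤ z ∧ (z : ℝ) ≤ (H : ℝ) ^ θ ∧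
      ∀ f : Fin k → ℤ[X], Adm k d f → ∀ Y : ℕ,
        ((excW f ε K z Y H).ncard : ℝ) ≤ ε * H ∧
        ∀ A : ℕ, (∀ i j, |(f i).coeff j| ≤ (H : ℤ) ^ A) → Y ≤ H ^ A → ∀ m : ℕ, m ≤ Y + H →
          (∀ i, Rgh z ((f i).eval (m : ℤ))) →
          ∀ i, (f i).eval (m : ℤ) ≠ 0 ∧
            (((f i).eval (m : ℤ)).natAbs.primeFactorsList.length : ℝ) ≤ (A + 1) * (d + 1) / δ := by
  classical
  obtain ⟨δ, K, hδ, hK, H₀, h1⟩ := aawin (k * d) (min ε 1) θ (lt_min hε one_pos) (min_le_right _ _) hθ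
  obtain ⟨H₁, hH₁⟩ : ∃ H₁ : ℕ, ∀ H : ℕ, H₁ ≤ H → (2 : ℝ) ≤ (H : ℝ) ^ δ := by
    have h2 : Filter.Tendsto (fun H : ℕ => (H : ℝ) ^ δ) Filter.atTop Filter.atTop :=
      (tendsto_rpow_atTop hδ).comp tendsto_natCast_atTop_atTop
    exact Filter.eventually_atTop.1 (h2.eventually_ge_atTop 2)
  refine ⟨δ, K, hδ, hK, H₀ + H₁ + 2 + (d + 1) * 3 ^ d, fun H hH => ?_⟩
  obtain ⟨z, hz1, hz2, hz3⟩ := h1 H (by omega)
  have hz2' : 2 ≤ z := by
    have h2 := (hH₁ H (by omega)).trans hz1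
    exact_mod_cast h2
  refine ⟨z, hz1, hz2, fun f hf Y => ⟨?_, fun A hA hY m hm hr i => ?_⟩⟩
  · obtain ⟨T, hT⟩ := adm_psys hf
    have h2 := hz3 _ Y hT.sysP
    rw [dens_eq] at h2
    have h3 : excW f ε K z Y H ⊆ (((Ioc Y (Y + H)).filter (fun n => ∃ u v : ℕ, Y ≤ u ∧ u < n ∧ n ≤ v ∧ v ≤ Y + H ∧
        K ≤ dens f z * ((v : ℝ) - u) ∧ min ε 1 * (dens f z * ((v : ℝ) - u)) <
          |(((Ioc u v).filter (fun m : ℕ => ∀ p ∈ Pool.Agent.TH423.SH.PS 1 z,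
          ¬ (p : ℤ) ∣ Pool.Agent.U497.SP.fn (∏ i, f i) (m : ℤ))).card : ℝ) - dens f z * ((v : ℝ) - u)|) :
          Finset ℕ) : Set ℕ) := by
      rintro n ⟨u, v, h4, h5, h6, h7, h8, h9⟩
      rw [mem_coe, mem_filter, mem_Ioc]
      refine ⟨⟨by omega, by omega⟩, u, v, h4, h5, h6, h7, h8, ?_⟩
      rw [← cntW_eq]
      refine lt_of_le_of_lt ?_ h9
      apply mul_le_mul_of_nonneg_right (min_le_left _ _)
      linarith
    have h4 := Set.ncard_le_ncard h3 (Finset.finite_toSet _)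
    rw [Set.ncard_coe_finset] at h4
    calc ((excW f ε K z Y H).ncard : ℝ) ≤ _ := by exact_mod_cast h4
      _ ≤ min ε 1 * H := h2
      _ ≤ ε * H := by
          apply mul_le_mul_of_nonneg_right (min_le_left _ _) (Nat.cast_nonneg _)
  · exact factors hδ (by omega) (by omega) hz1 (hf.degree i) (hA i) (by omega) hz2' (hr i)

end Pool.Agent.U497.AW
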