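import Pool.Agent.U497.AW.Main
import Pool.Agent.U497.UT.Fin

/-!
# Dense sets of prime or almost prime values of systems of polynomials, in all short intervals (helper497)
-/

set_option autoImplicit false

open Finset Polynomial Filter Topology

namespace Pool.Agent.U497.AW

open Pool.Agent.TH423.SH (PS)
open Pool.Agent.Y677.RSZ (rt V V_split)
open Pool.Agent.K3h89.SZ (SysP CF V_lowerP V_posP)
open Pool.Agent.U497.SP (fn InP few)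
open Pool.Agent.U497.UT (PSys v_low small_val ev_sqrt om ser rt_om V_ser mert ser_nonneg sysF)

open Classical in
/-- few arguments with small prime values -/
lemma small_part (k d : ℕ) (δ δ' κ : ℝ) (hδ' : δ' = min δ (1 / 2)) (hκ : 0 < κ) : ∃ H₀ : ℕ, ∀ H : ℕ, H₀ ≤ H →
    ∀ (T : ℤ) (f : Fin k → ℤ[X]), PSys k d T f → ∀ Y : ℕ, ∀ S : Finset ℕ, S ⊆ Ioc Y (Y + H) →
    (∀ n ∈ S, ∀ i, ((f i).eval (n : ℤ)).natAbs.Prime ∨
      ∀ p : ℕ, p.Prime → (p : ℝ) ≤ (H : ℝ) ^ δ → ¬ (p : ℤ) ∣ (f i).eval (n : ℤ)) →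
    ((S.filter (fun n : ℕ => ¬ ∀ i, ∀ p : ℕ, p.Prime → (p : ℝ) ≤ (H : ℝ) ^ δ' →
      ¬ (p : ℤ) ∣ (f i).eval (n : ℤ))).card : ℝ) ≤ κ * (H * V (fn (∏ i, f i)) 1 H) := by
  obtain ⟨K, E, H₂, hK, hV⟩ := v_low (k * d)
  have tl : Tendsto (fun H : ℕ => Real.log (H : ℝ)) atTop atTop :=
    Real.tendsto_log_atTop.comp tendsto_natCast_atTop_atTop
  obtain ⟨H₃, hH₃⟩ := eventually_atTop.1 ((ev_sqrt E (3 * (k * d + 1) * K / κ)).and ((tl.eventually_ge_atTop 1).and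
    (eventually_ge_atTop (d + 2))))
  refine ⟨max H₂ H₃, fun H hH T f hf Y S hS hSa => ?_⟩
  have hH2 : H₂ ≤ H := (le_max_left _ _).trans hH
  obtain ⟨k1, k2, k4⟩ := hH₃ H ((le_max_right _ _).trans hH)
  obtain ⟨L, hL⟩ : ∃ L : ℝ, L = Real.log (H : ℝ) := ⟨_, rfl⟩
  obtain ⟨v, hv⟩ : ∃ v : ℝ, v = V (fn (∏ i, f i)) 1 H := ⟨_, rfl⟩
  have hvl := hV _ H hf.sysP hH2
  rw [← hL, ← hv] at hvl
  rw [← hL] at k1 k2
  rw [← hv]
  have hL0 : 0 < L := by linarith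
  have hHr : (2 : ℝ) ≤ H := by exact_mod_cast (by omega : 2 ≤ H)
  have hH0 : (0 : ℝ) < H := by linarith
  have hv0 : 0 < v := lt_of_lt_of_le (by positivity) hvl
  have hsq1 : 1 ≤ √(H : ℝ) := Real.one_le_sqrt.2 (by linarith)
  have hsm : S.filter (fun n : ℕ => ¬ ∀ i, ∀ p : ℕ, p.Prime → (p : ℝ) ≤ (H : ℝ) ^ δ' →
      ¬ (p : ℤ) ∣ (f i).eval (n : ℤ)) ⊆ univ.biUnion (fun i : Fin k => (Ioc Y (Y + H)).filter (fun n : ℕ =>
      |(f i).eval (n : ℤ)| ≤ ((⌊√(H : ℝ)⌋₊ : ℕ) : ℤ))) := by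
    intro n hn
    rw [mem_filter] at hn
    obtain ⟨hnS, hn2⟩ := hn
    push Not at hn2
    obtain ⟨i, p, hp, hpδ, hpd⟩ := hn2
    rw [mem_biUnion]
    refine ⟨i, mem_univ _, mem_filter.2 ⟨hS hnS, ?_⟩⟩
    have hHδ : (H : ℝ) ^ δ' ≤ √(H : ℝ) := by
      rw [Real.sqrt_eq_rpow]
      apply Real.rpow_le_rpow_of_exponent_le (by linarith)
      rw [hδ']
      exact min_le_right _ _
    rcases hSa n hnS i with h5 | h5
    · have h6 : p = ((f i).eval (n : ℤ)).natAbs :=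
        (Nat.prime_dvd_prime_iff_eq hp h5).1 (Int.natCast_dvd.1 hpd)
      rw [Int.abs_eq_natAbs, ← h6]
      exact_mod_cast Nat.le_floor (hpδ.trans hHδ)
    · exfalso
      apply h5 p hp _ hpd
      refine hpδ.trans (Real.rpow_le_rpow_of_exponent_le (by linarith) ?_)
      rw [hδ']
      exact min_le_left _ _
  have h5 : (S.filter (fun n : ℕ => ¬ ∀ i, ∀ p : ℕ, p.Prime → (p : ℝ) ≤ (H : ℝ) ^ δ' →
      ¬ (p : ℤ) ∣ (f i).eval (n : ℤ))).card ≤ k * (d * (2 * ⌊√(H : ℝ)⌋₊ + 1)) := by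
    refine (card_le_card hsm).trans (card_biUnion_le.trans ?_)
    refine (sum_le_sum fun i _ => small_val (hf.pos i) (hf.deg i) Y H ⌊√(H : ℝ)⌋₊).trans ?_
    rw [sum_const, card_univ, Fintype.card_fin, smul_eq_mul]
  have h6 : ((k * (d * (2 * ⌊√(H : ℝ)⌋₊ + 1)) : ℕ) : ℝ) ≤ 3 * (k * d + 1) * √(H : ℝ) := by
    push_cast
    have h7 : ((⌊√(H : ℝ)⌋₊ : ℕ) : ℝ) ≤ √(H : ℝ) := Nat.floor_le (Real.sqrt_nonneg _)
    have h8 : (0 : ℝ) ≤ (k : ℝ) * d := by positivity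
    calc (k : ℝ) * (d * (2 * (⌊√(H : ℝ)⌋₊ : ℝ) + 1)) = (k * d) * (2 * (⌊√(H : ℝ)⌋₊ : ℝ) + 1) := by ring
      _ ≤ (k * d) * (3 * √(H : ℝ)) := by
          gcongr
          linarith
      _ ≤ 3 * (k * d + 1) * √(H : ℝ) := by nlinarith
  have h9 : 3 * ((k : ℝ) * d + 1) * √(H : ℝ) ≤ κ * (H * v) := by
    have e1 : 3 * ((k : ℝ) * d + 1) * K / κ * L ^ E ≤ √(H : ℝ) := k1
    have e2 : √(H : ℝ) * √(H : ℝ) = H := Real.mul_self_sqrt hH0.le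
    have e3 : (H : ℝ) / (K * L ^ E) ≤ H * v := by
      rw [div_eq_mul_one_div]
      gcongr
    have e4 : 3 * ((k : ℝ) * d + 1) / κ * √(H : ℝ) ≤ H / (K * L ^ E) := by
      rw [le_div_iff₀ (by positivity)]
      calc 3 * ((k : ℝ) * d + 1) / κ * √(H : ℝ) * (K * L ^ E) =
            (3 * ((k : ℝ) * d + 1) * K / κ * L ^ E) * √(H : ℝ) := by ring
        _ ≤ √(H : ℝ) * √(H : ℝ) := by gcongr
        _ = H := e2
    calc 3 * ((k : ℝ) * d + 1) * √(H : ℝ) = κ * (3 * ((k : ℝ) * d + 1) / κ * √(H : ℝ)) := by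
          field_simp
      _ ≤ κ * (H * v) := by
          have := e4.trans e3
          gcongr
  calc _ ≤ ((k * (d * (2 * ⌊√(H : ℝ)⌋₊ + 1)) : ℕ) : ℝ) := by exact_mod_cast h5
    _ ≤ _ := h6.trans h9

open Classical in
/-- **every system of polynomials, all coefficients, all windows** -/
theorem sys (k d : ℕ) (δ κ : ℝ) (hδ : 0 < δ) (hκ : 0 < κ) : ∃ c : ℝ, 0 < c ∧ ∃ H₀ : ℕ, ∀ H : ℕ, H₀ ≤ H →
    ∀ (T : ℤ) (f : Fin k → ℤ[X]), PSys k d T f → ∀ Y : ℕ, ∀ S : Finset ℕ, S ⊆ Ioc Y (Y + H) →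
    (∀ n ∈ S, ∀ i, ((f i).eval (n : ℤ)).natAbs.Prime ∨
      ∀ p : ℕ, p.Prime → (p : ℝ) ≤ (H : ℝ) ^ δ → ¬ (p : ℤ) ∣ (f i).eval (n : ℤ)) →
    κ * (H * V (fn (∏ i, f i)) 1 H) ≤ S.card →
    c * H ≤ (((Ioc Y (Y + H)).filter (fun n : ℕ => ∀ L : ℕ, 1 ≤ V (fn (∏ i, f i)) 1 H * L → L ≤ H →
      c * (V (fn (∏ i, f i)) 1 H * L) ≤ ((S.filter (fun x => x ∈ Ioc n (n + L))).card : ℝ))).card : ℝ) := by
  obtain ⟨δ', hδ'⟩ : ∃ δ' : ℝ, δ' = min δ (1 / 2) := ⟨_, rfl⟩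
  have hδ'0 : 0 < δ' := by rw [hδ']; exact lt_min hδ (by norm_num)
  obtain ⟨c, hc, H₁, h1⟩ := gen (k * d) δ' (κ / 2) hδ'0 (by positivity)
  obtain ⟨H₂, h2⟩ := small_part k d δ δ' (κ / 2) hδ' (by positivity)
  refine ⟨c, hc, max H₁ H₂, fun H hH T f hf Y S hS hSa hSc => ?_⟩
  have h3 := h2 H ((le_max_right _ _).trans hH) T f hf Y S hS hSa
  obtain ⟨S', hS'⟩ : ∃ S' : Finset ℕ, S' = S.filter (fun n : ℕ => ∀ i, ∀ p : ℕ, p.Prime → (p : ℝ) ≤ (H : ℝ) ^ δ' →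
      ¬ (p : ℤ) ∣ (f i).eval (n : ℤ)) := ⟨_, rfl⟩
  have hS'S : S' ⊆ S := by rw [hS']; exact filter_subset _ _
  have h4 : (S'.card : ℝ) + (S.filter (fun n : ℕ => ¬ ∀ i, ∀ p : ℕ, p.Prime → (p : ℝ) ≤ (H : ℝ) ^ δ' →
      ¬ (p : ℤ) ∣ (f i).eval (n : ℤ))).card = S.card := by
    rw [hS']
    exact_mod_cast card_filter_add_card_filter_not (s := S) (fun n : ℕ => ∀ i, ∀ p : ℕ, p.Prime →
      (p : ℝ) ≤ (H : ℝ) ^ δ' → ¬ (p : ℤ) ∣ (f i).eval (n : ℤ))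
  have h5 := h1 (fn (∏ i, f i)) Y H S' hf.sysP ((le_max_left _ _).trans hH) (hS'S.trans hS) (by
    intro n hn p hp hpδ hd
    unfold fn at hd
    rw [eval_prod] at hd
    obtain ⟨i, -, hi⟩ := (Nat.prime_iff_prime_int.1 hp).exists_mem_finset_dvd hd
    rw [hS'] at hn
    exact (mem_filter.1 hn).2 i p hp hpδ hi) (by linarith)
  refine h5.trans ?_
  have h6 : (Ioc Y (Y + H)).filter (fun n : ℕ => ∀ L : ℕ, 1 ≤ V (fn (∏ i, f i)) 1 H * L → L ≤ H →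
      c * (V (fn (∏ i, f i)) 1 H * L) ≤ ((S'.filter (fun x => x ∈ Ioc n (n + L))).card : ℝ)) ⊆
      (Ioc Y (Y + H)).filter (fun n : ℕ => ∀ L : ℕ, 1 ≤ V (fn (∏ i, f i)) 1 H * L → L ≤ H →
      c * (V (fn (∏ i, f i)) 1 H * L) ≤ ((S.filter (fun x => x ∈ Ioc n (n + L))).card : ℝ)) := by
    intro n hn
    rw [mem_filter] at hn ⊢
    refine ⟨hn.1, fun L hL1 hL2 => (hn.2 L hL1 hL2).trans ?_⟩
    exact_mod_cast card_le_card (filter_subset_filter _ hS'S)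
  exact_mod_cast card_le_card h6

open Classical in
/-- the same with the product of Hardy and Littlewood -/
theorem sysG (k d : ℕ) (δ κ : ℝ) (hδ : 0 < δ) (hκ : 0 < κ) : ∃ c : ℝ, 0 < c ∧ ∃ H₀ : ℕ, ∀ H : ℕ, H₀ ≤ H →
    ∀ (T : ℤ) (f : Fin k → ℤ[X]), PSys k d T f → ∀ Y : ℕ, ∀ S : Finset ℕ, S ⊆ Ioc Y (Y + H) →
    (∀ n ∈ S, ∀ i, ((f i).eval (n : ℤ)).natAbs.Prime ∨
      ∀ p : ℕ, p.Prime → (p : ℝ) ≤ (H : ℝ) ^ δ → ¬ (p : ℤ) ∣ (f i).eval (n : ℤ)) →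
    κ * (ser f H * H / Real.log H ^ k) ≤ S.card →
    c * H ≤ (((Ioc Y (Y + H)).filter (fun n : ℕ => ∀ L : ℕ, 1 ≤ c * (ser f H * L / Real.log H ^ k) → L ≤ H →
      c * (ser f H * L / Real.log H ^ k) ≤ ((S.filter (fun x => x ∈ Ioc n (n + L))).card : ℝ))).card : ℝ) := by
  obtain ⟨c₁, C', hc₁, hC', H₁, hM⟩ := mert
  obtain ⟨c₀, hc₀, H₂, h1⟩ := sys k d δ (κ / C' ^ k) hδ (by positivity)
  obtain ⟨c, hc⟩ : ∃ c : ℝ, c = min c₀ 1 * min 1 (c₁ ^ k) := ⟨_, rfl⟩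
  have hm1 : 0 < min c₀ 1 := lt_min hc₀ one_pos
  have hm2 : 0 < min 1 (c₁ ^ k) := lt_min one_pos (by positivity)
  have hc0 : 0 < c := by rw [hc]; positivity
  have hcc₀ : c ≤ c₀ := by
    rw [hc]
    calc min c₀ 1 * min 1 (c₁ ^ k) ≤ c₀ * 1 := mul_le_mul (min_le_left _ _) (min_le_left _ _) hm2.le hc₀.le
      _ = c₀ := mul_one _
  have hcc₁ : c ≤ c₁ ^ k := by
    rw [hc]
    calc min c₀ 1 * min 1 (c₁ ^ k) ≤ 1 * c₁ ^ k := mul_le_mul (min_le_right _ _) (min_le_right _ _) hm2.le one_pos.le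
      _ = _ := one_mul _
  have hcc : c ≤ c₀ * c₁ ^ k := by
    rw [hc]
    exact mul_le_mul (min_le_left _ _) (min_le_right _ _) hm2.le hc₀.le
  refine ⟨c, hc0, max (max H₁ H₂) 3, fun H hH T f hf Y S hS hSa hSc => ?_⟩
  have hH1 : H₁ ≤ H := (le_max_left _ _).trans ((le_max_left _ _).trans hH)
  have hH2 : H₂ ≤ H := (le_max_right _ _).trans ((le_max_left _ _).trans hH)
  have hH3 : 3 ≤ H := (le_max_right _ _).trans hH
  have hL : 0 < Real.log (H : ℝ) := Real.log_pos (by exact_mod_cast (by omega : 1 < H))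
  obtain ⟨m1, m2⟩ := hM H hH1
  have hser := ser_nonneg hf H
  have hP0 : 0 ≤ ∏ p ∈ (Icc 1 H).filter Nat.Prime, (1 - 1 / (p : ℝ)) := le_trans (by positivity) m1
  obtain ⟨u, hu⟩ : ∃ u : ℝ, u = ser f H / Real.log H ^ k := ⟨_, rfl⟩
  have hu0 : 0 ≤ u := by rw [hu]; positivity
  have hux : ∀ x : ℝ, ser f H * x / Real.log H ^ k = u * x := by
    intro x
    rw [hu]
    ring
  have hVu : V (fn (∏ i, f i)) 1 H ≤ C' ^ k * u := by
    rw [V_ser, hu]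
    calc ser f H * (∏ p ∈ (Icc 1 H).filter Nat.Prime, (1 - 1 / (p : ℝ))) ^ k ≤ ser f H * (C' / Real.log H) ^ k := by
          gcongr
      _ = _ := by
          rw [div_pow]
          ring
  have hVl : c₁ ^ k * u ≤ V (fn (∏ i, f i)) 1 H := by
    rw [V_ser, hu]
    calc c₁ ^ k * (ser f H / Real.log H ^ k) = ser f H * (c₁ / Real.log H) ^ k := by
          rw [div_pow]
          ring
      _ ≤ _ := by gcongr
  rw [hux] at hSc
  have h2 := h1 H hH2 T f hf Y S hS hSa (by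
    refine le_trans ?_ hSc
    calc κ / C' ^ k * (H * V (fn (∏ i, f i)) 1 H) ≤ κ / C' ^ k * (H * (C' ^ k * u)) := by gcongr
      _ = κ * (u * H) := by
          field_simp)
  have hH0 : (0 : ℝ) ≤ H := Nat.cast_nonneg _
  calc c * (H : ℝ) ≤ c₀ * H := by gcongr
    _ ≤ _ := h2
    _ ≤ _ := by
        have h6 : (Ioc Y (Y + H)).filter (fun n : ℕ => ∀ L : ℕ, 1 ≤ V (fn (∏ i, f i)) 1 H * L → L ≤ H →
            c₀ * (V (fn (∏ i, f i)) 1 H * L) ≤ ((S.filter (fun x => x ∈ Ioc n (n + L))).card : ℝ)) ⊆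
            (Ioc Y (Y + H)).filter (fun n : ℕ => ∀ L : ℕ, 1 ≤ c * (ser f H * L / Real.log H ^ k) → L ≤ H →
            c * (ser f H * L / Real.log H ^ k) ≤ ((S.filter (fun x => x ∈ Ioc n (n + L))).card : ℝ)) := by
          intro n hn
          rw [mem_filter] at hn ⊢
          refine ⟨hn.1, fun L hL1 hL2 => ?_⟩
          rw [hux] at hL1 ⊢
          have hL0 : (0 : ℝ) ≤ L := Nat.cast_nonneg _
          have h7 : c * (u * L) ≤ V (fn (∏ i, f i)) 1 H * L := by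
            calc c * (u * L) ≤ c₁ ^ k * (u * L) := by gcongr
              _ = (c₁ ^ k * u) * L := by ring
              _ ≤ _ := by gcongr
          refine le_trans ?_ (hn.2 L (hL1.trans h7) hL2)
          calc c * (u * L) ≤ (c₀ * c₁ ^ k) * (u * L) := by gcongr
            _ = c₀ * ((c₁ ^ k * u) * L) := by ring
            _ ≤ _ := by gcongr
        exact_mod_cast card_le_card h6

open Classical in
/-- **with narrow progressions**; `c` does not depend on the length of the progressions -/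
theorem sysA (k d : ℕ) (δ κ : ℝ) (hk : 1 ≤ k) (hδ : 0 < δ) (hκ : 0 < κ) : ∃ c : ℝ, 0 < c ∧
    (∃ H₀ : ℕ, ∀ H : ℕ, H₀ ≤ H →
      ∀ (T : ℤ) (f : Fin k → ℤ[X]), PSys k d T f → ∀ Y : ℕ, ∀ S : Finset ℕ, S ⊆ Ioc Y (Y + H) →
      (∀ n ∈ S, ∀ i, ((f i).eval (n : ℤ)).natAbs.Prime ∨
        ∀ p : ℕ, p.Prime → (p : ℝ) ≤ (H : ℝ) ^ δ → ¬ (p : ℤ) ∣ (f i).eval (n : ℤ)) →
      κ * (ser f H * H / Real.log H ^ k) ≤ S.card →
      c * H ≤ (((Ioc Y (Y + H)).filter (fun n : ℕ => ∀ L : ℕ, 1 ≤ c * (ser f H * L / Real.log H ^ k) → L ≤ H →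
        c * (ser f H * L / Real.log H ^ k) ≤ ((S.filter (fun x => x ∈ Ioc n (n + L))).card : ℝ))).card : ℝ)) ∧
    ∀ C l : ℕ, 2 ≤ l → ∃ B H₀ : ℕ, ∀ H : ℕ, H₀ ≤ H →
    ∀ f : Fin k → ℤ[X], PSys k d ((H : ℤ) ^ C) f → ∀ Y : ℕ, Y ≤ H ^ C → ∀ S : Finset ℕ, S ⊆ Ioc Y (Y + H) →
    (∀ n ∈ S, ∀ i, ((f i).eval (n : ℤ)).natAbs.Prime ∨
      ∀ p : ℕ, p.Prime → (p : ℝ) ≤ (H : ℝ) ^ δ → ¬ (p : ℤ) ∣ (f i).eval (n : ℤ)) →
    κ * (ser f H * H / Real.log H ^ k) ≤ S.card →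
    c * H ≤ (((Ioc Y (Y + H)).filter (fun n : ℕ => ∀ L : ℕ, 1 ≤ c * (ser f H * L / Real.log H ^ k) → L ≤ H →
      c * (ser f H * L / Real.log H ^ k) ≤
        ((S.filter (fun x => InP S l (Real.log H ^ B) x ∧ x ∈ Ioc n (n + L))).card : ℝ))).card : ℝ) := by
  obtain ⟨c, hc, H₁, h1⟩ := sysG k d δ (κ / 2) hδ (by positivity)
  have hpos : ∀ (T : ℤ) (f : Fin k → ℤ[X]), PSys k d T f → ∀ H : ℕ, 0 ≤ κ * (ser f H * H / Real.log H ^ k) := by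
    intro T f hf H
    have h2 := ser_nonneg hf H
    have h3 : 0 ≤ Real.log (H : ℝ) := Real.log_natCast_nonneg H
    positivity
  refine ⟨c, hc, ⟨H₁, fun H hH T f hf Y S hS hSa hSc => ?_⟩, fun C l hl => ?_⟩
  · refine h1 H hH T f hf Y S hS hSa (le_trans ?_ hSc)
    have := hpos T f hf H
    linarith
  obtain ⟨B, H₂, h2⟩ := sysF k d C l δ (κ / 2) hk hl hδ (by positivity)
  refine ⟨B, max H₁ H₂, fun H hH f hf Y hY S hS hSa hSc => ?_⟩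
  have h3 := (h2 H ((le_max_right _ _).trans hH) f hf Y hY S hS hSa).1
  obtain ⟨S', hS'⟩ : ∃ S' : Finset ℕ, S' = S.filter (fun x => InP S l (Real.log H ^ B) x) := ⟨_, rfl⟩
  have hS'S : S' ⊆ S := by rw [hS']; exact filter_subset _ _
  have h4 : (Set.ncard {n : ℕ | n ∈ S ∧ ¬ InP S l (Real.log H ^ B) n} : ℝ) =
      (S.filter (fun x => ¬ InP S l (Real.log H ^ B) x)).card := by
    rw [← Set.ncard_coe_finset]
    congr 2
    ext n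
    rw [mem_coe, mem_filter]
    rfl
  rw [h4] at h3
  have h5 : (S'.card : ℝ) + (S.filter (fun x => ¬ InP S l (Real.log H ^ B) x)).card = S.card := by
    rw [hS']
    exact_mod_cast card_filter_add_card_filter_not (s := S) (fun x => InP S l (Real.log H ^ B) x)
  have h6 := h1 H ((le_max_left _ _).trans hH) _ f hf Y S' (hS'S.trans hS) (fun n hn i => hSa n (hS'S hn) i)
    (by linarith)
  rw [hS'] at h6
  simp only [filter_filter] at h6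
  exact h6

end Pool.Agent.U497.AW
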