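import Pool.Agent.K3h89.SZ.LOWP
import Pool.Agent.K3h89.SZ.C1P

/-!
# An upper bound sieve for the values of a function with periodic divisibility (helper497)
-/

set_option autoImplicit false

open Finset

namespace Pool.Agent.U497.AW

open Pool.Agent.TH423.SH (PS)
open Pool.Agent.Y677.RSZ (rt rhoT V rs fac_nonneg fac_le exJ ev_log V_le_one)
open Pool.Agent.K3h89.SZ (SysP CF V_lowerP V_posP card_shiftP perP_mod S_C1P)

/-- an upper bound for the number of the `n` in an interval of length `H` for which `F n` has no prime factor `p ≤ z`,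
`p ∤ W`; `z` is a power of `H` -/
theorem upp (g s : ℕ) (δ : ℝ) (hδ : 0 < δ) : ∃ W E H₀ : ℕ, 0 < W ∧ 1 ≤ E ∧ (∀ p : ℕ, p.Prime → p ≤ s → p ∣ W) ∧
    ∀ H : ℕ, H₀ ≤ H → ∃ z : ℕ, (z : ℝ) ≤ (H : ℝ) ^ δ ∧ z ≤ H ∧ H < z ^ (8 * E) ∧
    ∀ (F : ℤ → ℤ) (Y : ℕ), SysP g F → ∀ T ⊆ Ioc Y (Y + H), (∀ n ∈ T, ∀ p ∈ PS W z, ¬ (p : ℤ) ∣ F (n : ℤ)) →
      (T.card : ℝ) ≤ 3 * (H * V F W z) := by
  classical
  obtain ⟨C, hC1, hC⟩ := Pool.Agent.K3h89.SZ.C1P.c1P
  obtain ⟨b₀, hb₀⟩ : ∃ b₀ : ℕ, b₀ = C * (g * 1 + 1) + ⌈1 / δ⌉₊ := ⟨_, rfl⟩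
  have hb₀1 : 1 ≤ b₀ := by
    rw [hb₀]
    have := Nat.mul_pos hC1 (show 0 < g * 1 + 1 by omega)
    omega
  obtain ⟨E, hE⟩ : ∃ E : ℕ, E = C * b₀ := ⟨_, rfl⟩
  have hE1 : 1 ≤ E := by rw [hE]; exact Nat.mul_pos hC1 hb₀1
  have hEδ : 1 / (4 * (E : ℝ)) ≤ δ := by
    have h1 : 1 / δ ≤ (⌈1 / δ⌉₊ : ℝ) := Nat.le_ceil _
    have h2 : (⌈1 / δ⌉₊ : ℝ) ≤ E := by
      have : ⌈1 / δ⌉₊ ≤ E := by
        rw [hE]
        calc ⌈1 / δ⌉₊ ≤ b₀ := by rw [hb₀]; exact Nat.le_add_left _ _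
          _ ≤ C * b₀ := Nat.le_mul_of_pos_left _ hC1
      exact_mod_cast this
    have h3 : (1 : ℝ) ≤ E := by exact_mod_cast hE1
    rw [div_le_iff₀ (by positivity)]
    rw [div_le_iff₀ hδ] at h1
    nlinarith
  obtain ⟨W, hW⟩ : ∃ W : ℕ, W = primorial (C * (g * 1 + 1) + (2 * g + 2) + s) := ⟨_, rfl⟩
  have hWpos : 0 < W := by rw [hW]; exact primorial_pos _
  have hW0 : (0 : ℝ) < W := by exact_mod_cast hWpos
  have hWp : ∀ p : ℕ, p.Prime → p ≤ C * (g * 1 + 1) + (2 * g + 2) + s → p ∣ W := fun p hp hpS => by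
    rw [hW]; exact hp.dvd_primorial_iff.2 hpS
  obtain ⟨KV, hKV1, hKV⟩ := V_lowerP
  have hnum : ∃ H₀ : ℕ, ∀ H : ℕ, H₀ ≤ H → 2 ≤ H ∧ 2 ^ (4 * E) ≤ H ∧
      4 * W * (KV * Real.log H) ^ (2 * g) * (H : ℝ) ^ (1 / 4 : ℝ) ≤ H := by
    apply Filter.eventually_atTop.1
    filter_upwards [Filter.eventually_ge_atTop 2, Filter.eventually_ge_atTop (2 ^ (4 * E)),
      ev_log (2 * g) (4 * W * KV ^ (2 * g)) (3 / 4) (by norm_num)]
      with H h1 h2 h4
    have hH0 : (0 : ℝ) < H := by exact_mod_cast (show 0 < H by omega)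
    refine ⟨h1, h2, ?_⟩
    calc 4 * W * (KV * Real.log H) ^ (2 * g) * (H : ℝ) ^ (1 / 4 : ℝ) =
        (4 * W * KV ^ (2 * g) * Real.log H ^ (2 * g)) * (H : ℝ) ^ (1 / 4 : ℝ) := by
          rw [mul_pow]; ring
      _ ≤ (H : ℝ) ^ (3 / 4 : ℝ) * (H : ℝ) ^ (1 / 4 : ℝ) := by gcongr
      _ = H := by rw [← Real.rpow_add hH0]; norm_num
  obtain ⟨H₀, hH₀⟩ := hnum
  refine ⟨W, E, H₀, hWpos, hE1, fun p hp hps => hWp p hp (by omega), ?_⟩
  intro H hH
  obtain ⟨n1, n2, n4⟩ := hH₀ H hH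
  have hH0 : (0 : ℝ) < H := by exact_mod_cast (show 0 < H by omega)
  have hHr1 : (1 : ℝ) ≤ H := by exact_mod_cast (show 1 ≤ H by omega)
  obtain ⟨J, hJ1, hJ2⟩ := exJ E H hE1 n2
  obtain ⟨z, hz⟩ : ∃ z : ℕ, z = 2 ^ 2 ^ J := ⟨_, rfl⟩
  rw [← hz] at hJ1 hJ2
  have hz1 : 1 ≤ z := by rw [hz]; exact Nat.one_le_two_pow
  have hzle : z ≤ H := by
    have h1 : z ≤ z ^ (4 * E) := Nat.le_self_pow (by omega) _
    exact h1.trans hJ1
  have hzδ : (z : ℝ) ≤ (H : ℝ) ^ δ := by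
    have h1 : ((z : ℝ)) ^ (4 * E) ≤ H := by exact_mod_cast hJ1
    have hE0 : (0 : ℝ) < E := by exact_mod_cast hE1
    calc (z : ℝ) = ((z : ℝ) ^ (4 * E)) ^ (1 / (4 * (E : ℝ))) := by
          rw [← Real.rpow_natCast, ← Real.rpow_mul (Nat.cast_nonneg _)]
          push_cast
          rw [mul_one_div_cancel (by positivity), Real.rpow_one]
      _ ≤ (H : ℝ) ^ (1 / (4 * (E : ℝ))) := Real.rpow_le_rpow (by positivity) h1 (by positivity)
      _ ≤ (H : ℝ) ^ δ := Real.rpow_le_rpow_of_exponent_le hHr1 hEδ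
  refine ⟨z, hzδ, hzle, hJ2, ?_⟩
  intro F Y hF T hTI hT
  obtain ⟨M, hM⟩ : ∃ M : ℕ, M = Y / W := ⟨_, rfl⟩
  obtain ⟨L, hL⟩ : ∃ L : ℕ, L = H / W + 1 := ⟨_, rfl⟩
  have hWL : (W : ℝ) * L ≤ H + W := by
    have h1 : W * L ≤ H + W := by
      rw [hL, mul_add, mul_one]
      have := Nat.mul_div_le H W
      omega
    exact_mod_cast h1
  set t : Fin 1 → ℕ := fun _ => 0 with ht
  have hprod : ∀ b : ℕ, ∏ p ∈ PS W z, (1 - (rhoT F W b t p : ℝ) / p) = V F W z := by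
    intro b
    unfold V
    apply prod_congr rfl
    intro p hp
    unfold PS at hp
    rw [mem_filter] at hp
    have h2 : rhoT F W b t p = rt F p := by
      rw [← card_shiftP hp.2.1 (hF.per p hp.2.1) W b 0 hp.2.2]
      unfold rhoT
      apply congrArg Finset.card
      ext r
      simp only [mem_filter, ht]
      constructor
      · rintro ⟨h3, _, h4⟩; exact ⟨h3, h4⟩
      · rintro ⟨h3, h4⟩; exact ⟨h3, 0, h4⟩
    rw [h2]
  set U : ℕ → Finset ℕ := fun b => (Ioc M (M + L)).filter (fun K => K % 1 = 0 % 1 ∧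
      ∀ p ∈ PS W z, ∀ i, ¬ (p : ℤ) ∣ F ((W * (K + t i) + b : ℕ) : ℤ)) with hU
  have hVz0 : 0 < V F W z := V_posP hF W z
  have hVz1 : V F W z ≤ 1 := by
    unfold V
    exact prod_le_one (fun p _ => fac_nonneg p) (fun p _ => fac_le p)
  have hhalf : (1 / 2 : ℝ) ^ b₀ ≤ 1 / 2 := by
    calc (1 / 2 : ℝ) ^ b₀ ≤ (1 / 2 : ℝ) ^ 1 := pow_le_pow_of_le_one (by norm_num) (by norm_num) hb₀1
      _ = 1 / 2 := by norm_num
  have hUc : ∀ b, ((U b).card : ℝ) ≤ 3 / 2 * (L * V F W z) + (z : ℝ) ^ E := by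
    intro b
    have h1 := hC g 1 b₀ W (by rw [hb₀]; exact Nat.le_add_right _ _) hWpos (fun p hp hpS => hWp p hp (by omega)) F hF t b J
      1 0 M L le_rfl
      (fun p hp h => by
        unfold PS at hp
        rw [mem_filter] at hp
        exact hp.2.1.ne_one (Nat.dvd_one.1 h))
    rw [← hz, hprod b] at h1
    have h1' : |((U b).card : ℝ) - L * V F W z| ≤ (1 / 2 : ℝ) ^ b₀ * (L * V F W z) + (z : ℝ) ^ E := by
      rw [hU, hE]
      have h2 : ((z : ℕ) : ℝ) = (2 : ℝ) ^ 2 ^ J := by rw [hz]; push_cast; rfl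
      rw [h2]
      have h3 : (L : ℝ) / ((1 : ℕ) : ℝ) = L := by simp
      rw [h3] at h1
      convert h1 using 6
    have h2 := (abs_le.1 h1').2
    have h3 : (1 / 2 : ℝ) ^ b₀ * (L * V F W z) ≤ 1 / 2 * (L * V F W z) := by gcongr
    linarith
  -- the cover
  have hsub : T ⊆ (range W).biUnion (fun b => (insert M (U b)).image (fun K => W * K + b)) := by
    intro n hn
    have hn1 := mem_Ioc.1 (hTI hn)
    have hn2 := hT n hn
    rw [mem_biUnion]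
    refine ⟨n % W, mem_range.2 (Nat.mod_lt _ hWpos), mem_image.2 ⟨n / W, ?_, Nat.div_add_mod n W⟩⟩
    rw [mem_insert]
    have h1 : M ≤ n / W := by rw [hM]; exact Nat.div_le_div_right hn1.1.le
    rcases h1.eq_or_lt with h2 | h2
    · exact Or.inl h2.symm
    · right
      rw [hU, mem_filter, mem_Ioc]
      refine ⟨⟨h2, ?_⟩, by simp [Nat.mod_one], ?_⟩
      · have h3 : n / W ≤ (Y + H) / W := Nat.div_le_div_right hn1.2
        have h4 : (Y + H) / W ≤ Y / W + H / W + 1 := by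
          have e1 := Nat.lt_mul_div_succ Y hWpos
          have e2 := Nat.lt_mul_div_succ H hWpos
          have e3 : Y + H < W * (Y / W + H / W + 1 + 1) := by
            have : W * (Y / W + H / W + 1 + 1) = W * (Y / W + 1) + W * (H / W + 1) := by ring
            omega
          exact Nat.lt_succ_iff.1 ((Nat.div_lt_iff_lt_mul hWpos).2 (by rw [Nat.mul_comm] at e3; exact e3))
        omega
      · intro p hp i
        simp only [ht, add_zero]
        rw [Nat.div_add_mod]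
        exact hn2 p hp
  have hcard : T.card ≤ ∑ b ∈ range W, ((U b).card + 1) := by
    refine (card_le_card hsub).trans (card_biUnion_le.trans ?_)
    apply sum_le_sum
    intro b _
    exact card_image_le.trans (card_insert_le _ _)
  have hcard' : (T.card : ℝ) ≤ ∑ _b ∈ range W, (3 / 2 * (L * V F W z) + (z : ℝ) ^ E + 1) := by
    calc (T.card : ℝ) ≤ ∑ b ∈ range W, (((U b).card : ℝ) + 1) := by exact_mod_cast hcard
      _ ≤ _ := sum_le_sum fun b _ => by linarith [hUc b]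
  rw [sum_const, card_range, nsmul_eq_mul] at hcard'
  have hzE1 : (1 : ℝ) ≤ (z : ℝ) ^ E := one_le_pow₀ (by exact_mod_cast hz1)
  have hzE : (z : ℝ) ^ E ≤ (H : ℝ) ^ (1 / 4 : ℝ) := by
    have h2 : ((z : ℝ) ^ E) ^ 4 ≤ H := by
      rw [← pow_mul, mul_comm E 4]; exact_mod_cast hJ1
    calc (z : ℝ) ^ E = (((z : ℝ) ^ E) ^ 4) ^ (1 / 4 : ℝ) := by
          rw [← Real.rpow_natCast ((z : ℝ) ^ E) 4, ← Real.rpow_mul (by positivity)]
          norm_num
      _ ≤ (H : ℝ) ^ (1 / 4 : ℝ) := Real.rpow_le_rpow (by positivity) h2 (by norm_num)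
  have hVlow := hKV g F W H hF n1 (fun p hp hpg => hWp p hp (by omega))
  have hVzH : V F W H ≤ V F W z := by
    unfold V
    have hsub : PS W z ⊆ PS W H := by
      intro p hp
      unfold PS at hp ⊢
      rw [mem_filter, mem_Icc] at hp ⊢
      exact ⟨⟨hp.1.1, hp.1.2.trans hzle⟩, hp.2⟩
    rw [← prod_sdiff hsub]
    exact mul_le_of_le_one_left (prod_nonneg fun p _ => fac_nonneg p)
      (prod_le_one (fun p _ => fac_nonneg p) (fun p _ => fac_le p))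
  have hlogpos : 0 < Real.log H := Real.log_pos (by exact_mod_cast (show 1 < H by omega))
  have hKV0 : 0 < (KV * Real.log H) ^ (2 * g) := by positivity
  have h5 : 4 * W * (H : ℝ) ^ (1 / 4 : ℝ) ≤ H * V F W z := by
    have h6 : 4 * W * (H : ℝ) ^ (1 / 4 : ℝ) ≤ H * (1 / (KV * Real.log H) ^ (2 * g)) := by
      rw [mul_one_div, le_div_iff₀ hKV0]
      calc 4 * W * (H : ℝ) ^ (1 / 4 : ℝ) * (KV * Real.log H) ^ (2 * g) =
            4 * W * (KV * Real.log H) ^ (2 * g) * (H : ℝ) ^ (1 / 4 : ℝ) := by ring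
        _ ≤ H := n4
    refine h6.trans ?_
    have := hVlow.trans hVzH
    gcongr
  have h6 : (W : ℝ) * (3 / 2 * (L * V F W z) + (z : ℝ) ^ E + 1) ≤ 3 / 2 * ((H + W) * V F W z) + 2 * W * (z : ℝ) ^ E := by
    have h7 : (W : ℝ) * L * V F W z ≤ (H + W) * V F W z := by gcongr
    nlinarith
  have h7 : (W : ℝ) * V F W z ≤ W * (z : ℝ) ^ E := by
    have := hVz1.trans hzE1
    gcongr
  have h8 : (W : ℝ) * (z : ℝ) ^ E ≤ W * (H : ℝ) ^ (1 / 4 : ℝ) := by gcongr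
  linarith

end Pool.Agent.U497.AW
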