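import Pool.Agent.U497.AW.AAS

/-!
# Sifted numbers in all windows around almost all integers (helper497)
-/

set_option autoImplicit false

open Finset

namespace Pool.Agent.U497.AW

open Pool.Agent.TH423.SH (PS)
open Pool.Agent.Y677.RSZ (rt rhoT V rs fac_nonneg fac_le exJ ev_log V_le_one V_split)
open Pool.Agent.K3h89.SZ (SysP CF V_lowerP V_posP card_shiftP perP_mod perP)

/-- the reflected function -/
def refl (F : ℤ → ℤ) (T : ℤ) (x : ℤ) : ℤ := F (T - x)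

lemma refl_per {F : ℤ → ℤ} {p : ℕ} (hper : ∀ n : ℤ, (p : ℤ) ∣ F (n + p) ↔ (p : ℤ) ∣ F n) (T n : ℤ) :
    (p : ℤ) ∣ refl F T (n + p) ↔ (p : ℤ) ∣ refl F T n := by
  unfold refl
  apply perP hper
  exact ⟨-1, by ring⟩

lemma rt_refl_le {F : ℤ → ℤ} {p : ℕ} (hp : 0 < p) (hper : ∀ n : ℤ, (p : ℤ) ∣ F (n + p) ↔ (p : ℤ) ∣ F n) (T : ℤ) :
    rt (refl F T) p ≤ rt F p := by
  have hp0 : (0 : ℤ) < p := by exact_mod_cast hp
  unfold rt
  apply card_le_card_of_injOn (fun r : ℕ => ((T - r) % p).toNat)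
  · intro r hr
    rw [mem_coe, mem_filter, mem_range] at hr ⊢
    have h1 := Int.emod_nonneg (T - r) hp0.ne'
    have h2 := Int.emod_lt_of_pos (T - r) hp0
    dsimp only
    refine ⟨by omega, ?_⟩
    rw [Int.toNat_of_nonneg h1]
    refine (perP hper (T - r) ((T - r) % p) ?_).2 hr.2
    rw [dvd_sub_comm]
    exact Int.dvd_self_sub_emod
  · intro r hr r' hr' he
    rw [mem_coe, mem_filter, mem_range] at hr hr'
    dsimp only at he
    have h1 := Int.emod_nonneg (T - r) hp0.ne'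
    have h2 := Int.emod_nonneg (T - r') hp0.ne'
    have h3 : (T - r) % p = (T - r') % p := by omega
    have h4 : (T - r) ≡ (T - r') [ZMOD p] := h3
    have h5 := h4.dvd
    have h6 : (T - (r' : ℤ)) - (T - r) = r - r' := by ring
    rw [h6] at h5
    have h7 : (r : ℤ) - r' = 0 := by
      apply Int.eq_zero_of_abs_lt_dvd h5
      rw [abs_lt]
      omega
    omega

lemma rt_refl {F : ℤ → ℤ} {p : ℕ} (hp : 0 < p) (hper : ∀ n : ℤ, (p : ℤ) ∣ F (n + p) ↔ (p : ℤ) ∣ F n) (T : ℤ) :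
    rt (refl F T) p = rt F p := by
  apply le_antisymm (rt_refl_le hp hper T)
  have h1 := rt_refl_le hp (refl_per hper T) T
  have h2 : refl (refl F T) T = F := by
    funext x
    unfold refl
    congr 1
    ring
  rwa [h2] at h1

lemma refl_sys {g : ℕ} {F : ℤ → ℤ} (hF : SysP g F) (T : ℤ) : SysP g (refl F T) :=
  ⟨fun p hp n => refl_per (hF.per p hp) T n, fun p hp => by
    rw [rt_refl hp.pos (hF.per p hp) T]
    exact hF.root p hp⟩

lemma V_refl {g : ℕ} {F : ℤ → ℤ} (hF : SysP g F) (T : ℤ) (z : ℕ) : V (refl F T) 1 z = V F 1 z := by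
  unfold V
  apply prod_congr rfl
  intro p hp
  have hpp := ps_prime p hp
  rw [rt_refl hpp.pos (hF.per p hpp) T]

/-- short lengths -/
lemma side {c : ℕ → ℝ} {v K ε : ℝ} {H : ℕ} (hc0 : ∀ L, 0 ≤ c L) (hmono : Monotone c) (hv0 : 0 < v) (hv1 : v ≤ 1)
    (hK : 0 < K) (hε : 0 ≤ ε) (hε1 : ε ≤ 1) (hH : K / v + 1 ≤ H)
    (h : ∀ L : ℕ, L ≤ H → K ≤ v * L → |c L - v * L| ≤ ε * (v * L)) (L : ℕ) (hL : L ≤ H) :
    |c L - v * L| ≤ ε * (v * L) + 2 * (K + 1) := by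
  by_cases hKL : K ≤ v * L
  · have := h L hL hKL
    linarith
  · have h1 := not_le.1 hKL
    obtain ⟨L₀, hL₀⟩ : ∃ L₀ : ℕ, L₀ = ⌈K / v⌉₊ := ⟨_, rfl⟩
    have h2 : K / v ≤ L₀ := by rw [hL₀]; exact Nat.le_ceil _
    have h3 : (L₀ : ℝ) < K / v + 1 := by rw [hL₀]; exact Nat.ceil_lt_add_one (by positivity)
    have h4 : K ≤ v * L₀ := by
      rw [div_le_iff₀ hv0] at h2
      linarith
    have h5 : v * L₀ ≤ K + 1 := by
      have h6 : v * L₀ ≤ v * (K / v + 1) := by gcongr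
      have h7 : v * (K / v + 1) = K + v := by field_simp
      linarith
    have h6 : L ≤ L₀ := by
      have h7 : v * (L : ℝ) < v * L₀ := lt_of_lt_of_le h1 h4
      have h8 : (L : ℝ) < L₀ := lt_of_mul_lt_mul_left h7 hv0.le
      exact_mod_cast h8.le
    have h7 : L₀ ≤ H := by
      have h8 : (L₀ : ℝ) < H := lt_of_lt_of_le h3 hH
      exact_mod_cast h8.le
    have h8 := (abs_le.1 (h L₀ h7 h4)).2
    have h9 : c L ≤ c L₀ := hmono h6
    have h10 : ε * (v * L₀) ≤ 1 * (v * L₀) := by gcongr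
    have h11 : 0 ≤ v * L := by positivity
    have h12 : 0 ≤ ε * (v * L) := by positivity
    have h13 := hc0 L
    rw [abs_le]
    constructor
    · linarith
    · linarith

open Classical in
/-- **sifted numbers in all windows around almost all integers** -/
theorem aawin (g : ℕ) (ε θ : ℝ) (hε : 0 < ε) (hε1 : ε ≤ 1) (hθ : 0 < θ) : ∃ δ K : ℝ, 0 < δ ∧ 0 < K ∧
    ∃ H₀ : ℕ, ∀ H : ℕ, H₀ ≤ H → ∃ z : ℕ, (H : ℝ) ^ δ ≤ z ∧ (z : ℝ) ≤ (H : ℝ) ^ θ ∧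
    ∀ (F : ℤ → ℤ) (Y : ℕ), SysP g F →
      (((Ioc Y (Y + H)).filter (fun n => ∃ u v : ℕ, Y ≤ u ∧ u < n ∧ n ≤ v ∧ v ≤ Y + H ∧
        K ≤ V F 1 z * ((v : ℝ) - u) ∧ ε * (V F 1 z * ((v : ℝ) - u)) <
          |(((Ioc u v).filter (fun m : ℕ => ∀ p ∈ PS 1 z, ¬ (p : ℤ) ∣ F (m : ℤ))).card : ℝ) -
          V F 1 z * ((v : ℝ) - u)|)).card : ℝ) ≤ ε * H := by
  obtain ⟨δ, K, hδ, hK, H₁, h1⟩ := aasys g (ε / 8) (min θ 1) (by positivity) (by linarith) (lt_min hθ one_pos)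
  obtain ⟨N₁, hN₁⟩ := V1_low g
  obtain ⟨H₂, hH₂⟩ : ∃ H₂ : ℕ, ∀ H : ℕ, H₂ ≤ H → K + 1 ≤ (H : ℝ) ^ (3 / 4 : ℝ) := by
    have h2 : Filter.Tendsto (fun H : ℕ => (H : ℝ) ^ (3 / 4 : ℝ)) Filter.atTop Filter.atTop :=
      (tendsto_rpow_atTop (by norm_num)).comp tendsto_natCast_atTop_atTop
    exact Filter.eventually_atTop.1 (h2.eventually_ge_atTop (K + 1))
  refine ⟨δ, 8 * (K + 1) / ε, hδ, by positivity, H₁ + N₁ + H₂ + 2, fun H hH => ?_⟩
  obtain ⟨z, hz1, hz2, hz3⟩ := h1 H (by omega)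
  have hH1 : (1 : ℝ) ≤ H := by exact_mod_cast (by omega : 1 ≤ H)
  have hH0 : (0 : ℝ) < H := by linarith
  refine ⟨z, hz1, hz2.trans (Real.rpow_le_rpow_of_exponent_le hH1 (min_le_left _ _)), fun F Y hF => ?_⟩
  have hzH : z ≤ H := by
    have h2 : (z : ℝ) ≤ (H : ℝ) ^ (1 : ℝ) := hz2.trans (Real.rpow_le_rpow_of_exponent_le hH1 (min_le_right _ _))
    rw [Real.rpow_one] at h2
    exact_mod_cast h2
  obtain ⟨T, hT⟩ : ∃ T : ℕ, T = 2 * Y + H + 2 := ⟨_, rfl⟩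
  have hb1 := hz3 F Y hF
  have hb2 := hz3 (refl F T) Y (refl_sys hF T)
  rw [V_refl hF] at hb2
  have hvl := hN₁ H (by omega) F z hF hzH
  obtain ⟨v, hv⟩ : ∃ v : ℝ, v = V F 1 z := ⟨_, rfl⟩
  have hv0 : 0 < v := by rw [hv]; exact V_posP hF 1 z
  have hv1 : v ≤ 1 := by rw [hv]; exact V_le_one 1 z
  rw [← hv] at hb1 hb2 hvl ⊢
  have hKv : K / v + 1 ≤ H := by
    have h2 : 1 / v ≤ (H : ℝ) ^ (1 / 4 : ℝ) := by
      rw [Real.rpow_neg hH0.le] at hvl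
      rw [div_le_iff₀ hv0]
      have h3 : 0 < (H : ℝ) ^ (1 / 4 : ℝ) := by positivity
      calc (1 : ℝ) = (H : ℝ) ^ (1 / 4 : ℝ) * ((H : ℝ) ^ (1 / 4 : ℝ))⁻¹ := by field_simp
        _ ≤ _ := by gcongr
    have h3 : (1 : ℝ) ≤ (H : ℝ) ^ (1 / 4 : ℝ) := Real.one_le_rpow hH1 (by norm_num)
    have h4 := hH₂ H (by omega)
    calc K / v + 1 = K * (1 / v) + 1 := by ring
      _ ≤ K * (H : ℝ) ^ (1 / 4 : ℝ) + (H : ℝ) ^ (1 / 4 : ℝ) := by gcongr
      _ = (K + 1) * (H : ℝ) ^ (1 / 4 : ℝ) := by ring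
      _ ≤ (H : ℝ) ^ (3 / 4 : ℝ) * (H : ℝ) ^ (1 / 4 : ℝ) := by gcongr
      _ = H := by rw [← Real.rpow_add hH0]; norm_num
  obtain ⟨B₁, hB₁⟩ : ∃ B₁ : Finset ℕ, B₁ = (Ioc Y (Y + H)).filter (fun n => ∃ L : ℕ, L ≤ H ∧ K ≤ v * L ∧
    ε / 8 * (v * L) < |(((Ioc n (n + L)).filter (fun m : ℕ => ∀ p ∈ PS 1 z, ¬ (p : ℤ) ∣ F (m : ℤ))).card : ℝ) - v * L|) :=
    ⟨_, rfl⟩
  obtain ⟨B₂, hB₂⟩ : ∃ B₂ : Finset ℕ, B₂ = (Ioc Y (Y + H)).filter (fun n => ∃ L : ℕ, L ≤ H ∧ K ≤ v * L ∧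
    ε / 8 * (v * L) < |(((Ioc n (n + L)).filter (fun m : ℕ => ∀ p ∈ PS 1 z, ¬ (p : ℤ) ∣ refl F T (m : ℤ))).card : ℝ) -
      v * L|) := ⟨_, rfl⟩
  rw [← hB₁] at hb1
  rw [← hB₂] at hb2
  have hsub : (Ioc Y (Y + H)).filter (fun n => ∃ u w : ℕ, Y ≤ u ∧ u < n ∧ n ≤ w ∧ w ≤ Y + H ∧
        8 * (K + 1) / ε ≤ v * ((w : ℝ) - u) ∧ ε * (v * ((w : ℝ) - u)) <
          |(((Ioc u w).filter (fun m : ℕ => ∀ p ∈ PS 1 z, ¬ (p : ℤ) ∣ F (m : ℤ))).card : ℝ) -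
          v * ((w : ℝ) - u)|) ⊆ B₁ ∪ B₂.image (fun n => 2 * Y + H + 1 - n) := by
    intro n hn
    rw [mem_filter, mem_Ioc] at hn
    obtain ⟨⟨hn1, hn2⟩, u, w, hu1, hu2, hw1, hw2, hKu, hbad⟩ := hn
    by_contra hcon
    rw [mem_union, not_or] at hcon
    obtain ⟨hc1, hc2⟩ := hcon
    obtain ⟨n', hn'⟩ : ∃ n' : ℕ, n' = 2 * Y + H + 1 - n := ⟨_, rfl⟩
    have hn'1 : Y < n' := by omega
    have hn'2 : n' ≤ Y + H := by omega
    obtain ⟨c₁, hc₁⟩ : ∃ c₁ : ℕ → ℝ, c₁ = fun L => (((Ioc n (n + L)).filter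
      (fun m : ℕ => ∀ p ∈ PS 1 z, ¬ (p : ℤ) ∣ F (m : ℤ))).card : ℝ) := ⟨_, rfl⟩
    obtain ⟨c₂, hc₂⟩ : ∃ c₂ : ℕ → ℝ, c₂ = fun L => (((Ioc n' (n' + L)).filter
      (fun m : ℕ => ∀ p ∈ PS 1 z, ¬ (p : ℤ) ∣ refl F T (m : ℤ))).card : ℝ) := ⟨_, rfl⟩
    have hP1 : ∀ L : ℕ, L ≤ H → K ≤ v * L → |c₁ L - v * L| ≤ ε / 8 * (v * L) := by
      intro L hL1 hL2
      by_contra h2
      apply hc1
      rw [hB₁, mem_filter, mem_Ioc]
      refine ⟨⟨hn1, hn2⟩, L, hL1, hL2, ?_⟩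
      rw [hc₁] at h2
      exact not_le.1 h2
    have hP2 : ∀ L : ℕ, L ≤ H → K ≤ v * L → |c₂ L - v * L| ≤ ε / 8 * (v * L) := by
      intro L hL1 hL2
      by_contra h2
      apply hc2
      rw [mem_image]
      refine ⟨n', ?_, by omega⟩
      rw [hB₂, mem_filter, mem_Ioc]
      refine ⟨⟨hn'1, hn'2⟩, L, hL1, hL2, ?_⟩
      rw [hc₂] at h2
      exact not_le.1 h2
    have hm1 : Monotone c₁ := by
      intro a b hab
      rw [hc₁]
      dsimp only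
      exact_mod_cast card_le_card (filter_subset_filter _ (Ioc_subset_Ioc_right (by omega)))
    have hm2 : Monotone c₂ := by
      intro a b hab
      rw [hc₂]
      dsimp only
      exact_mod_cast card_le_card (filter_subset_filter _ (Ioc_subset_Ioc_right (by omega)))
    have hp1 : ∀ L, 0 ≤ c₁ L := fun L => by rw [hc₁]; exact Nat.cast_nonneg _
    have hp2 : ∀ L, 0 ≤ c₂ L := fun L => by rw [hc₂]; exact Nat.cast_nonneg _
    have hs1 := side hp1 hm1 hv0 hv1 hK (by positivity) (by linarith) hKv hP1 (w - n) (by omega)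
    have hs2 := side hp2 hm2 hv0 hv1 hK (by positivity) (by linarith) hKv hP2 (n - u) (by omega)
    have hcount : (((Ioc u w).filter (fun m : ℕ => ∀ p ∈ PS 1 z, ¬ (p : ℤ) ∣ F (m : ℤ))).card : ℝ) =
        c₂ (n - u) + c₁ (w - n) := by
      have h2 : (Ioc u w).filter (fun m : ℕ => ∀ p ∈ PS 1 z, ¬ (p : ℤ) ∣ F (m : ℤ)) =
          (Ioc u n).filter (fun m : ℕ => ∀ p ∈ PS 1 z, ¬ (p : ℤ) ∣ F (m : ℤ)) ∪
          (Ioc n w).filter (fun m : ℕ => ∀ p ∈ PS 1 z, ¬ (p : ℤ) ∣ F (m : ℤ)) := by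
        rw [← filter_union, Ioc_union_Ioc_eq_Ioc hu2.le hw1]
      have h3 : Disjoint ((Ioc u n).filter (fun m : ℕ => ∀ p ∈ PS 1 z, ¬ (p : ℤ) ∣ F (m : ℤ)))
          ((Ioc n w).filter (fun m : ℕ => ∀ p ∈ PS 1 z, ¬ (p : ℤ) ∣ F (m : ℤ))) := by
        apply disjoint_filter_filter
        rw [disjoint_left]
        intro x hx hx'
        rw [mem_Ioc] at hx hx'
        omega
      have h4 : ((Ioc u n).filter (fun m : ℕ => ∀ p ∈ PS 1 z, ¬ (p : ℤ) ∣ F (m : ℤ))).card =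
          ((Ioc n' (n' + (n - u))).filter (fun m : ℕ => ∀ p ∈ PS 1 z, ¬ (p : ℤ) ∣ refl F T (m : ℤ))).card := by
        apply card_nbij' (fun m => T - m) (fun m => T - m)
        · intro m hm
          rw [mem_coe, mem_filter, mem_Ioc] at hm ⊢
          dsimp only
          refine ⟨by omega, fun p hp hd => hm.2 p hp ?_⟩
          unfold refl at hd
          have h5 : (T : ℤ) - ((T - m : ℕ) : ℤ) = m := by
            rw [Nat.cast_sub (by omega)]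
            ring
          rwa [h5] at hd
        · intro m hm
          rw [mem_coe, mem_filter, mem_Ioc] at hm ⊢
          dsimp only
          refine ⟨by omega, fun p hp hd => hm.2 p hp ?_⟩
          unfold refl
          have h5 : ((T - m : ℕ) : ℤ) = (T : ℤ) - m := by
            rw [Nat.cast_sub (by omega)]
          rwa [h5] at hd
        · intro m hm
          rw [mem_coe, mem_filter, mem_Ioc] at hm
          dsimp only
          omega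
        · intro m hm
          rw [mem_coe, mem_filter, mem_Ioc] at hm
          dsimp only
          omega
      have h5 : n + (w - n) = w := by omega
      rw [h2, card_union_of_disjoint h3, h4, hc₁, hc₂]
      dsimp only
      rw [h5]
      push_cast
      ring
    have e1 : ((w - n : ℕ) : ℝ) = w - n := by rw [Nat.cast_sub hw1]
    have e2 : ((n - u : ℕ) : ℝ) = n - u := by rw [Nat.cast_sub hu2.le]
    rw [e1] at hs1
    rw [e2] at hs2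
    rw [hcount] at hbad
    have h6 : |c₂ (n - u) + c₁ (w - n) - v * ((w : ℝ) - u)| ≤ ε / 8 * (v * ((w : ℝ) - u)) + 4 * (K + 1) := by
      have h7 : c₂ (n - u) + c₁ (w - n) - v * ((w : ℝ) - u) =
          (c₂ (n - u) - v * ((n : ℝ) - u)) + (c₁ (w - n) - v * ((w : ℝ) - n)) := by ring
      rw [h7]
      refine (abs_add_le _ _).trans ?_
      have h8 : ε / 8 * (v * ((w : ℝ) - u)) = ε / 8 * (v * ((n : ℝ) - u)) + ε / 8 * (v * ((w : ℝ) - n)) := by ring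
      rw [h8]
      linarith
    rw [div_le_iff₀ hε] at hKu
    have h7 : 0 ≤ v * ((w : ℝ) - u) := by
      have : (u : ℝ) ≤ w := by exact_mod_cast (by omega : u ≤ w)
      apply mul_nonneg hv0.le
      linarith
    nlinarith
  have h2 : (((Ioc Y (Y + H)).filter (fun n => ∃ u w : ℕ, Y ≤ u ∧ u < n ∧ n ≤ w ∧ w ≤ Y + H ∧
        8 * (K + 1) / ε ≤ v * ((w : ℝ) - u) ∧ ε * (v * ((w : ℝ) - u)) <
          |(((Ioc u w).filter (fun m : ℕ => ∀ p ∈ PS 1 z, ¬ (p : ℤ) ∣ F (m : ℤ))).card : ℝ) -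
          v * ((w : ℝ) - u)|)).card : ℝ) ≤ (B₁.card : ℝ) + B₂.card := by
    have h3 := (card_le_card hsub).trans ((card_union_le _ _).trans (Nat.add_le_add_left card_image_le _))
    exact_mod_cast h3
  refine h2.trans ?_
  nlinarith

end Pool.Agent.U497.AW
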